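import Pool.Agent.Helper33.Aug.Det

/-!
# Group algebras acting on an algebra by left and right multiplication
-/

namespace Pool.Agent.Helper33.Aug

variable {P R A A₁ A₂ : Type*} [Field P] [Ring R] [Algebra P R]
  [AddCommGroup A] [AddCommGroup A₁] [AddCommGroup A₂]

/-- The algebra map `P[A] → R` given by a multiplicative function `r : A → R`. -/
noncomputable def lAct (r : A → R) (h0 : r 0 = 1) (h1 : ∀ a b, r (a + b) = r a * r b) :
    AddMonoidAlgebra P A →ₐ[P] R :=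
  AddMonoidAlgebra.lift P R A
    { toFun := fun a => r a.toAdd
      map_one' := h0
      map_mul' := fun _ _ => h1 _ _ }

@[simp] lemma lAct_ch (r : A → R) (h0 : r 0 = 1) (h1 : ∀ a b, r (a + b) = r a * r b) (a : A) :
    lAct (P := P) r h0 h1 (ch P a) = r a := by
  simp [lAct, ch]

lemma lAct_apply (r : A → R) (h0 : r 0 = 1) (h1 : ∀ a b, r (a + b) = r a * r b)
    (θ : AddMonoidAlgebra P A) :
    lAct (P := P) r h0 h1 θ = ∑ a ∈ θ.coeff.support, θ.coeff a • r a := by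
  rw [lAct, AddMonoidAlgebra.lift_apply, Finsupp.sum]
  rfl

/-- `P[A₁ × A₂]` acting on `R` by `[a, b] N = r₁ a * N * r₂ b`. -/
noncomputable def biAct (r₁ : A₁ → R) (r₂ : A₂ → R) (h10 : r₁ 0 = 1)
    (h11 : ∀ a b, r₁ (a + b) = r₁ a * r₁ b) (h20 : r₂ 0 = 1)
    (h21 : ∀ a b, r₂ (a + b) = r₂ a * r₂ b) :
    AddMonoidAlgebra P (A₁ × A₂) →ₐ[P] Module.End P R :=
  AddMonoidAlgebra.lift P (Module.End P R) (A₁ × A₂)
    { toFun := fun a => LinearMap.mulLeft P (r₁ a.toAdd.1) ∘ₗ LinearMap.mulRight P (r₂ a.toAdd.2)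
      map_one' := by
        ext N
        simp [h10, h20]
      map_mul' := fun a b => by
        ext N
        have e : r₂ b.toAdd.2 * r₂ a.toAdd.2 = r₂ a.toAdd.2 * r₂ b.toAdd.2 := by
          rw [← h21, ← h21, add_comm]
        simp [h11, h21, mul_assoc, ← e] }

variable (r₁ : A₁ → R) (r₂ : A₂ → R) (h10 : r₁ 0 = 1)
    (h11 : ∀ a b, r₁ (a + b) = r₁ a * r₁ b) (h20 : r₂ 0 = 1)
    (h21 : ∀ a b, r₂ (a + b) = r₂ a * r₂ b)

lemma biAct_ch (a : A₁ × A₂) (N : R) :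
    biAct (P := P) r₁ r₂ h10 h11 h20 h21 (ch P a) N = r₁ a.1 * N * r₂ a.2 := by
  simp [biAct, ch, mul_assoc]

lemma biAct_apply (θ : AddMonoidAlgebra P (A₁ × A₂)) (N : R) :
    biAct (P := P) r₁ r₂ h10 h11 h20 h21 θ N =
      ∑ a ∈ θ.coeff.support, θ.coeff a • (r₁ a.1 * N * r₂ a.2) := by
  rw [biAct, AddMonoidAlgebra.lift_apply, Finsupp.sum]
  simp [LinearMap.sum_apply, mul_assoc]

lemma biAct_mul (θ : AddMonoidAlgebra P (A₁ × A₂)) (B C : R) (hB : ∀ a, r₁ a * B = B * r₁ a)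
    (hC : ∀ a, C * r₂ a = r₂ a * C) :
    biAct (P := P) r₁ r₂ h10 h11 h20 h21 θ (B * C) =
      B * biAct (P := P) r₁ r₂ h10 h11 h20 h21 θ 1 * C := by
  rw [biAct_apply, biAct_apply, Finset.mul_sum, Finset.sum_mul]
  refine Finset.sum_congr rfl fun a _ => ?_
  rw [mul_smul_comm, smul_mul_assoc]
  congr 1
  calc r₁ a.1 * (B * C) * r₂ a.2 = (r₁ a.1 * B) * (C * r₂ a.2) := by simp only [mul_assoc]
    _ = (B * r₁ a.1) * (r₂ a.2 * C) := by rw [hB, hC]
    _ = B * (r₁ a.1 * 1 * r₂ a.2) * C := by simp only [mul_assoc, one_mul]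

omit [AddCommGroup A] in
/-- A sum over the support, as a sum over a type. -/
lemma sum_support (θ : AddMonoidAlgebra P A) {V : Type*} [AddCommGroup V] (v : A → V) :
    ∑ a ∈ θ.coeff.support, v a = ∑ a : θ.coeff.support, v a := by
  rw [Finset.univ_eq_attach, Finset.sum_attach]

end Pool.Agent.Helper33.Aug
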