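import Pool.Agent.Helper33.Aug.Step6

/-!
# The core theorem: a nontrivial relation forces a trivial representation
-/

open Matrix

namespace Pool.Agent.Helper33.Aug

variable {F ι : Type*} [Field F] [Fintype ι] [DecidableEq ι]

omit [DecidableEq ι] in
lemma exists_dot_ne {v : ι → F} [DecidableEq ι] (hv : v ≠ 0) : ∃ f : ι → F, f ⬝ᵥ v ≠ 0 := by
  obtain ⟨k, hk⟩ := Function.ne_iff.1 hv
  exact ⟨Pi.single k 1, by rw [single_one_dotProduct]; exact hk⟩

/-- The linear form `x ↦ y · x`. -/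
def dl (y : ι → F) : (ι → F) →ₗ[F] F where
  toFun x := y ⬝ᵥ x
  map_add' a b := dotProduct_add y a b
  map_smul' c a := by rw [dotProduct_smul]; rfl

omit [DecidableEq ι] in
lemma dl_apply (y x : ι → F) : dl y x = y ⬝ᵥ x := rfl

lemma mt_inv_mulVec (g : SpecialLinearGroup ι F) (v : ι → F) :
    mt g⁻¹ *ᵥ (mt g *ᵥ v) = v := by
  rw [mulVec_mulVec, ← map_mul, inv_mul_cancel, map_one, one_mulVec]

lemma mt_mulVec_ne_zero (g : SpecialLinearGroup ι F) {v : ι → F} (hv : v ≠ 0) :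
    mt g *ᵥ v ≠ 0 := by
  intro h
  apply hv
  rw [← mt_inv_mulVec g v, h, mulVec_zero]

/-- Two elements with different images modulo the centre move some vector to non-proportional
vectors. -/
lemma exists_minor {g h : SpecialLinearGroup ι F}
    (hgh : g⁻¹ * h ∉ Subgroup.center (SpecialLinearGroup ι F)) :
    ∃ k l : ι, ∃ w : ι → F,
      (mt g *ᵥ w) k * (mt h *ᵥ w) l - (mt g *ᵥ w) l * (mt h *ᵥ w) k ≠ 0 := by
  by_contra hcon
  push Not at hcon
  apply hgh
  have hprop : ∀ w : ι → F, w ≠ 0 → ∃ c : F, mt h *ᵥ w = c • (mt g *ᵥ w) := by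
    intro w hw
    obtain ⟨k, hk⟩ := Function.ne_iff.1 (mt_mulVec_ne_zero g hw)
    have hk' : (mt g *ᵥ w) k ≠ 0 := hk
    refine ⟨(mt h *ᵥ w) k / (mt g *ᵥ w) k, ?_⟩
    ext l
    have := hcon k l w
    rw [Pi.smul_apply, smul_eq_mul]
    field_simp
    linear_combination this
  have hprop' : ∀ w : ι → F, w ≠ 0 → ∃ c : F, mt (g⁻¹ * h) *ᵥ w = c • w := by
    intro w hw
    obtain ⟨c, hc⟩ := hprop w hw
    refine ⟨c, ?_⟩
    rw [map_mul, ← mulVec_mulVec, hc, mulVec_smul, mt_inv_mulVec]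
  obtain ⟨a, ha⟩ := (Matrix.toLin' (mt (g⁻¹ * h))).exists_eq_smul_id_of_forall_notLinearIndependent
    (fun v => by
      by_cases hv : v = 0
      · simp [hv, linearIndependent_fin2]
      · rw [LinearIndependent.pair_iff' hv]
        push Not
        obtain ⟨c, hc⟩ := hprop' v hv
        exact ⟨c, by rw [Matrix.toLin'_apply, hc]⟩)
  have hscalar : mt (g⁻¹ * h) = Matrix.scalar ι a := by
    have h1 := congrArg LinearMap.toMatrix' ha
    rw [LinearMap.toMatrix'_toLin'] at h1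
    rw [h1]
    ext i j
    simp [LinearMap.toMatrix'_apply, Matrix.diagonal_apply, Pi.single_apply]
  rw [Matrix.SpecialLinearGroup.mem_center_iff]
  refine ⟨a, ?_, hscalar.symm⟩
  have h2 : (mt (g⁻¹ * h)).det = 1 := (g⁻¹ * h).2
  rw [hscalar] at h2
  simpa using h2

lemma LP_comp_mulVec (A : Matrix ι ι F) (k : ι) : LP (fun w : ι → F => (A *ᵥ w) k) :=
  LP.linear ((LinearMap.proj k).comp (Matrix.toLin' A))

/-- Choice of `w`. -/
lemma choose_w [Infinite F] [Nonempty ι] {J : Type*} [Finite J] (g : J → SpecialLinearGroup ι F)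
    (hg : ∀ i j, i ≠ j → (g i)⁻¹ * g j ∉ Subgroup.center (SpecialLinearGroup ι F)) :
    ∃ w : ι → F, w ≠ 0 ∧ ∀ i j, i ≠ j → ∀ c : F, mt (g i) *ᵥ w ≠ c • (mt (g j) *ᵥ w) := by
  classical
  choose! k l hkl using fun (p : J × J) (hp : p.1 ≠ p.2) => exists_minor (hg p.1 p.2 hp)
  obtain ⟨k0⟩ := ‹Nonempty ι›
  obtain ⟨w, hw⟩ := generic' (F := F) (V := ι → F) (κ := Option {p : J × J // p.1 ≠ p.2})
    (fun o w => match o with
      | none => w k0
      | some p => (mt (g p.1.1) *ᵥ w) (k p.1) * (mt (g p.1.2) *ᵥ w) (l p.1) -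
          (mt (g p.1.1) *ᵥ w) (l p.1) * (mt (g p.1.2) *ᵥ w) (k p.1))
    (by
      rintro (_ | p)
      · exact LP.linear (F := F) (V := ι → F) (LinearMap.proj (R := F) (φ := fun _ => F) k0)
      · exact LP.sub (LP.mul (LP_comp_mulVec _ _) (LP_comp_mulVec _ _))
          (LP.mul (LP_comp_mulVec _ _) (LP_comp_mulVec _ _)))
    (by
      rintro (_ | p)
      · exact ⟨Pi.single k0 1, by simp⟩
      · exact hkl p.1 p.2)
  refine ⟨w, ?_, ?_⟩
  · rintro rfl
    exact hw none rfl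
  · intro i j hij c hc
    have := hw (some ⟨(i, j), hij⟩)
    apply this
    simp only [hc, Pi.smul_apply, smul_eq_mul]
    ring

/-- Choice of `f`. -/
lemma choose_f [Infinite F] {J : Type*} [Finite J] (g : J → SpecialLinearGroup ι F)
    {w : ι → F} (hw : w ≠ 0) :
    ∃ f : ι → F, f ⬝ᵥ w = 1 ∧ ∀ j, f ⬝ᵥ (mt (g j) *ᵥ w) ≠ 0 := by
  obtain ⟨f, hf⟩ := generic' (F := F) (V := ι → F) (κ := Option J)
    (fun o f => match o with
      | none => dl w f
      | some j => dl (mt (g j) *ᵥ w) f)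
    (by
      rintro (_ | j)
      · exact LP.linear _
      · exact LP.linear _)
    (by
      rintro (_ | j)
      · obtain ⟨f, hf⟩ := exists_dot_ne hw
        exact ⟨f, by change dl w f ≠ 0; rw [dl_apply, dotProduct_comm]; exact hf⟩
      · obtain ⟨f, hf⟩ := exists_dot_ne (mt_mulVec_ne_zero (g j) hw)
        exact ⟨f, by
          change dl (mt (g j) *ᵥ w) f ≠ 0
          rw [dl_apply, dotProduct_comm]; exact hf⟩)
  have h0 : f ⬝ᵥ w ≠ 0 := by
    have : dl w f ≠ 0 := hf none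
    rwa [dl_apply, dotProduct_comm] at this
  refine ⟨(f ⬝ᵥ w)⁻¹ • f, ?_, fun j => ?_⟩
  · rw [smul_dotProduct, smul_eq_mul, inv_mul_cancel₀ h0]
  · rw [smul_dotProduct, smul_eq_mul]
    have : dl (mt (g j) *ᵥ w) f ≠ 0 := hf (some j)
    rw [dl_apply, dotProduct_comm] at this
    exact mul_ne_zero (inv_ne_zero h0) this

/-- Choice of `e` and `φ`. -/
lemma choose_e_phi [Infinite F] (hn : 3 ≤ Fintype.card ι) {w f : ι → F} (hwf : f ⬝ᵥ w = 1)
    (S : Finset (perp f × perp w)) :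
    ∃ e φ : ι → F, f ⬝ᵥ e = 0 ∧ φ ⬝ᵥ w = 0 ∧ φ ⬝ᵥ e = 0 ∧ e ≠ 0 ∧ φ ≠ 0 ∧
      ∀ a ∈ S, ∀ b ∈ S, a ≠ b →
      φ ⬝ᵥ ((a.1 : ι → F) - (b.1 : ι → F)) ≠ 0 ∨ ((a.2 : ι → F) - (b.2 : ι → F)) ⬝ᵥ e ≠ 0 := by
  classical
  -- a linear form for every pair
  have hL : ∀ p : {p : S × S // p.1 ≠ p.2}, ∃ L : (ι → F) →ₗ[F] F,
      (∃ e ∈ perp f, L e ≠ 0) ∧ ∀ e ∈ perp f, L e ≠ 0 →
        (((p.1.1 : perp f × perp w).2 : ι → F) - ((p.1.2 : perp f × perp w).2 : ι → F)) ⬝ᵥ e ≠ 0 ∨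
        (((p.1.1 : perp f × perp w).1 : ι → F) - ((p.1.2 : perp f × perp w).1 : ι → F) ≠ 0 ∧
        ∀ c : F, e ≠ c •
          (((p.1.1 : perp f × perp w).1 : ι → F) - ((p.1.2 : perp f × perp w).1 : ι → F))) := by
    rintro ⟨⟨a, b⟩, hab⟩
    by_cases h2 : ((a : perp f × perp w).2 : ι → F) - ((b : perp f × perp w).2 : ι → F) = 0
    · set x := ((a : perp f × perp w).1 : ι → F) - ((b : perp f × perp w).1 : ι → F) with hx
      have hx0 : x ≠ 0 := by
        intro h1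
        apply hab
        apply Subtype.ext
        apply Prod.ext
        · exact Subtype.ext (sub_eq_zero.1 h1)
        · exact Subtype.ext (sub_eq_zero.1 h2)
      obtain ⟨k, hk⟩ := Function.ne_iff.1 hx0
      have hk' : x k ≠ 0 := hk
      obtain ⟨e0, he0, h3, h4⟩ := exists_perp2 hn f (Pi.single k 1)
      rw [single_one_dotProduct] at h4
      obtain ⟨l, hl⟩ := Function.ne_iff.1 he0
      have hl' : e0 l ≠ 0 := hl
      refine ⟨x l • LinearMap.proj k - x k • LinearMap.proj l, ⟨e0, h3, ?_⟩, ?_⟩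
      · simp only [LinearMap.sub_apply, LinearMap.smul_apply, LinearMap.proj_apply, smul_eq_mul, h4,
          mul_zero, zero_sub, neg_ne_zero]
        exact mul_ne_zero hk' hl'
      · intro e _ hLe
        right
        refine ⟨hx0, fun c hc => hLe ?_⟩
        have hc' : e = c • x := hc
        simp only [LinearMap.sub_apply, LinearMap.smul_apply, LinearMap.proj_apply, smul_eq_mul, hc',
          Pi.smul_apply]
        ring
    · set y := ((a : perp f × perp w).2 : ι → F) - ((b : perp f × perp w).2 : ι → F) with hy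
      refine ⟨dl y, ?_, fun e _ h => Or.inl h⟩
      obtain ⟨v, hv⟩ := exists_dot_ne h2
      have hyw : y ⬝ᵥ w = 0 := by
        rw [hy, sub_dotProduct, perp_right, perp_right, sub_zero]
      refine ⟨v - (f ⬝ᵥ v) • w, ?_, ?_⟩
      · rw [mem_perp, dotProduct_sub, dotProduct_smul, hwf, smul_eq_mul, mul_one, sub_self]
      · rw [dl_apply, dotProduct_sub, dotProduct_smul, hyw, smul_zero, sub_zero, dotProduct_comm]
        exact hv
  choose L hL1 hL2 using hL
  obtain ⟨ez, hez0, hez1, _⟩ := exists_perp2 hn f f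
  obtain ⟨kz, hkz⟩ := Function.ne_iff.1 hez0
  obtain ⟨e, he⟩ := generic' (F := F) (V := perp f) (κ := Option {p : S × S // p.1 ≠ p.2})
    (fun o e => match o with
      | none => (e : ι → F) kz
      | some p => L p (e : ι → F))
    (by
      rintro (_ | p)
      · exact LP.linear ((LinearMap.proj kz).comp (perp f).subtype)
      · exact LP.linear ((L p).comp (perp f).subtype))
    (by
      rintro (_ | p)
      · exact ⟨⟨ez, hez1⟩, hkz⟩
      · obtain ⟨e, he1, he2⟩ := hL1 p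
        exact ⟨⟨e, he1⟩, he2⟩)
  have he0 : (e : ι → F) ≠ 0 := by
    intro h
    apply he none
    change (e : ι → F) kz = 0
    rw [h]; rfl
  have heL : ∀ p, L p (e : ι → F) ≠ 0 := fun p => he (some p)
  -- now φ
  let V : Submodule F (ι → F) := perp w ⊓ perp (e : ι → F)
  have hM : ∀ p : {p : S × S // p.1 ≠ p.2}, ∃ M : V → F, LP M ∧
      (∃ φ : V, M φ ≠ 0) ∧ ∀ φ : V, M φ ≠ 0 →
        (φ : ι → F) ⬝ᵥ
          (((p.1.1 : perp f × perp w).1 : ι → F) - ((p.1.2 : perp f × perp w).1 : ι → F)) ≠ 0 ∨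
        (((p.1.1 : perp f × perp w).2 : ι → F) -
          ((p.1.2 : perp f × perp w).2 : ι → F)) ⬝ᵥ (e : ι → F) ≠ 0 := by
    intro p
    rcases hL2 p e e.2 (heL p) with h | ⟨h1, h2⟩
    · exact ⟨fun _ => 1, fun u v => ⟨1, fun t => by rw [Polynomial.eval_one]⟩, ⟨0, one_ne_zero⟩,
        fun φ _ => Or.inr h⟩
    · set x := ((p.1.1 : perp f × perp w).1 : ι → F) - ((p.1.2 : perp f × perp w).1 : ι → F) with hx
      refine ⟨fun φ => (dl x) (φ : ι → F), LP.linear ((dl x).comp V.subtype), ?_, ?_⟩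
      · obtain ⟨φ₁, h3, h4⟩ := exists_dual h1 h2
        have hfx : f ⬝ᵥ x = 0 := by
          rw [hx, dotProduct_sub, perp_left, perp_left, sub_zero]
        refine ⟨⟨φ₁ - (φ₁ ⬝ᵥ w) • f, ?_, ?_⟩, ?_⟩
        · change w ⬝ᵥ _ = 0
          rw [dotProduct_comm, sub_dotProduct, smul_dotProduct, hwf, smul_eq_mul, mul_one, sub_self]
        · change (e : ι → F) ⬝ᵥ _ = 0
          rw [dotProduct_comm, sub_dotProduct, smul_dotProduct, perp_left e, smul_zero, sub_zero]
          exact h4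
        · change x ⬝ᵥ (φ₁ - (φ₁ ⬝ᵥ w) • f) ≠ 0
          rw [dotProduct_comm, sub_dotProduct, smul_dotProduct, hfx, smul_zero, sub_zero, h3]
          exact one_ne_zero
      · intro φ hφ
        left
        rw [dotProduct_comm]
        exact hφ
  choose M hM1 hM2 hM3 using hM
  obtain ⟨pz, hpz0, hpz1, hpz2⟩ := exists_perp2 hn w (e : ι → F)
  obtain ⟨kp, hkp⟩ := Function.ne_iff.1 hpz0
  obtain ⟨φ, hφ⟩ := generic' (F := F) (V := V) (κ := Option {p : S × S // p.1 ≠ p.2})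
    (fun o φ => match o with
      | none => (φ : ι → F) kp
      | some p => M p φ)
    (by
      rintro (_ | p)
      · exact LP.linear ((LinearMap.proj kp).comp V.subtype)
      · exact hM1 p)
    (by
      rintro (_ | p)
      · exact ⟨⟨pz, hpz1, hpz2⟩, hkp⟩
      · exact hM2 p)
  have hφ0 : (φ : ι → F) ≠ 0 := by
    intro h
    apply hφ none
    change (φ : ι → F) kp = 0
    rw [h]; rfl
  refine ⟨e, φ, perp_left e, ?_, ?_, he0, hφ0, ?_⟩
  · have h1 : w ⬝ᵥ (φ : ι → F) = 0 := φ.2.1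
    rw [dotProduct_comm]; exact h1
  · have h1 : (e : ι → F) ⬝ᵥ (φ : ι → F) = 0 := φ.2.2
    rw [dotProduct_comm]; exact h1
  · intro a ha b hb hab
    have hne : (⟨a, ha⟩ : S) ≠ ⟨b, hb⟩ := fun h => hab (congrArg Subtype.val h)
    exact hM3 ⟨(⟨a, ha⟩, ⟨b, hb⟩), hne⟩ φ (hφ (some ⟨(⟨a, ha⟩, ⟨b, hb⟩), hne⟩))

end Pool.Agent.Helper33.Aug
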