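import Mathlib

/-!
# Groups with simple augmentation ideal: definitions
-/

namespace Pool.Agent.Helper33.Aug

/-- A ring, not necessarily with identity, is simple if `R² ≠ 0` and the only additive subgroups
closed under left and right multiplication by elements of `R` are `0` and `R`. -/
def SimpleRng (R : Type*) [NonUnitalRing R] : Prop :=
  (∃ a b : R, a * b ≠ 0) ∧
    ∀ I : AddSubgroup R, (∀ a x : R, x ∈ I → a * x ∈ I ∧ x * a ∈ I) → I = ⊥ ∨ I = ⊤

/-- The augmentation map `∑ a_h h ↦ ∑ a_h` of the group ring `P[H]`. -/
noncomputable def augMap (P H : Type*) [Field P] [Group H] : MonoidAlgebra P H →ₐ[P] P :=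
  MonoidAlgebra.lift P P H 1

/-- The augmentation ideal `A(PH)`, as a ring in its own right. -/
noncomputable def augRing (P H : Type*) [Field P] [Group H] :
    NonUnitalSubring (MonoidAlgebra P H) where
  carrier := {x | augMap P H x = 0}
  zero_mem' := map_zero _
  add_mem' := by
    intro a b ha hb
    have ha' : augMap P H a = 0 := ha
    have hb' : augMap P H b = 0 := hb
    change augMap P H (a + b) = 0
    rw [map_add, ha', hb', add_zero]
  neg_mem' := by
    intro a ha
    have ha' : augMap P H a = 0 := ha
    change augMap P H (-a) = 0
    rw [map_neg, ha', neg_zero]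
  mul_mem' := by
    intro a b ha _
    have ha' : augMap P H a = 0 := ha
    change augMap P H (a * b) = 0
    rw [map_mul, ha', zero_mul]

end Pool.Agent.Helper33.Aug
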