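import Mathlib

/-!
# Characteristic determinants in a group algebra, and the elimination lemma
-/

open Matrix

namespace Pool.Agent.Helper33.Aug

section det

variable {P A T : Type*} [Field P] [AddCommGroup A]

/-- The character `[a]` in the group algebra `P[A]`. -/
noncomputable def ch (P : Type*) {A : Type*} [Field P] [AddCommGroup A] (a : A) :
    AddMonoidAlgebra P A := AddMonoidAlgebra.single a 1

lemma ch_mul_coeff (a : A) (D : AddMonoidAlgebra P A) (x : A) :
    (ch P a * D).coeff (a + x) = D.coeff x := by
  simp [ch]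

lemma ch_mul_coeff' (a : A) (D : AddMonoidAlgebra P A) (x : A) :
    (ch P a * D).coeff x = D.coeff (x - a) := by
  have h := ch_mul_coeff a D (x - a)
  rwa [add_sub_cancel] at h

/-- For `D ≠ 0` and finitely many characters whose differences take every value only finitely
often there are parameters with `D * det (χ j (t i)) ≠ 0`. -/
theorem exists_det [Infinite T] : ∀ (k : ℕ) (χ : Fin k → T → A)
    (_ : ∀ i j, i ≠ j → ∀ a : A, {t | χ i t - χ j t = a}.Finite)
    (D : AddMonoidAlgebra P A) (_ : D ≠ 0),
    ∃ t : Fin k → T, D * (Matrix.of fun i j => ch P (χ j (t i))).det ≠ 0 := by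
  classical
  intro k
  induction k with
  | zero =>
    intro χ _ D hD
    exact ⟨Fin.elim0, by simpa using hD⟩
  | succ k ih =>
    intro χ hχ D hD
    obtain ⟨t, ht⟩ := ih (fun j => χ j.succ)
      (fun i j hij a => hχ i.succ j.succ (fun h => hij (Fin.succ_injective _ h)) a) D hD
    -- the minors of the first row
    let m : Fin (k + 1) → AddMonoidAlgebra P A := fun j =>
      D * ((-1) ^ (j : ℕ) * (Matrix.of fun (i : Fin k) (l : Fin k) =>
        ch P (χ (j.succAbove l) (t i))).det)
    have hm0 : m 0 ≠ 0 := by
      simpa [m] using ht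
    -- a point in the support of m 0
    obtain ⟨s0, hs0⟩ : ∃ s0, (m 0).coeff s0 ≠ 0 := by
      by_contra hcon
      push Not at hcon
      exact hm0 (by ext s; simpa using hcon s)
    -- the forbidden parameters
    let bad : Set T := ⋃ j ∈ (Finset.univ : Finset (Fin k)),
      ⋃ s ∈ (m j.succ).coeff.support, {u | χ 0 u - χ j.succ u = s - s0}
    have hbad : bad.Finite := by
      refine Set.Finite.biUnion (Finset.finite_toSet _) fun j _ => ?_
      refine Set.Finite.biUnion (Finset.finite_toSet _) fun s _ => ?_
      exact hχ _ _ (Fin.succ_ne_zero j).symm _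
    obtain ⟨u, hu⟩ := hbad.exists_notMem
    refine ⟨Fin.cons u t, ?_⟩
    have hdet : D * (Matrix.of fun i j => ch P (χ j ((Fin.cons u t : Fin (k + 1) → T) i))).det =
        ∑ j, ch P (χ j u) * m j := by
      rw [Matrix.det_succ_row_zero, Finset.mul_sum]
      refine Finset.sum_congr rfl fun j _ => ?_
      simp only [m, Matrix.of_apply, Fin.cons_zero]
      have : (Matrix.of fun i j => ch P (χ j ((Fin.cons u t : Fin (k + 1) → T) i))).submatrix
          Fin.succ j.succAbove = Matrix.of fun (i : Fin k) (l : Fin k) =>
            ch P (χ (j.succAbove l) (t i)) := by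
        ext i l
        simp
      rw [this]
      ring
    rw [hdet]
    intro h0
    have h1 := congrArg (fun f => f.coeff (χ 0 u + s0)) h0
    simp only [AddMonoidAlgebra.coeff_sum, Finsupp.coe_finsetSum, Finset.sum_apply,
      AddMonoidAlgebra.coeff_zero, Finsupp.coe_zero, Pi.zero_apply] at h1
    rw [Fin.sum_univ_succ, ch_mul_coeff] at h1
    rw [Finset.sum_eq_zero, add_zero] at h1
    · exact hs0 h1
    · intro j _
      rw [ch_mul_coeff']
      by_contra hne
      apply hu
      simp only [bad, Set.mem_iUnion]
      refine ⟨j, Finset.mem_univ j, χ 0 u + s0 - χ j.succ u, Finsupp.mem_support_iff.2 hne, ?_⟩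
      simp only [Set.mem_ofPred_eq]
      abel

/-- The elimination lemma: if `∑ j, [χ j t] x j = 0` for all `t`, where the differences of the
characters take every value only finitely often, then a nonzero element of the group algebra
kills every `x j`. -/
theorem elim [Infinite T] {J V : Type*} [Fintype J] [AddCommGroup V] [Module P V]
    (Ψ : AddMonoidAlgebra P A →ₐ[P] Module.End P V) (χ : J → T → A)
    (hχ : ∀ i j, i ≠ j → ∀ a : A, {t | χ i t - χ j t = a}.Finite) (x : J → V)
    (h : ∀ t, ∑ j, Ψ (ch P (χ j t)) (x j) = 0) :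
    ∃ θ : AddMonoidAlgebra P A, θ ≠ 0 ∧ ∀ j, Ψ θ (x j) = 0 := by
  classical
  let e := (Fintype.equivFin J).symm
  obtain ⟨t, ht⟩ := exists_det (P := P) (Fintype.card J) (fun j => χ (e j))
    (fun i j hij a => hχ _ _ (fun h => hij (e.injective h)) a) 1 one_ne_zero
  rw [one_mul] at ht
  set M : Matrix (Fin (Fintype.card J)) (Fin (Fintype.card J)) (AddMonoidAlgebra P A) :=
    Matrix.of fun i j => ch P (χ (e j) (t i)) with hM
  refine ⟨M.det, ht, ?_⟩
  have key : ∀ l, Ψ M.det (x (e l)) = 0 := by
    intro l
    have h1 : ∀ i, ∑ j, Ψ (M i j) (x (e j)) = 0 := by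
      intro i
      have := h (t i)
      rw [← e.sum_comp] at this
      simpa [hM] using this
    have h2 : ∑ i, Ψ (M.adjugate l i) (∑ j, Ψ (M i j) (x (e j))) = 0 := by
      simp [h1]
    have h3 : ∑ i, Ψ (M.adjugate l i) (∑ j, Ψ (M i j) (x (e j))) =
        ∑ j, Ψ ((M.adjugate * M) l j) (x (e j)) := by
      simp only [map_sum, Matrix.mul_apply, LinearMap.sum_apply]
      rw [Finset.sum_comm]
      refine Finset.sum_congr rfl fun j _ => Finset.sum_congr rfl fun i _ => ?_
      rw [map_mul, Module.End.mul_apply]
    rw [h3, Matrix.adjugate_mul] at h2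
    rw [Finset.sum_eq_single l] at h2
    · simpa using h2
    · intro j _ hj
      simp [Matrix.smul_apply, Matrix.one_apply_ne' hj]
    · simp
  intro j
  simpa using key (e.symm j)

end det

end Pool.Agent.Helper33.Aug
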