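import Pool.Agent.Helper33.Aug.PSL

/-!
# `A(P[PSL_n(F)])` is not simple if `char P = char F`
-/

open Matrix TensorProduct

namespace Pool.Agent.Helper33.Aug

/-- Two fields of the same characteristic map to a common nontrivial commutative ring. -/
theorem exists_common (P F : Type*) [Field P] [Field F] (h : ringChar P = ringChar F) :
    ∃ (K : Type (max u_1 u_2)) (_ : CommRing K) (_ : Nontrivial K) (_ : P →+* K) (_ : F →+* K),
      True := by
  by_cases hp : ringChar P = 0
  · have h1 : CharP P 0 := by rw [← hp]; exact ringChar.charP P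
    have h2 : CharP F 0 := by rw [← hp, h]; exact ringChar.charP F
    have h3 : CharZero P := CharP.charP_to_charZero P
    have h4 : CharZero F := CharP.charP_to_charZero F
    have : Nontrivial (P ⊗[ℚ] F) :=
      Algebra.TensorProduct.nontrivial_of_algebraMap_injective_of_isDomain ℚ P F
        (RingHom.injective _) (RingHom.injective _)
    exact ⟨P ⊗[ℚ] F, inferInstance, this, Algebra.TensorProduct.includeLeftRingHom,
      (Algebra.TensorProduct.includeRight : F →ₐ[ℚ] P ⊗[ℚ] F).toRingHom, trivial⟩
  · have hprime : (ringChar P).Prime := (CharP.char_is_prime_or_zero P _).resolve_right hp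
    have : Fact (ringChar P).Prime := ⟨hprime⟩
    have h1 : CharP P (ringChar P) := ringChar.charP P
    have h2 : CharP F (ringChar P) := by rw [h]; exact ringChar.charP F
    let := ZMod.algebra P (ringChar P)
    let := ZMod.algebra F (ringChar P)
    have : Nontrivial (P ⊗[ZMod (ringChar P)] F) :=
      Algebra.TensorProduct.nontrivial_of_algebraMap_injective_of_isDomain _ P F
        (RingHom.injective _) (RingHom.injective _)
    exact ⟨P ⊗[ZMod (ringChar P)] F, inferInstance, this,
      Algebra.TensorProduct.includeLeftRingHom,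
      (Algebra.TensorProduct.includeRight : F →ₐ[ZMod (ringChar P)] _).toRingHom, trivial⟩

section

variable {F ι K P : Type*} [Field F] [Fintype ι] [DecidableEq ι] [CommRing K] [Field P]
  [Algebra P K] (s : F →+* K)

/-- The matrix over `K`. -/
def mk' (s : F →+* K) : SpecialLinearGroup ι F →* Matrix ι ι K :=
  (RingHom.mapMatrix s : Matrix ι ι F →+* Matrix ι ι K).toMonoidHom.comp mt

lemma mk'_apply (g : SpecialLinearGroup ι F) : mk' s g = (mt g).map s := rfl

/-- Conjugation on matrices over `K`, as a map on `SL`. -/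
noncomputable def adSL (P : Type*) [Field P] [Algebra P K] (s : F →+* K) :
    SpecialLinearGroup ι F →* Module.End P (Matrix ι ι K) where
  toFun g := LinearMap.mulLeft P (mk' s g) ∘ₗ LinearMap.mulRight P (mk' s g⁻¹)
  map_one' := by
    apply LinearMap.ext
    intro N
    simp
  map_mul' g h := by
    apply LinearMap.ext
    intro N
    simp [mul_assoc]

lemma adSL_apply (g : SpecialLinearGroup ι F) (N : Matrix ι ι K) :
    adSL P s g N = mk' s g * N * mk' s g⁻¹ := by
  simp [adSL, mul_assoc]

lemma adSL_center (g : SpecialLinearGroup ι F)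
    (hg : g ∈ Subgroup.center (SpecialLinearGroup ι F)) : adSL P s g = 1 := by
  apply LinearMap.ext
  intro N
  obtain ⟨r, _, hr⟩ := Matrix.SpecialLinearGroup.mem_center_iff.1 hg
  have h1 : mk' s g = Matrix.scalar ι (s r) := by
    rw [mk'_apply]
    have : mt g = Matrix.scalar ι r := hr.symm
    rw [this]
    ext i j
    simp [Matrix.diagonal_apply]
    split_ifs <;> simp
  have h2 : mk' s g * mk' s g⁻¹ = 1 := by rw [← map_mul, mul_inv_cancel, map_one]
  rw [adSL_apply, h1, (Matrix.scalar_commute (s r) (fun _ => Commute.all _ _) N).eq, ← h1,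
    mul_assoc, h2, mul_one]
  rfl

/-- Conjugation on matrices over `K`, as a map on `PSL`. -/
noncomputable def adPSL (P : Type*) [Field P] [Algebra P K] (s : F →+* K) :
    ProjectiveSpecialLinearGroup ι F →* Module.End P (Matrix ι ι K) :=
  QuotientGroup.lift _ (adSL P s) (fun g hg => adSL_center s g hg)

lemma adPSL_pr (g : SpecialLinearGroup ι F) : adPSL P s (pr g) = adSL P s g := rfl

/-- Its linear extension to the group ring. -/
noncomputable def AdPSL (P : Type*) [Field P] [Algebra P K] (s : F →+* K) :
    MonoidAlgebra P (ProjectiveSpecialLinearGroup ι F) →ₐ[P] Module.End P (Matrix ι ι K) :=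
  MonoidAlgebra.lift P _ _ (adPSL P s)

lemma AdPSL_el (g : SpecialLinearGroup ι F) : AdPSL P s (el P (pr g)) = adSL P s g := by
  rw [AdPSL, el, MonoidAlgebra.lift_single, one_smul, adPSL_pr]

lemma mk'_trans {i j : ι} (hij : i ≠ j) (c : F) :
    mk' s (SpecialLinearGroup.transvection hij c) = 1 + s c • Matrix.single i j (1 : K) := by
  rw [mk'_apply]
  change (Matrix.transvection i j c).map s = _
  ext k l
  simp [Matrix.transvection, Matrix.single_apply, Matrix.one_apply]
  split_ifs <;> simp

lemma ad_trans {i j : ι} (hij : i ≠ j) (c : F) (N : Matrix ι ι K) :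
    adSL P s (SpecialLinearGroup.transvection hij c) N - N =
      s c • (Matrix.single i j (1 : K) * N - N * Matrix.single i j (1 : K)) -
        (s c * s c) • (Matrix.single i j (1 : K) * N * Matrix.single i j (1 : K)) := by
  rw [adSL_apply, SpecialLinearGroup.transvection_inv, mk'_trans, mk'_trans, map_neg]
  simp only [add_mul, mul_add, one_mul, mul_one, neg_smul, mul_neg, smul_mul_assoc, mul_smul_comm]
  module

lemma single_sq {i j : ι} (hij : i ≠ j) :
    Matrix.single i j (1 : K) * Matrix.single i j (1 : K) = 0 :=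
  Matrix.single_mul_single_of_ne _ _ _ _ hij.symm _

/-- The product of three elements `Ad t - 1` with `t` in one root subgroup is zero. -/
lemma ad_triple {i j : ι} (hij : i ≠ j) (a b c : F) (N : Matrix ι ι K) :
    (adSL P s (SpecialLinearGroup.transvection hij a) - 1)
      ((adSL P s (SpecialLinearGroup.transvection hij b) - 1)
        ((adSL P s (SpecialLinearGroup.transvection hij c) - 1) N)) = 0 := by
  set E := Matrix.single i j (1 : K) with hE
  have hE2 : E * E = 0 := single_sq hij
  have h1 : ∀ (a : F) (N : Matrix ι ι K),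
      (adSL P s (SpecialLinearGroup.transvection hij a) - 1) N =
      s a • (E * N - N * E) - (s a * s a) • (E * N * E) := fun a N => by
    rw [LinearMap.sub_apply, Module.End.one_apply]
    exact ad_trans s hij a N
  rw [h1 c]
  set N1 := s c • (E * N - N * E) - (s c * s c) • (E * N * E) with hN1
  have e1 : E * N1 = -(s c • (E * N * E)) := by
    rw [hN1, mul_sub, mul_smul_comm, mul_smul_comm, mul_sub, ← mul_assoc, hE2, zero_mul,
      ← mul_assoc, ← mul_assoc, ← mul_assoc, hE2, zero_mul, zero_mul, smul_zero, sub_zero, zero_sub,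
      smul_neg]
  have e2 : N1 * E = s c • (E * N * E) := by
    rw [hN1, sub_mul, smul_mul_assoc, smul_mul_assoc, sub_mul, mul_assoc N, hE2, mul_zero,
      sub_zero, mul_assoc (E * N), hE2, mul_zero, smul_zero, sub_zero]
  have e3 : E * N1 * E = 0 := by
    rw [e1, neg_mul, smul_mul_assoc, mul_assoc (E * N), hE2, mul_zero, smul_zero, neg_zero]
  rw [h1 b, e3, e1, e2, smul_zero, sub_zero]
  have e4 : -(s c • (E * N * E)) - s c • (E * N * E) = (-2 * s c) • (E * N * E) := by module
  rw [e4, smul_smul, h1 a]
  have e5 : ∀ k : K, E * (k • (E * N * E)) = 0 := fun k => by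
    rw [mul_smul_comm, ← mul_assoc, ← mul_assoc, hE2, zero_mul, zero_mul, smul_zero]
  have e6 : ∀ k : K, (k • (E * N * E)) * E = 0 := fun k => by
    rw [smul_mul_assoc, mul_assoc (E * N), hE2, mul_zero, smul_zero]
  rw [e5, e6, zero_mul, sub_zero, smul_zero, smul_zero, sub_zero]

end

theorem psl_not_simple {F ι P : Type*} [Field F] [Infinite F] [Fintype ι] [DecidableEq ι]
    [Nontrivial ι] [Field P] (h : ringChar P = ringChar F) :
    ¬ SimpleRng (augRing P (ProjectiveSpecialLinearGroup ι F)) := by
  classical
  obtain ⟨K, _, _, t, s, _⟩ := exists_common P F h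
  let : Algebra P K := t.toAlgebra
  obtain ⟨i, j, hij⟩ := exists_pair_ne ι
  rintro ⟨_, hall⟩
  let Φ : MonoidAlgebra P (ProjectiveSpecialLinearGroup ι F) →ₐ[P]
    Module.End P (Matrix ι ι K) := AdPSL P s
  let I : AddSubgroup (augRing P (ProjectiveSpecialLinearGroup ι F)) :=
    { carrier := {x | Φ x.1 = 0}
      zero_mem' := map_zero Φ
      add_mem' := by
        intro a b ha hb
        have ha' : Φ a.1 = 0 := ha
        have hb' : Φ b.1 = 0 := hb
        change Φ (a.1 + b.1) = 0
        rw [map_add, ha', hb', add_zero]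
      neg_mem' := by
        intro a ha
        have ha' : Φ a.1 = 0 := ha
        change Φ (-a.1) = 0
        rw [map_neg, ha', neg_zero] }
  have hI : ∀ a x : augRing P (ProjectiveSpecialLinearGroup ι F), x ∈ I →
      a * x ∈ I ∧ x * a ∈ I := by
    intro a x hx
    have hx' : Φ x.1 = 0 := hx
    constructor
    · change Φ (a.1 * x.1) = 0
      rw [map_mul, hx', mul_zero]
    · change Φ (x.1 * a.1) = 0
      rw [map_mul, hx', zero_mul]
  rcases hall I hI with h0 | h0
  · -- the ideal is not zero
    have hS := infinite_image (F := F) hij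
    obtain ⟨_, ⟨c, rfl⟩, hc⟩ := exists_sub_one_mul_ne (P := P) hS one_ne_zero
    obtain ⟨_, ⟨b, rfl⟩, hb⟩ := exists_sub_one_mul_ne (P := P) hS hc
    obtain ⟨_, ⟨a, rfl⟩, ha⟩ := exists_sub_one_mul_ne (P := P) hS hb
    rw [mul_one] at ha
    set x : MonoidAlgebra P (ProjectiveSpecialLinearGroup ι F) :=
      (el P (pr (SpecialLinearGroup.transvection hij a)) - 1) *
      ((el P (pr (SpecialLinearGroup.transvection hij b)) - 1) *
      (el P (pr (SpecialLinearGroup.transvection hij c)) - 1)) with hx
    have hxA : x ∈ augRing P (ProjectiveSpecialLinearGroup ι F) :=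
      mul_mem_aug_left _ (mul_mem_aug_left _ (el_sub_one_mem _))
    have hxI : (⟨x, hxA⟩ : augRing P (ProjectiveSpecialLinearGroup ι F)) ∈ I := by
      change AdPSL P s x = 0
      rw [hx]
      simp only [map_mul, map_sub, map_one, AdPSL_el]
      apply LinearMap.ext
      intro N
      simp only [Module.End.mul_apply]
      exact ad_triple s hij a b c N
    rw [h0] at hxI
    exact ha (congrArg Subtype.val (AddSubgroup.mem_bot.1 hxI))
  · -- the ideal is not everything
    have h1 : (⟨el P (pr (SpecialLinearGroup.transvection hij (1 : F))) - 1,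
        el_sub_one_mem _⟩ : augRing P (ProjectiveSpecialLinearGroup ι F)) ∈ I := by
      rw [h0]; exact AddSubgroup.mem_top _
    have h2 : AdPSL P s (el P (pr (SpecialLinearGroup.transvection hij (1 : F))) - 1) = 0 := h1
    rw [map_sub, map_one, AdPSL_el] at h2
    have h3 := LinearMap.congr_fun h2 (Matrix.single j i (1 : K))
    rw [LinearMap.sub_apply, Module.End.one_apply, ad_trans, LinearMap.zero_apply] at h3
    have h4 := congrFun (congrFun h3 i) i
    simp [hij.symm] at h4

end Pool.Agent.Helper33.Aug
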