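import Pool.Agent.Helper33.Aug.Local

/-!
# The finitary special linear group of an infinite dimensional space
-/

open Matrix

namespace Pool.Agent.Helper33.Aug

/-- The group generated by all transvections of `V`. -/
abbrev FSL (F V : Type*) [Field F] [AddCommGroup V] [Module F V] : Subgroup (V ≃ₗ[F] V) :=
  Subgroup.closure (LinearEquiv.transvections F V)

variable {F V : Type*} [Field F] [AddCommGroup V] [Module F V]

section ext

variable {n : ℕ} (B : (Fin n → F) →ₗ[F] V) (C : V →ₗ[F] (Fin n → F)) (h : ∀ x, C (B x) = x)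

/-- `1 + B (g - 1) C`, as an endomorphism. -/
noncomputable def extEnd (h : ∀ x, C (B x) = x) :
    SpecialLinearGroup (Fin n) F →* Module.End F V where
  toFun g := 1 + B ∘ₗ (Matrix.toLin' (mt g - 1)) ∘ₗ C
  map_one' := by
    apply LinearMap.ext
    intro v
    simp
  map_mul' g g' := by
    apply LinearMap.ext
    intro v
    change v + B ((mt (g * g') - 1) *ᵥ C v) = (v + B ((mt g' - 1) *ᵥ C v)) +
      B ((mt g - 1) *ᵥ C (v + B ((mt g' - 1) *ᵥ C v)))
    rw [map_mul mt, C.map_add, h, mulVec_add, sub_mulVec (mt g * mt g'), ← mulVec_mulVec,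
      sub_mulVec (mt g'), sub_mulVec (mt g), one_mulVec, sub_mulVec (mt g), one_mulVec, mulVec_sub]
    simp only [map_add, map_sub]
    abel

/-- The group of `n × n` matrices of determinant one acting on `V`. -/
noncomputable def ext : SpecialLinearGroup (Fin n) F →* (V ≃ₗ[F] V) :=
  (LinearMap.GeneralLinearGroup.generalLinearEquiv F V).toMonoidHom.comp
    (extEnd B C h).toHomUnits

lemma ext_apply (g : SpecialLinearGroup (Fin n) F) (v : V) :
    ext B C h g v = v + B ((mt g - 1) *ᵥ C v) := rfl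

/-- The linear form on `V` given by a row vector. -/
def rowForm (y : Fin n → F) : Module.Dual F V := (dl y).comp C

lemma rowForm_apply (y : Fin n → F) (v : V) : rowForm C y v = y ⬝ᵥ C v := rfl

include h in
lemma rowForm_B {x y : Fin n → F} (hxy : y ⬝ᵥ x = 0) : rowForm C y (B x) = 0 := by
  rw [rowForm_apply, h, hxy]

lemma ext_T {x y : Fin n → F} (hxy : y ⬝ᵥ x = 0) :
    ext B C h (T x y) = LinearEquiv.transvection (rowForm_B B C h hxy) := by
  apply LinearEquiv.ext
  intro v
  rw [ext_apply, LinearEquiv.transvection.apply, coe_T hxy, add_sub_cancel_left, vecMulVec_mulVec,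
    op_smul_eq_smul, map_smul, rowForm_apply]

lemma ext_mem [NeZero n] (hn : 2 ≤ n) (g : SpecialLinearGroup (Fin n) F) :
    ext B C h g ∈ FSL F V := by
  have : Nontrivial (Fin n) := Fin.nontrivial_iff_two_le.2 hn
  have ht : ∀ (i j : Fin n) (hij : i ≠ j) (a : F),
      ext B C h (SpecialLinearGroup.transvection hij a) ∈ FSL F V := by
    intro i j hij a
    rw [transvection_eq, ext_T B C h (elem_orth hij a)]
    exact Subgroup.subset_closure (LinearEquiv.mem_transvections _)
  refine SpecialLinearGroup.diagonal_transvection_induction'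
    (fun g => ext B C h g ∈ FSL F V) g ?_ ?_ ?_
  · intro i j hij c hc
    rw [diag2n_eq]
    simp only [map_mul]
    exact mul_mem (mul_mem (mul_mem (mul_mem (mul_mem (ht _ _ _ _) (ht _ _ _ _)) (ht _ _ _ _))
      (ht _ _ _ _)) (ht _ _ _ _)) (ht _ _ _ _)
  · intro i j hij a
    exact ht i j hij a
  · intro A A' hA hA'
    rw [map_mul]
    exact mul_mem hA hA'

end ext

/-- Finite sets of vectors and of linear forms live on a finite dimensional direct summand. -/
theorem exists_system (hV : ¬ FiniteDimensional F V) (vs : Finset V)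
    (fs : Finset (Module.Dual F V)) :
    ∃ (n : ℕ) (B : (Fin n → F) →ₗ[F] V) (C : V →ₗ[F] (Fin n → F)), 3 ≤ n ∧
      (∀ x, C (B x) = x) ∧ (∀ v ∈ vs, ∃ x, B x = v) ∧
      (∀ f ∈ fs, ∃ y : Fin n → F, f = rowForm C y) ∧
      ∃ u : Fin n → F, B u ≠ 0 ∧ ∀ f ∈ fs, f (B u) = 0 := by
  classical
  let L : V →ₗ[F] (fs → F) := LinearMap.pi fun f => (f : Module.Dual F V)
  set K := LinearMap.ker L with hK
  obtain ⟨C0, hC0⟩ := Submodule.exists_isCompl K
  have hC0f : FiniteDimensional F C0 := by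
    apply FiniteDimensional.of_injective (L.comp C0.subtype)
    rw [← LinearMap.ker_eq_bot, LinearMap.ker_comp, eq_bot_iff]
    intro x hx
    have h1 : (x : V) ∈ K := hx
    have h2 : (x : V) ∈ K ⊓ C0 := ⟨h1, x.2⟩
    rw [hC0.inf_eq_bot] at h2
    exact Subtype.ext h2
  have hKne : K ≠ ⊥ := by
    intro h0
    apply hV
    have h1 : C0 = ⊤ := by
      have := hC0.sup_eq_top
      rwa [h0, bot_sup_eq] at this
    exact FiniteDimensional.of_surjective (C0.subtype) (by
      rw [← LinearMap.range_eq_top, Submodule.range_subtype, h1])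
  obtain ⟨u0, hu0, hu0ne⟩ := Submodule.exists_mem_ne_zero_of_ne_bot hKne
  obtain ⟨s3, hs3, hs3'⟩ : ∃ s : Finset V, s.card = 3 ∧ LinearIndependent F ((↑) : s → V) := by
    apply le_rank_iff_exists_linearIndependent_finset.1
    have h1 : ¬ Module.rank F V < Cardinal.aleph0 := fun h => hV (Module.rank_lt_aleph0_iff.1 h)
    exact (Cardinal.natCast_lt_aleph0.le).trans (not_lt.1 h1)
  -- the finite dimensional summand
  set W : Submodule F V := Submodule.span F ((vs : Set V) ∪ {u0} ∪ (s3 : Set V)) ⊔ C0 with hW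
  have hvsW : ∀ v ∈ vs, v ∈ W := fun v hv =>
    Submodule.mem_sup_left (Submodule.subset_span (Or.inl (Or.inl hv)))
  have hu0W : u0 ∈ W :=
    Submodule.mem_sup_left (Submodule.subset_span (Or.inl (Or.inr rfl)))
  have hs3W : ∀ v ∈ s3, v ∈ W := fun v hv =>
    Submodule.mem_sup_left (Submodule.subset_span (Or.inr hv))
  have hspan : FiniteDimensional F (Submodule.span F ((vs : Set V) ∪ {u0} ∪ (s3 : Set V))) :=
    FiniteDimensional.span_of_finite F
      ((vs.finite_toSet.union (Set.finite_singleton u0)).union s3.finite_toSet)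
  have hWf : FiniteDimensional F W := Submodule.finiteDimensional_sup _ _
  have hdim : 3 ≤ Module.finrank F W := by
    have h1 : Submodule.span F (s3 : Set V) ≤ W := Submodule.span_le.2 fun v hv => hs3W v hv
    have h2 := Submodule.finrank_mono h1
    have h3 : Module.finrank F (Submodule.span F (s3 : Set V)) = s3.card :=
      finrank_span_finset_eq_card hs3'
    rw [h3, hs3] at h2
    exact h2
  obtain ⟨U', hU'⟩ := Submodule.exists_isCompl (W.comap K.subtype)
  set U : Submodule F V := U'.map K.subtype with hU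
  have hUK : U ≤ K := by
    rw [hU]
    rintro _ ⟨x, _, rfl⟩
    exact x.2
  have hWU : IsCompl W U := by
    constructor
    · rw [Submodule.disjoint_def]
      rintro x hxW ⟨x', hx', rfl⟩
      have h1 : x' ∈ W.comap K.subtype ⊓ U' := ⟨hxW, hx'⟩
      rw [hU'.inf_eq_bot] at h1
      have h2 : x' = 0 := h1
      rw [h2]; rfl
    · rw [codisjoint_iff, eq_top_iff]
      intro v _
      have hv : v ∈ K ⊔ C0 := by rw [hC0.sup_eq_top]; trivial
      obtain ⟨k, hk, c, hc, rfl⟩ := Submodule.mem_sup.1 hv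
      have hk' : (⟨k, hk⟩ : K) ∈ W.comap K.subtype ⊔ U' := by rw [hU'.sup_eq_top]; trivial
      obtain ⟨a, ha, b, hb, hab⟩ := Submodule.mem_sup.1 hk'
      have hk2 : k = (a : V) + (b : V) := by
        have := congrArg Subtype.val hab
        exact this.symm
      rw [hk2]
      refine Submodule.mem_sup.2 ⟨(a : V) + c, W.add_mem ha (Submodule.mem_sup_right hc), b,
        ⟨b, hb, rfl⟩, by abel⟩
  let π := Submodule.projectionOnto W U hWU
  let b := Module.finBasis F W
  let B : (Fin (Module.finrank F W) → F) →ₗ[F] V := W.subtype ∘ₗ b.equivFun.symm.toLinearMap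
  let C : V →ₗ[F] (Fin (Module.finrank F W) → F) := b.equivFun.toLinearMap ∘ₗ π
  have hπ : ∀ x : W, π (x : V) = x := fun x => Submodule.projectionOnto_apply_left hWU x
  have hBC : ∀ v, B (C v) = (π v : V) := by
    intro v
    simp [B, C]
  have hπU : ∀ v, v - (π v : V) ∈ U := by
    intro v
    have hv : v ∈ W ⊔ U := by rw [hWU.sup_eq_top]; trivial
    obtain ⟨x, hx, y, hy, rfl⟩ := Submodule.mem_sup.1 hv
    have h1 : π x = ⟨x, hx⟩ := hπ ⟨x, hx⟩
    have h2 : π y = 0 := (Submodule.projectionOnto_apply_eq_zero_iff hWU).2 hy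
    rw [map_add, h1, h2, add_zero]
    simpa using hy
  refine ⟨Module.finrank F W, B, C, hdim, ?_, ?_, ?_, b.equivFun ⟨u0, hu0W⟩, ?_, ?_⟩
  · intro x
    simp only [B, C, LinearMap.comp_apply, LinearEquiv.coe_coe, Submodule.subtype_apply, hπ,
      LinearEquiv.apply_symm_apply]
  · intro v hv
    refine ⟨b.equivFun ⟨v, hvsW v hv⟩, ?_⟩
    simp [B]
  · intro f hf
    refine ⟨fun i => f (b i), ?_⟩
    apply LinearMap.ext
    intro v
    have h1 : f v = f (π v : V) := by
      have h2 : v - (π v : V) ∈ K := hUK (hπU v)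
      have h3 : L (v - (π v : V)) = 0 := h2
      have h4 : f (v - (π v : V)) = 0 := congrFun h3 ⟨f, hf⟩
      rw [map_sub] at h4
      exact sub_eq_zero.1 h4
    rw [h1, rowForm_apply]
    have h5 : (π v : V) = ∑ i, (C v) i • (b i : V) := by
      have h6 := b.sum_equivFun (π v)
      have h7 := congrArg W.subtype h6
      rw [map_sum] at h7
      exact h7.symm
    rw [h5, map_sum, dotProduct]
    refine Finset.sum_congr rfl fun i _ => ?_
    rw [map_smul, smul_eq_mul, mul_comm]
  · simp only [B, LinearMap.comp_apply, LinearEquiv.coe_coe, LinearEquiv.symm_apply_apply]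
    exact hu0ne
  · intro f hf
    simp only [B, LinearMap.comp_apply, LinearEquiv.coe_coe, LinearEquiv.symm_apply_apply]
    have h3 : L u0 = 0 := hu0
    exact congrFun h3 ⟨f, hf⟩

/-- Every element of `FSL` is visible on every sufficiently large finite dimensional summand. -/
lemma exists_support {g : V ≃ₗ[F] V} (hg : g ∈ FSL F V) :
    ∃ (vs : Finset V) (fs : Finset (Module.Dual F V)),
      (∀ v, (∀ f ∈ fs, f v = 0) → g v = v) ∧
      ∀ (n : ℕ) (B : (Fin n → F) →ₗ[F] V) (C : V →ₗ[F] (Fin n → F)) (h : ∀ x, C (B x) = x),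
        (∀ v ∈ vs, ∃ x, B x = v) → (∀ f ∈ fs, ∃ y : Fin n → F, f = rowForm C y) →
        ∃ g', ext B C h g' = g := by
  classical
  refine Subgroup.closure_induction (p := fun g _ => ∃ (vs : Finset V)
    (fs : Finset (Module.Dual F V)), (∀ v, (∀ f ∈ fs, f v = 0) → g v = v) ∧
      ∀ (n : ℕ) (B : (Fin n → F) →ₗ[F] V) (C : V →ₗ[F] (Fin n → F)) (h : ∀ x, C (B x) = x),
        (∀ v ∈ vs, ∃ x, B x = v) → (∀ f ∈ fs, ∃ y : Fin n → F, f = rowForm C y) →
        ∃ g', ext B C h g' = g) ?_ ?_ ?_ ?_ hg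
  · rintro _ ⟨f, v, hfv, rfl⟩
    refine ⟨{v}, {f}, ?_, ?_⟩
    · intro u hu
      rw [LinearEquiv.transvection.apply, hu f (Finset.mem_singleton_self f), zero_smul, add_zero]
    · intro n B C h h1 h2
      obtain ⟨x, rfl⟩ := h1 v (Finset.mem_singleton_self v)
      obtain ⟨y, rfl⟩ := h2 f (Finset.mem_singleton_self f)
      have hxy : y ⬝ᵥ x = 0 := by
        rw [rowForm_apply, h] at hfv
        exact hfv
      exact ⟨T x y, ext_T B C h hxy⟩
  · exact ⟨∅, ∅, fun v _ => rfl, fun n B C h _ _ => ⟨1, map_one _⟩⟩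
  · rintro g₁ g₂ _ _ ⟨vs₁, fs₁, h₁, k₁⟩ ⟨vs₂, fs₂, h₂, k₂⟩
    refine ⟨vs₁ ∪ vs₂, fs₁ ∪ fs₂, ?_, ?_⟩
    · intro v hv
      rw [LinearEquiv.mul_apply, h₂ v (fun f hf => hv f (Finset.mem_union_right _ hf)),
        h₁ v (fun f hf => hv f (Finset.mem_union_left _ hf))]
    · intro n B C h h1 h2
      obtain ⟨g₁', rfl⟩ := k₁ n B C h (fun v hv => h1 v (Finset.mem_union_left _ hv))
        (fun f hf => h2 f (Finset.mem_union_left _ hf))
      obtain ⟨g₂', rfl⟩ := k₂ n B C h (fun v hv => h1 v (Finset.mem_union_right _ hv))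
        (fun f hf => h2 f (Finset.mem_union_right _ hf))
      exact ⟨g₁' * g₂', map_mul _ _ _⟩
  · rintro g _ ⟨vs, fs, h, k⟩
    refine ⟨vs, fs, ?_, ?_⟩
    · intro v hv
      have h1 : g v = v := h v hv
      calc g⁻¹ v = g⁻¹ (g v) := by rw [h1]
        _ = v := by rw [← LinearEquiv.mul_apply, inv_mul_cancel]; rfl
    · intro n B C h h1 h2
      obtain ⟨g', rfl⟩ := k n B C h h1 h2
      exact ⟨g'⁻¹, map_inv _ _⟩

/-- The `FSL`-valued version of `ext`. -/
noncomputable def extFSL {n : ℕ} [NeZero n] (hn : 2 ≤ n) (B : (Fin n → F) →ₗ[F] V)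
    (C : V →ₗ[F] (Fin n → F)) (h : ∀ x, C (B x) = x) :
    SpecialLinearGroup (Fin n) F →* FSL F V :=
  (ext B C h).codRestrict (FSL F V) (fun g => ext_mem B C h hn g)

theorem locSL_FSL.{u, v, w} {P : Type v} [Field P] {F : Type u} [Field F] [Infinite F] {V : Type w}
    [AddCommGroup V] [Module F V] (hV : ¬ FiniteDimensional F V)
    (hchar : ringChar P ≠ ringChar F) : LocSL.{u} P (FSL F V) := by
  classical
  intro S
  choose vs fs h1 h2 using fun g : FSL F V => exists_support g.2
  obtain ⟨n, B, C, hn, h, hv, hf, u, hu0, hu⟩ := exists_system hV (S.biUnion vs) (S.biUnion fs)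
  have : NeZero n := ⟨by omega⟩
  refine ⟨n, F, inferInstance, extFSL (by omega) B C h, hn, inferInstance, hchar, ?_, ?_⟩
  · intro s hs
    obtain ⟨g', hg'⟩ := h2 s n B C h (fun v hv' => hv v (Finset.mem_biUnion.2 ⟨s, hs, hv'⟩))
      (fun f hf' => hf f (Finset.mem_biUnion.2 ⟨s, hs, hf'⟩))
    exact ⟨g', Subtype.ext hg'⟩
  · intro s hs t ht z hz hst
    obtain ⟨r, _, hr⟩ := Matrix.SpecialLinearGroup.mem_center_iff.1 hz
    have hr' : mt z = Matrix.scalar (Fin n) r := hr.symm
    have hsu : (s : V ≃ₗ[F] V) (B u) = B u :=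
      h1 s _ (fun f hf' => hu f (Finset.mem_biUnion.2 ⟨s, hs, hf'⟩))
    have htu : (t : V ≃ₗ[F] V) (B u) = B u :=
      h1 t _ (fun f hf' => hu f (Finset.mem_biUnion.2 ⟨t, ht, hf'⟩))
    have hzu : ext B C h z (B u) = r • B u := by
      rw [ext_apply, h, hr', sub_mulVec, one_mulVec]
      have : (Matrix.scalar (Fin n) r) *ᵥ u = r • u := by
        ext i
        simp [Matrix.mulVec_diagonal]
      rw [this, map_sub, map_smul]
      abel
    have h3 : B u = r • B u := by
      have h4 : (t : V ≃ₗ[F] V) (B u) = (s : V ≃ₗ[F] V) (ext B C h z (B u)) := by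
        rw [hst]; rfl
      rw [htu, hzu, map_smul, hsu] at h4
      exact h4
    have hr1 : r = 1 := by
      have h5 : (1 - r) • B u = 0 := by rw [sub_smul, one_smul, ← h3, sub_self]
      rcases smul_eq_zero.1 h5 with h6 | h6
      · exact (sub_eq_zero.1 h6).symm
      · exact absurd h6 hu0
    have hz1 : z = 1 := by
      apply SL_ext
      rw [hr', hr1, map_one, map_one]
    rw [hst, hz1, map_one, mul_one]

end Pool.Agent.Helper33.Aug
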