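import Pool.Agent.Helper33.Aug.FSL
import Pool.Agent.Helper33.Aug.Equal

/-!
# `A(P[FSL(V)])` is simple if and only if `char P ≠ char F`
-/

open Matrix TensorProduct

namespace Pool.Agent.Helper33.Aug

variable {F V : Type*} [Field F] [AddCommGroup V] [Module F V]

lemma ext_injective {n : ℕ} (B : (Fin n → F) →ₗ[F] V) (C : V →ₗ[F] (Fin n → F))
    (h : ∀ x, C (B x) = x) : Function.Injective (ext B C h) := by
  intro g g' hgg'
  apply SL_ext_mulVec
  intro x
  have h1 := LinearEquiv.congr_fun hgg' (B x)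
  rw [ext_apply, ext_apply, h] at h1
  have h2 := congrArg C h1
  rw [map_add, map_add, h, h, h, sub_mulVec, sub_mulVec] at h2
  simpa using h2

/-- The infinite set of transvections used below. -/
lemma FSL_infinite_range [Infinite F] {n : ℕ} [NeZero n] (hn : 2 ≤ n) (B : (Fin n → F) →ₗ[F] V)
    (C : V →ₗ[F] (Fin n → F)) (h : ∀ x, C (B x) = x) {i j : Fin n} (hij : i ≠ j) :
    (Set.range fun c : F =>
      extFSL hn B C h (SpecialLinearGroup.transvection hij c)).Infinite := by
  apply Set.infinite_range_of_injective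
  intro c d hcd
  have h1 : ext B C h (SpecialLinearGroup.transvection hij c) =
    ext B C h (SpecialLinearGroup.transvection hij d) := congrArg Subtype.val hcd
  have h2 := ext_injective B C h h1
  have h3 : (mt (SpecialLinearGroup.transvection hij c) *ᵥ (Pi.single j 1)) i =
      (mt (SpecialLinearGroup.transvection hij d) *ᵥ (Pi.single j 1)) i := by rw [h2]
  rw [elem_mulVec, elem_mulVec] at h3
  simpa using h3

theorem FSL_infinite [Infinite F] (hV : ¬ FiniteDimensional F V) : Infinite (FSL F V) := by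
  classical
  obtain ⟨n, B, C, hn, h, _⟩ := exists_system hV ∅ ∅
  have : NeZero n := ⟨by omega⟩
  have hij : (⟨0, by omega⟩ : Fin n) ≠ ⟨1, by omega⟩ := by simp
  exact Set.infinite_univ_iff.1
    ((FSL_infinite_range (by omega) B C h hij).mono (Set.subset_univ _))

section

variable {P K : Type*} [Field P] [CommRing K] [Algebra F K] (t : P →+* K)

/-- The natural module of `FSL`, over `K`. -/
noncomputable def natFSL (K : Type*) [CommRing K] [Algebra F K] :
    FSL F V →* Module.End K (K ⊗[F] V) where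
  toFun g := LinearMap.baseChange K ((g : V ≃ₗ[F] V) : V →ₗ[F] V)
  map_one' := by
    apply LinearMap.ext
    intro x
    change LinearMap.baseChange K (LinearMap.id : V →ₗ[F] V) x = x
    rw [LinearMap.baseChange_id]
    rfl
  map_mul' g g' := by
    change LinearMap.baseChange K
      (((g : V ≃ₗ[F] V) : V →ₗ[F] V) ∘ₗ ((g' : V ≃ₗ[F] V) : V →ₗ[F] V)) = _
    rw [LinearMap.baseChange_comp]
    rfl

/-- Its extension to the group ring. -/
noncomputable def NatFSL (t : P →+* K) :
    MonoidAlgebra P (FSL F V) →+* Module.End K (K ⊗[F] V) :=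
  MonoidAlgebra.liftNCRingHom ((algebraMap K (Module.End K (K ⊗[F] V))).comp t)
    (natFSL (F := F) (V := V) K)
    (fun x y => Algebra.commutes (R := K) (A := Module.End K (K ⊗[F] V)) (t x) (natFSL K y))

lemma NatFSL_el (g : FSL F V) : NatFSL t (el P g) = natFSL K g := by
  change MonoidAlgebra.liftNC _ _ (MonoidAlgebra.single g 1) = _
  rw [MonoidAlgebra.liftNC_single]
  simp

end

theorem FSL_not_simple {P F V : Type*} [Field P] [Field F] [Infinite F] [AddCommGroup V]
    [Module F V] (hV : ¬ FiniteDimensional F V) (hchar : ringChar P = ringChar F) :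
    ¬ SimpleRng (augRing P (FSL F V)) := by
  classical
  obtain ⟨K, _, _, t, s, _⟩ := exists_common P F hchar
  let : Algebra F K := s.toAlgebra
  obtain ⟨n, B, C, hn, h, _⟩ := exists_system hV ∅ ∅
  have : NeZero n := ⟨by omega⟩
  have hn2 : 2 ≤ n := by omega
  set i : Fin n := ⟨0, by omega⟩ with hi
  set j : Fin n := ⟨1, by omega⟩ with hj
  have hij : i ≠ j := by simp [hi, hj]
  let Φ : MonoidAlgebra P (FSL F V) →+* Module.End K (K ⊗[F] V) := NatFSL t
  let tr : F → FSL F V := fun c => extFSL hn2 B C h (SpecialLinearGroup.transvection hij c)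
  have htr : ∀ c v, ((tr c : V ≃ₗ[F] V) v) = v + B (Pi.single i (c * C v j)) := by
    intro c v
    change ext B C h _ v = _
    rw [ext_apply, sub_mulVec, elem_mulVec, one_mulVec, add_sub_cancel_left]
  have hΦ : ∀ c : F, Φ (el P (tr c) - 1) = LinearMap.baseChange K
      (((tr c : V ≃ₗ[F] V) : V →ₗ[F] V) - LinearMap.id) := by
    intro c
    rw [map_sub, map_one]
    change NatFSL t (el P (tr c)) - 1 = _
    rw [NatFSL_el, LinearMap.baseChange_sub, LinearMap.baseChange_id]
    rfl
  rintro ⟨_, hall⟩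
  let I : AddSubgroup (augRing P (FSL F V)) :=
    { carrier := {x | Φ x.1 = 0}
      zero_mem' := map_zero Φ
      add_mem' := by
        intro a b ha hb
        have ha' : Φ a.1 = 0 := ha
        have hb' : Φ b.1 = 0 := hb
        change Φ (a.1 + b.1) = 0
        rw [map_add, ha', hb', add_zero]
      neg_mem' := by
        intro a ha
        have ha' : Φ a.1 = 0 := ha
        change Φ (-a.1) = 0
        simp [ha'] }
  have hI : ∀ a x : augRing P (FSL F V), x ∈ I → a * x ∈ I ∧ x * a ∈ I := by
    intro a x hx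
    have hx' : Φ x.1 = 0 := hx
    constructor
    · change Φ (a.1 * x.1) = 0
      rw [map_mul, hx', mul_zero]
    · change Φ (x.1 * a.1) = 0
      rw [map_mul, hx', zero_mul]
  rcases hall I hI with h0 | h0
  · have hS := FSL_infinite_range (F := F) hn2 B C h hij
    obtain ⟨_, ⟨b, rfl⟩, hb⟩ := exists_sub_one_mul_ne (P := P) hS one_ne_zero
    obtain ⟨_, ⟨a, rfl⟩, ha⟩ := exists_sub_one_mul_ne (P := P) hS hb
    rw [mul_one] at ha
    set x : MonoidAlgebra P (FSL F V) := (el P (tr a) - 1) * (el P (tr b) - 1) with hx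
    have hxA : x ∈ augRing P (FSL F V) := mul_mem_aug_left _ (el_sub_one_mem _)
    have hxI : (⟨x, hxA⟩ : augRing P (FSL F V)) ∈ I := by
      change Φ x = 0
      rw [hx, map_mul, hΦ, hΦ, Module.End.mul_eq_comp, ← LinearMap.baseChange_comp]
      have hz : (((tr a : V ≃ₗ[F] V) : V →ₗ[F] V) - LinearMap.id) ∘ₗ
          (((tr b : V ≃ₗ[F] V) : V →ₗ[F] V) - LinearMap.id) = 0 := by
        apply LinearMap.ext
        intro v
        change (tr a : V ≃ₗ[F] V) ((tr b : V ≃ₗ[F] V) v - v) - ((tr b : V ≃ₗ[F] V) v - v) = 0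
        rw [htr b v, add_sub_cancel_left, htr a, add_sub_cancel_left, h]
        rw [Pi.single_eq_of_ne hij.symm, mul_zero, Pi.single_zero, map_zero]
      rw [hz, LinearMap.baseChange_zero]
    rw [h0] at hxI
    exact ha (congrArg Subtype.val (AddSubgroup.mem_bot.1 hxI))
  · have h1 : (⟨el P (tr 1) - 1, el_sub_one_mem _⟩ : augRing P (FSL F V)) ∈ I := by
      rw [h0]; exact AddSubgroup.mem_top _
    have h2 : Φ (el P (tr 1) - 1) = 0 := h1
    rw [hΦ] at h2
    have h3 := LinearMap.congr_fun h2 ((1 : K) ⊗ₜ[F] B (Pi.single j 1))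
    rw [LinearMap.baseChange_tmul] at h3
    have h4 : ((((tr 1 : V ≃ₗ[F] V) : V →ₗ[F] V) - LinearMap.id : V →ₗ[F] V))
        (B (Pi.single j 1)) = B (Pi.single i 1) := by
      change (tr 1 : V ≃ₗ[F] V) (B (Pi.single j 1)) - B (Pi.single j 1) = _
      rw [htr, h, add_sub_cancel_left, Pi.single_eq_same, mul_one]
    rw [h4] at h3
    have h5 := congrArg (LinearMap.baseChange K (rowForm C (Pi.single i 1))) h3
    rw [LinearMap.baseChange_tmul, rowForm_apply, h, single_one_dotProduct, Pi.single_eq_same] at h5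
    have h6 := congrArg (TensorProduct.AlgebraTensorModule.rid F K K) h5
    simp at h6

end Pool.Agent.Helper33.Aug
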