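import Mathlib

/-!
# Generic choices over an infinite field
-/

open Polynomial

namespace Pool.Agent.Helper33.Aug

variable {F V : Type*} [Field F] [AddCommGroup V] [Module F V]

/-- A function which is polynomial along every line. -/
def LP (p : V → F) : Prop := ∀ u v : V, ∃ q : F[X], ∀ t : F, p (u + t • v) = q.eval t

lemma LP.linear (l : V →ₗ[F] F) : LP (fun v => l v) := fun u v =>
  ⟨C (l u) + X * C (l v), fun t => by
    change l (u + t • v) = _
    rw [map_add, map_smul, smul_eq_mul, eval_add, eval_C, eval_mul, eval_X, eval_C]⟩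

lemma LP.mul {p q : V → F} (hp : LP p) (hq : LP q) : LP (fun v => p v * q v) := fun u v => by
  obtain ⟨a, ha⟩ := hp u v
  obtain ⟨b, hb⟩ := hq u v
  exact ⟨a * b, fun t => by simp [ha, hb]⟩

lemma LP.sub {p q : V → F} (hp : LP p) (hq : LP q) : LP (fun v => p v - q v) := fun u v => by
  obtain ⟨a, ha⟩ := hp u v
  obtain ⟨b, hb⟩ := hq u v
  exact ⟨a - b, fun t => by simp [ha, hb]⟩

/-- Finitely many functions, polynomial along lines and not identically zero, have a common point
where none of them vanishes. -/
theorem generic [Infinite F] {κ : Type*} (s : Finset κ) (p : κ → V → F)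
    (hp : ∀ i ∈ s, LP (p i)) (hne : ∀ i ∈ s, ∃ v, p i v ≠ 0) : ∃ v, ∀ i ∈ s, p i v ≠ 0 := by
  classical
  induction s using Finset.induction_on with
  | empty => exact ⟨0, by simp⟩
  | insert a s ha ih =>
    obtain ⟨v, hv⟩ := ih (fun i hi => hp i (Finset.mem_insert_of_mem hi))
      (fun i hi => hne i (Finset.mem_insert_of_mem hi))
    obtain ⟨v', hv'⟩ := hne a (Finset.mem_insert_self a s)
    have hq : ∀ i ∈ insert a s, ∃ q : F[X], ∀ t : F, p i (v + t • (v' - v)) = q.eval t :=
      fun i hi => hp i hi v (v' - v)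
    choose! q hq using hq
    have hq0 : ∀ i ∈ insert a s, q i ≠ 0 := by
      intro i hi h0
      rcases Finset.mem_insert.1 hi with rfl | his
      · have := hq i hi 1
        rw [h0, eval_zero, one_smul, add_sub_cancel] at this
        exact hv' this
      · have := hq i hi 0
        rw [h0, eval_zero, zero_smul, add_zero] at this
        exact hv i his this
    have hQ : (∏ i ∈ insert a s, q i) ≠ 0 := Finset.prod_ne_zero_iff.2 hq0
    obtain ⟨t, ht⟩ : ∃ t : F, (∏ i ∈ insert a s, q i).eval t ≠ 0 := by
      by_contra hcon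
      push Not at hcon
      exact hQ (Polynomial.funext fun t => by simpa using hcon t)
    refine ⟨v + t • (v' - v), fun i hi => ?_⟩
    rw [hq i hi]
    rw [eval_prod] at ht
    exact Finset.prod_ne_zero_iff.1 ht i hi

theorem generic' [Infinite F] {κ : Type*} [Finite κ] (p : κ → V → F)
    (hp : ∀ i, LP (p i)) (hne : ∀ i, ∃ v, p i v ≠ 0) : ∃ v, ∀ i, p i v ≠ 0 := by
  classical
  have := Fintype.ofFinite κ
  obtain ⟨v, hv⟩ := generic Finset.univ p (fun i _ => hp i) (fun i _ => hne i)
  exact ⟨v, fun i => hv i (Finset.mem_univ i)⟩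

end Pool.Agent.Helper33.Aug
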