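import Pool.Agent.Helper33.Aug.PSL

/-!
# A local criterion
-/

open Matrix

universe u v w

namespace Pool.Agent.Helper33.Aug

/-- `H` is locally covered by special linear groups of rank at least three over infinite fields of
characteristic different from that of `P`: every finite subset `S` is contained in the image of a
homomorphism `φ` from some `SL_n(F)`, such that two elements of `S` which differ by an element of
`φ(Z(SL_n(F)))` are equal. -/
def LocSL (P : Type v) [Field P] (H : Type w) [Group H] : Prop :=
  ∀ S : Finset H, ∃ (n : ℕ) (F : Type u) (_ : Field F) (φ : SpecialLinearGroup (Fin n) F →* H),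
    3 ≤ n ∧ Infinite F ∧ ringChar P ≠ ringChar F ∧ (∀ s ∈ S, ∃ g, φ g = s) ∧
    ∀ s ∈ S, ∀ t ∈ S, ∀ z ∈ Subgroup.center (SpecialLinearGroup (Fin n) F), t = s * φ z → t = s

theorem simple_of_locSL {P : Type v} [Field P] {H : Type w} [Group H] [Infinite H]
    (h : LocSL.{u} P H) : SimpleRng (augRing P H) := by
  classical
  refine simpleRng_of fun J hJ2 hJ k => ?_
  obtain ⟨x, hxJ, hx⟩ := Submodule.exists_mem_ne_zero_of_ne_bot hJ
  obtain ⟨n, F, _, φ, hn, hF, hchar, hS, hZ⟩ := h (insert k x.coeff.support)
  have hS' : ∀ i : x.coeff.support, ∃ g, φ g = (i : H) := fun i =>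
    hS _ (Finset.mem_insert_of_mem i.2)
  choose g hg using hS'
  have hne : Nonempty x.coeff.support := by
    rw [nonempty_subtype]
    obtain ⟨s, hs⟩ : x.coeff.support.Nonempty := by
      rw [Finset.nonempty_iff_ne_empty, Ne, Finsupp.support_eq_empty]
      intro h0
      exact hx (by ext a; simp [h0])
    exact ⟨s, hs⟩
  let ρ : SpecialLinearGroup (Fin n) F →* (MonoidAlgebra P H ⧸ J) :=
    { toFun := fun g => Ideal.Quotient.mk J (el P (φ g))
      map_one' := by rw [map_one, el_one, map_one]
      map_mul' := fun g h => by rw [map_mul, el_mul, map_mul] }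
  have hrel : ∑ i : x.coeff.support, x.coeff (i : H) • ρ (g i) = 0 := by
    have h1 : Ideal.Quotient.mk J x = 0 := Ideal.Quotient.eq_zero_iff_mem.2 hxJ
    rw [eq_sum_el x, map_sum] at h1
    rw [← h1, ← Finset.sum_coe_sort x.coeff.support]
    refine Finset.sum_congr rfl fun i _ => ?_
    have h2 : ρ (g i) = Ideal.Quotient.mk J (el P (i : H)) := by
      change Ideal.Quotient.mk J (el P (φ (g i))) = _
      rw [hg]
    rw [h2]
    rfl
  obtain ⟨k', hk'⟩ := hS k (Finset.mem_insert_self _ _)
  have h3 := core (P := P) ρ (by rw [Fintype.card_fin]; exact hn) hchar g (fun i => x.coeff i)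
    (fun i => Finsupp.mem_support_iff.1 i.2)
    (fun i j hij hc => hij (by
      have h4 := hZ i (Finset.mem_insert_of_mem i.2) j (Finset.mem_insert_of_mem j.2) _ hc
        (by rw [map_mul, map_inv, hg, hg, mul_inv_cancel_left])
      exact (Subtype.ext h4).symm)) hrel k'
  have h5 : Ideal.Quotient.mk J (el P k) = 1 := by
    rw [← hk']
    exact h3
  rw [← Ideal.Quotient.eq_zero_iff_mem, map_sub, map_one, h5, sub_self]

end Pool.Agent.Helper33.Aug
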