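import Pool.Agent.Helper33.Aug.Core

/-!
# The core theorem and group rings of `PSL_n(F)`
-/

open Matrix

namespace Pool.Agent.Helper33.Aug

section core

variable {F ι : Type*} [Field F] [Fintype ι] [DecidableEq ι]
variable {P R : Type*} [Field P] [Ring R] [Algebra P R] (ρ : SpecialLinearGroup ι F →* R)

/-- A multiplicative map from `SL_n(F)`, `n ≥ 3`, into a `P`-algebra, `char P ≠ char F`, which
satisfies a linear relation between elements which are pairwise different modulo the centre, is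
trivial. -/
theorem core [Infinite F] (hn : 3 ≤ Fintype.card ι) (hchar : ringChar P ≠ ringChar F)
    {J : Type*} [Fintype J] [Nonempty J] (g : J → SpecialLinearGroup ι F) (a : J → P)
    (ha : ∀ j, a j ≠ 0)
    (hg : ∀ i j, i ≠ j → (g i)⁻¹ * g j ∉ Subgroup.center (SpecialLinearGroup ι F))
    (hrel : ∑ j, a j • ρ (g j) = 0) (x : SpecialLinearGroup ι F) : ρ x = 1 := by
  classical
  have hne : Nonempty ι := Fintype.card_pos_iff.1 (by omega)
  obtain ⟨j0⟩ := ‹Nonempty J›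
  -- normalise g j0 = 1
  let g' : J → SpecialLinearGroup ι F := fun j => g j * (g j0)⁻¹
  have hg' : ∀ i j, i ≠ j → (g' i)⁻¹ * g' j ∉ Subgroup.center (SpecialLinearGroup ι F) := by
    intro i j hij hc
    apply hg i j hij
    have h1 : (g' i)⁻¹ * g' j = g j0 * ((g i)⁻¹ * g j) * (g j0)⁻¹ := by
      simp only [g']; group
    rw [h1] at hc
    have h2 := (inferInstance : (Subgroup.center (SpecialLinearGroup ι F)).Normal).conj_mem _ hc
      (g j0)⁻¹
    simpa [mul_assoc] using h2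
  have hg0 : g' j0 = 1 := by simp [g']
  have hrel' : ∑ j, a j • ρ (g' j) = 0 := by
    have h1 : (∑ j, a j • ρ (g j)) * ρ (g j0)⁻¹ = 0 := by rw [hrel, zero_mul]
    rw [Finset.sum_mul] at h1
    rw [← h1]
    refine Finset.sum_congr rfl fun j _ => ?_
    rw [smul_mul_assoc, ← map_mul]
  obtain ⟨w, hw0, hw⟩ := choose_w g' hg'
  obtain ⟨f, hwf, hf⟩ := choose_f g' hw0
  obtain ⟨θ, hθ, h1⟩ := step3 (P := P) ρ g' a hwf j0 hg0 (ha j0) hf hw hrel'
  obtain ⟨e, φ, he, hφw, hφe, he0, hφ0, hgen⟩ := choose_e_phi hn hwf θ.coeff.support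
  obtain ⟨θ₁, hθ₁, h2⟩ := step4a ρ he hφw hφe θ hθ h1 hgen
  obtain ⟨θ₂, hθ₂, h3⟩ := step4b ρ hwf he hφw hφe θ₁ hθ₁ h2
  obtain ⟨e', he'⟩ := exists_dot_ne he0
  have hee' : ((e' ⬝ᵥ e)⁻¹ • e') ⬝ᵥ e = 1 := by
    rw [smul_dotProduct, smul_eq_mul, inv_mul_cancel₀ he']
  exact all_trivial ρ hn he0 hφ0 hφe
    (root_trivial ρ hchar hwf he hφw hφe hee' hθ₂ h3) x

end core

end Pool.Agent.Helper33.Aug
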