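import Pool.Agent.Helper33.Aug.Defs

/-!
# Reduction of the simplicity of `A(PH)` to ideals of `P[H]`
-/

namespace Pool.Agent.Helper33.Aug

variable {P H : Type*} [Field P] [Group H]

/-- The group element `h` in `P[H]`. -/
noncomputable def el (P : Type*) {H : Type*} [Field P] [Group H] (h : H) : MonoidAlgebra P H :=
  MonoidAlgebra.single h 1

lemma el_one : el P (1 : H) = 1 := rfl

lemma el_mul (g h : H) : el P (g * h) = el P g * el P h := by
  simp [el, MonoidAlgebra.single_mul_single]

lemma augMap_el (h : H) : augMap P H (el P h) = 1 := by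
  simp [augMap, el]

lemma mem_augRing {x : MonoidAlgebra P H} : x ∈ augRing P H ↔ augMap P H x = 0 := Iff.rfl

lemma el_sub_one_mem (h : H) : el P h - 1 ∈ augRing P H := by
  rw [mem_augRing, map_sub, map_one, augMap_el, sub_self]

lemma eq_sum_el (x : MonoidAlgebra P H) :
    x = ∑ h ∈ x.coeff.support, x.coeff h • el P h := by
  apply MonoidAlgebra.ext
  conv_lhs => rw [← Finsupp.sum_single x.coeff]
  simp [Finsupp.sum, el]

lemma augMap_apply (x : MonoidAlgebra P H) : augMap P H x = ∑ h ∈ x.coeff.support, x.coeff h := by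
  conv_lhs => rw [eq_sum_el x]
  simp [augMap_el]

lemma eq_sum_of_mem {x : MonoidAlgebra P H} (hx : x ∈ augRing P H) :
    x = ∑ h ∈ x.coeff.support, x.coeff h • (el P h - 1) := by
  rw [mem_augRing, augMap_apply] at hx
  simp only [smul_sub, Finset.sum_sub_distrib, ← Finset.sum_smul, hx, zero_smul, sub_zero]
  exact eq_sum_el x

lemma mul_mem_aug_left (r : MonoidAlgebra P H) {x : MonoidAlgebra P H} (hx : x ∈ augRing P H) :
    r * x ∈ augRing P H := by
  rw [mem_augRing] at hx ⊢
  rw [map_mul, hx, mul_zero]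

lemma mul_mem_aug_right (r : MonoidAlgebra P H) {x : MonoidAlgebra P H} (hx : x ∈ augRing P H) :
    x * r ∈ augRing P H := by
  rw [mem_augRing] at hx ⊢
  rw [map_mul, hx, zero_mul]

lemma coeff_el_mul (h : H) (x : MonoidAlgebra P H) (g : H) :
    (el P h * x).coeff (h * g) = x.coeff g := by
  simp [el]

lemma coeff_mul_el (h : H) (x : MonoidAlgebra P H) (g : H) :
    (x * el P h).coeff (g * h) = x.coeff g := by
  simp [el]

/-- Left multiplication by `h - 1` is not zero on `x ≠ 0`, for some `h` in a given infinite set. -/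
lemma exists_sub_one_mul_ne {S : Set H} (hS : S.Infinite) {x : MonoidAlgebra P H} (hx : x ≠ 0) :
    ∃ h ∈ S, (el P h - 1) * x ≠ 0 := by
  obtain ⟨s0, hs0⟩ : ∃ s0, x.coeff s0 ≠ 0 := by
    by_contra hcon
    push Not at hcon
    exact hx (by ext s; simpa using hcon s)
  by_contra hcon
  push Not at hcon
  apply hS
  have hfin : {h : H | h * s0 ∈ x.coeff.support}.Finite :=
    Set.Finite.preimage (f := fun h : H => h * s0) (mul_left_injective s0).injOn
      (Finset.finite_toSet _)
  refine hfin.subset fun h hh => ?_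
  have h1 : el P h * x = x := by
    have := hcon h hh
    rw [sub_mul, one_mul] at this
    exact sub_eq_zero.1 this
  have h2 := coeff_el_mul h x s0
  rw [h1] at h2
  exact Finsupp.mem_support_iff.2 (by rw [h2]; exact hs0)

lemma exists_mul_sub_one_ne [Infinite H] {x : MonoidAlgebra P H} (hx : x ≠ 0) :
    ∃ h, x * (el P h - 1) ≠ 0 := by
  obtain ⟨s0, hs0⟩ : ∃ s0, x.coeff s0 ≠ 0 := by
    by_contra hcon
    push Not at hcon
    exact hx (by ext s; simpa using hcon s)
  by_contra hcon
  push Not at hcon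
  apply Set.infinite_univ (α := H)
  have hfin : {h : H | s0 * h ∈ x.coeff.support}.Finite :=
    Set.Finite.preimage (f := fun h : H => s0 * h) (mul_right_injective s0).injOn
      (Finset.finite_toSet _)
  refine hfin.subset fun h _ => ?_
  have h1 : x * el P h = x := by
    have := hcon h
    rw [mul_sub, mul_one] at this
    exact sub_eq_zero.1 this
  have h2 := coeff_mul_el h x s0
  rw [h1] at h2
  exact Finsupp.mem_support_iff.2 (by rw [h2]; exact hs0)

/-- If every nonzero two-sided ideal of `P[H]` contains all `h - 1` then `A(PH)` is simple. -/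
theorem simpleRng_of [Infinite H]
    (hI : ∀ J : Ideal (MonoidAlgebra P H), J.IsTwoSided → J ≠ ⊥ → ∀ h : H, el P h - 1 ∈ J) :
    SimpleRng (augRing P H) := by
  constructor
  · obtain ⟨h, hh⟩ := exists_ne (1 : H)
    have hne : el P h - 1 ≠ 0 := by
      intro h0
      have h1 : el P h = el P (1 : H) := by rw [el_one]; exact sub_eq_zero.1 h0
      have h2 := congrArg (fun x => x.coeff h) h1
      simp [el, hh.symm] at h2
    obtain ⟨k, _, hk⟩ := exists_sub_one_mul_ne Set.infinite_univ hne
    exact ⟨⟨_, el_sub_one_mem k⟩, ⟨_, el_sub_one_mem h⟩, fun h0 => hk (congrArg Subtype.val h0)⟩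
  · intro I hImul
    by_cases hbot : I = ⊥
    · exact Or.inl hbot
    right
    obtain ⟨x, hxI, hx0⟩ : ∃ x ∈ I, x ≠ 0 := by
      by_contra hcon
      push Not at hcon
      exact hbot ((AddSubgroup.eq_bot_iff_forall I).2 hcon)
    let S : Set (MonoidAlgebra P H) :=
      {y | ∃ a : augRing P H, ∃ z ∈ I, ∃ b : augRing P H, y = a * z * b}
    let J : Ideal (MonoidAlgebra P H) := Ideal.span S
    have hJ2 : J.IsTwoSided := by
      constructor
      intro y r hy
      refine Submodule.span_induction (p := fun y _ => y * r ∈ J) ?_ ?_ ?_ ?_ hy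
      · rintro y ⟨a, z, hz, b, rfl⟩
        rw [mul_assoc]
        exact Ideal.subset_span ⟨a, z, hz, ⟨_, mul_mem_aug_right r b.2⟩, rfl⟩
      · change (0 : MonoidAlgebra P H) * r ∈ J
        rw [zero_mul]; exact J.zero_mem
      · intro u v _ _ hu hv
        rw [add_mul]; exact J.add_mem hu hv
      · intro t u _ hu
        rw [smul_eq_mul, mul_assoc]; exact J.mul_mem_left _ hu
    have hJI : ∀ y ∈ J, ∀ r : MonoidAlgebra P H, ∃ z ∈ I, (z : MonoidAlgebra P H) = r * y := by
      intro y hy
      refine Submodule.span_induction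
        (p := fun y _ => ∀ r : MonoidAlgebra P H, ∃ z ∈ I, (z : MonoidAlgebra P H) = r * y)
        ?_ ?_ ?_ ?_ hy
      · rintro y ⟨a, z, hz, b, rfl⟩ r
        refine ⟨⟨_, mul_mem_aug_left r a.2⟩ * z * b, ?_, ?_⟩
        · exact (hImul b _ (hImul _ z hz).1).2
        · change r * (a : MonoidAlgebra P H) * (z : MonoidAlgebra P H) * (b : MonoidAlgebra P H) = _
          simp only [mul_assoc]
      · intro r
        exact ⟨0, I.zero_mem, by rw [mul_zero]; rfl⟩
      · intro u v _ _ hu hv r
        obtain ⟨z, hz, hz'⟩ := hu r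
        obtain ⟨z₂, hz₂, hz₂'⟩ := hv r
        exact ⟨z + z₂, I.add_mem hz hz₂, by rw [mul_add, ← hz', ← hz₂']; rfl⟩
      · intro t u _ hu r
        obtain ⟨z, hz, hz'⟩ := hu (r * t)
        exact ⟨z, hz, by rw [hz', smul_eq_mul, mul_assoc]⟩
    have hJ0 : J ≠ ⊥ := by
      have hx0' : (x : MonoidAlgebra P H) ≠ 0 := fun h => hx0 (Subtype.ext h)
      obtain ⟨k, _, hk⟩ := exists_sub_one_mul_ne Set.infinite_univ hx0'
      obtain ⟨h, hh⟩ := exists_mul_sub_one_ne hk
      intro hb
      apply hh
      have : (el P k - 1) * (x : MonoidAlgebra P H) * (el P h - 1) ∈ J :=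
        Ideal.subset_span ⟨⟨_, el_sub_one_mem k⟩, x, hxI, ⟨_, el_sub_one_mem h⟩, rfl⟩
      rw [hb] at this
      exact this
    rw [eq_top_iff]
    intro y _
    have hy : (y : MonoidAlgebra P H) ∈ J := by
      rw [eq_sum_of_mem y.2]
      refine J.sum_mem fun h _ => ?_
      rw [Algebra.smul_def]
      exact J.mul_mem_left _ (hI J hJ2 hJ0 h)
    obtain ⟨z, hz, hz'⟩ := hJI _ hy 1
    rw [one_mul] at hz'
    rw [← Subtype.ext hz']
    exact hz

end Pool.Agent.Helper33.Aug
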