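import Pool.Agent.Helper33.Aug.Main
import Pool.Agent.Helper33.Aug.Reduce

/-!
# `A(P[PSL_n(F)])` is simple if `char P ≠ char F`
-/

open Matrix

namespace Pool.Agent.Helper33.Aug

variable {F ι : Type*} [Field F] [Fintype ι] [DecidableEq ι]

/-- The projection `SL → PSL`. -/
def pr : SpecialLinearGroup ι F →* ProjectiveSpecialLinearGroup ι F :=
  QuotientGroup.mk' (Subgroup.center (SpecialLinearGroup ι F))

lemma pr_surjective : Function.Surjective (pr (F := F) (ι := ι)) :=
  QuotientGroup.mk'_surjective _

lemma pr_eq_iff {g h : SpecialLinearGroup ι F} :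
    pr g = pr h ↔ g⁻¹ * h ∈ Subgroup.center (SpecialLinearGroup ι F) :=
  QuotientGroup.eq

lemma infinite_image [Infinite F] {i j : ι} (hij : i ≠ j) :
    (Set.range fun c : F => pr (SpecialLinearGroup.transvection hij c)).Infinite := by
  apply Set.infinite_range_of_injective
  intro c d hcd
  have h1 : pr (SpecialLinearGroup.transvection hij c) =
    pr (SpecialLinearGroup.transvection hij d) := hcd
  rw [pr_eq_iff, SpecialLinearGroup.transvection_inv, ← SpecialLinearGroup.transvection_add,
    SpecialLinearGroup.transvection_mem_center_iff] at h1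
  linear_combination -h1

lemma psl_infinite [Infinite F] [Nontrivial ι] :
    Infinite (ProjectiveSpecialLinearGroup ι F) := by
  obtain ⟨i, j, hij⟩ := exists_pair_ne ι
  exact Set.infinite_univ_iff.1 ((infinite_image (F := F) hij).mono (Set.subset_univ _))

variable {P : Type*} [Field P]

/-- The multiplicative map `SL → P[PSL] / J`. -/
noncomputable def rhoJ (J : Ideal (MonoidAlgebra P (ProjectiveSpecialLinearGroup ι F)))
    [J.IsTwoSided] :
    SpecialLinearGroup ι F →* (MonoidAlgebra P (ProjectiveSpecialLinearGroup ι F) ⧸ J) where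
  toFun g := Ideal.Quotient.mk J (el P (pr g))
  map_one' := by rw [map_one, el_one, map_one]
  map_mul' g h := by rw [map_mul, el_mul, map_mul]

theorem psl_ideal [Infinite F] (hn : 3 ≤ Fintype.card ι) (hchar : ringChar P ≠ ringChar F)
    (J : Ideal (MonoidAlgebra P (ProjectiveSpecialLinearGroup ι F))) [J.IsTwoSided]
    (hJ : J ≠ ⊥) (h : ProjectiveSpecialLinearGroup ι F) : el P h - 1 ∈ J := by
  classical
  obtain ⟨x, hxJ, hx⟩ := Submodule.exists_mem_ne_zero_of_ne_bot hJ
  let g : x.coeff.support → SpecialLinearGroup ι F := fun i => (pr_surjective (i : _)).choose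
  have hgp : ∀ i, pr (g i) = (i : ProjectiveSpecialLinearGroup ι F) := fun i =>
    (pr_surjective (i : ProjectiveSpecialLinearGroup ι F)).choose_spec
  have hne : Nonempty x.coeff.support := by
    rw [nonempty_subtype]
    obtain ⟨s, hs⟩ : x.coeff.support.Nonempty := by
      rw [Finset.nonempty_iff_ne_empty, Ne, Finsupp.support_eq_empty]
      intro h0
      exact hx (by ext a; simp [h0])
    exact ⟨s, hs⟩
  have hrel : ∑ i : x.coeff.support, x.coeff (i : ProjectiveSpecialLinearGroup ι F) • rhoJ J (g i) = 0 := by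
    have h1 : Ideal.Quotient.mk J x = 0 := Ideal.Quotient.eq_zero_iff_mem.2 hxJ
    rw [eq_sum_el x, map_sum] at h1
    rw [← h1, ← Finset.sum_coe_sort x.coeff.support]
    refine Finset.sum_congr rfl fun i _ => ?_
    have h2 : rhoJ J (g i) = Ideal.Quotient.mk J (el P (i : ProjectiveSpecialLinearGroup ι F)) := by
      change Ideal.Quotient.mk J (el P (pr (g i))) = _
      rw [hgp]
    rw [h2]
    rfl
  obtain ⟨k, rfl⟩ := pr_surjective h
  have h3 := core (P := P) (rhoJ J) hn hchar g (fun i => x.coeff i)
    (fun i => Finsupp.mem_support_iff.1 i.2)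
    (fun i j hij hc => hij (by
      apply Subtype.ext
      rw [← hgp i, ← hgp j]
      exact pr_eq_iff.2 hc)) hrel k
  rw [← Ideal.Quotient.eq_zero_iff_mem, map_sub, map_one]
  exact sub_eq_zero.2 h3

theorem psl_simple [Infinite F] (hn : 3 ≤ Fintype.card ι) (hchar : ringChar P ≠ ringChar F) :
    SimpleRng (augRing P (ProjectiveSpecialLinearGroup ι F)) := by
  have : Nontrivial ι := by
    rw [← Fintype.one_lt_card_iff_nontrivial]; omega
  have := psl_infinite (F := F) (ι := ι)
  exact simpleRng_of fun J hJ2 hJ h => psl_ideal hn hchar J hJ h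

end Pool.Agent.Helper33.Aug
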