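import Pool.Agent.Helper33.Aug.FSLEqual

/-!
# The groups `PSL(V)`, `dim V ≥ 3`, finite or infinite
-/

open Matrix

namespace Pool.Agent.Helper33.Aug

lemma SimpleRng.congr {R S : Type*} [NonUnitalRing R] [NonUnitalRing S] (e : R ≃+* S)
    (h : SimpleRng R) : SimpleRng S := by
  obtain ⟨⟨a, b, hab⟩, hI⟩ := h
  refine ⟨⟨e a, e b, ?_⟩, ?_⟩
  · rw [← map_mul]
    intro h0
    exact hab (e.injective (by rw [h0, map_zero]))
  · intro I hImul
    rcases hI (I.comap e.toAddEquiv.toAddMonoidHom) (by
      intro a x hx
      have hx' : e x ∈ I := hx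
      have h1 := hImul (e a) (e x) hx'
      rw [← map_mul, ← map_mul] at h1
      exact h1) with h | h
    · left
      rw [AddSubgroup.eq_bot_iff_forall]
      intro x hx
      have h1 : e.symm x ∈ I.comap e.toAddEquiv.toAddMonoidHom := by
        change e (e.symm x) ∈ I
        rwa [e.apply_symm_apply]
      rw [h] at h1
      have h2 : e.symm x = 0 := AddSubgroup.mem_bot.1 h1
      rw [← e.apply_symm_apply x, h2, map_zero]
    · right
      rw [eq_top_iff]
      intro x _
      have h1 : e.symm x ∈ I.comap e.toAddEquiv.toAddMonoidHom := by rw [h]; exact AddSubgroup.mem_top _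
      have h2 : e (e.symm x) ∈ I := h1
      rwa [e.apply_symm_apply] at h2

section

variable (P : Type*) [Field P] {H H' : Type*} [Group H] [Group H']

lemma augMap_domCongr (e : H ≃* H') (x : MonoidAlgebra P H) :
    augMap P H' (MonoidAlgebra.domCongr P P e x) = augMap P H x := by
  rw [eq_sum_el x]
  simp only [map_sum, map_smul, augMap_el]
  refine Finset.sum_congr rfl fun h _ => ?_
  congr 1
  rw [el, MonoidAlgebra.domCongr_single]
  exact augMap_el _

/-- Isomorphic groups have isomorphic augmentation ideals. -/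
noncomputable def augCongr (e : H ≃* H') : augRing P H ≃+* augRing P H' where
  toFun x := ⟨MonoidAlgebra.domCongr P P e x.1, by
    rw [mem_augRing, augMap_domCongr]; exact x.2⟩
  invFun x := ⟨MonoidAlgebra.domCongr P P e.symm x.1, by
    rw [mem_augRing, augMap_domCongr]; exact x.2⟩
  left_inv x := by
    apply Subtype.ext
    apply MonoidAlgebra.ext
    ext h
    simp
  right_inv x := by
    apply Subtype.ext
    apply MonoidAlgebra.ext
    ext h
    simp
  map_mul' x y := Subtype.ext (map_mul (MonoidAlgebra.domCongr P P e) x.1 y.1)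
  map_add' x y := Subtype.ext (map_add (MonoidAlgebra.domCongr P P e) x.1 y.1)

lemma simpleRng_congr (e : H ≃* H') : SimpleRng (augRing P H) ↔ SimpleRng (augRing P H') :=
  ⟨SimpleRng.congr (augCongr P e), SimpleRng.congr (augCongr P e).symm⟩

end

/-- `PSL(V)`: the group generated by all transvections, modulo its centre. -/
abbrev PSLV (F V : Type*) [Field F] [AddCommGroup V] [Module F V] : Type _ :=
  FSL F V ⧸ Subgroup.center (FSL F V)

variable {F V : Type*} [Field F] [AddCommGroup V] [Module F V]

theorem center_FSL (hV : ¬ FiniteDimensional F V) : Subgroup.center (FSL F V) = ⊥ := by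
  classical
  rw [eq_bot_iff]
  intro g hg
  rw [Subgroup.mem_center_iff] at hg
  obtain ⟨vs, fs, h1, h2⟩ := exists_support g.2
  obtain ⟨n, B, C, hn, h, hv, hf, u, hu0, hu⟩ := exists_system hV vs fs
  have : NeZero n := ⟨by omega⟩
  obtain ⟨g', hg'⟩ := h2 n B C h hv hf
  have hc : g' ∈ Subgroup.center (SpecialLinearGroup (Fin n) F) := by
    rw [Subgroup.mem_center_iff]
    intro k
    apply ext_injective B C h
    rw [map_mul, map_mul, hg']
    exact congrArg Subtype.val (hg (extFSL (by omega) B C h k))
  obtain ⟨r, _, hr⟩ := Matrix.SpecialLinearGroup.mem_center_iff.1 hc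
  have hr' : mt g' = Matrix.scalar (Fin n) r := hr.symm
  have hgu : (g : V ≃ₗ[F] V) (B u) = B u := h1 _ hu
  have hzu : ext B C h g' (B u) = r • B u := by
    rw [ext_apply, h, hr', sub_mulVec, one_mulVec]
    have : (Matrix.scalar (Fin n) r) *ᵥ u = r • u := by
      ext i
      simp [Matrix.mulVec_diagonal]
    rw [this, map_sub, map_smul]
    abel
  rw [hg', hgu] at hzu
  have hr1 : r = 1 := by
    have h5 : (1 - r) • B u = 0 := by rw [sub_smul, one_smul, ← hzu, sub_self]
    rcases smul_eq_zero.1 h5 with h6 | h6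
    · exact (sub_eq_zero.1 h6).symm
    · exact absurd h6 hu0
  have hz1 : g' = 1 := by
    apply SL_ext
    rw [hr', hr1, map_one, map_one]
  rw [Subgroup.mem_bot]
  apply Subtype.ext
  rw [← hg', hz1, map_one]
  rfl

/-- `SL_n(F)` is `FSL(V)` if `dim V = n`. -/
theorem exists_equiv [FiniteDimensional F V] (hn : 2 ≤ Module.finrank F V) :
    Nonempty (SpecialLinearGroup (Fin (Module.finrank F V)) F ≃* FSL F V) := by
  let b := Module.finBasis F V
  let B : (Fin (Module.finrank F V) → F) →ₗ[F] V := b.equivFun.symm.toLinearMap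
  let C : V →ₗ[F] (Fin (Module.finrank F V) → F) := b.equivFun.toLinearMap
  have h : ∀ x, C (B x) = x := fun x => b.equivFun.apply_symm_apply x
  have hBC : ∀ v, B (C v) = v := fun v => b.equivFun.symm_apply_apply v
  have : NeZero (Module.finrank F V) := ⟨by omega⟩
  refine ⟨MulEquiv.ofBijective (extFSL hn B C h) ⟨?_, ?_⟩⟩
  · intro g g' hgg'
    exact ext_injective B C h (congrArg Subtype.val hgg')
  · intro g
    obtain ⟨vs, fs, _, h2⟩ := exists_support g.2
    obtain ⟨g', hg'⟩ := h2 _ B C h (fun v _ => ⟨C v, hBC v⟩) (fun f _ =>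
      ⟨fun i => f (b i), by
        apply LinearMap.ext
        intro v
        rw [rowForm_apply]
        conv_lhs => rw [← b.sum_equivFun v]
        rw [map_sum, dotProduct]
        refine Finset.sum_congr rfl fun i _ => ?_
        rw [map_smul, smul_eq_mul, mul_comm]
        rfl⟩)
    exact ⟨g', Subtype.ext hg'⟩

lemma map_center_eq {G G' : Type*} [Group G] [Group G'] (e : G ≃* G') :
    (Subgroup.center G).map (e : G →* G') = Subgroup.center G' := by
  ext x
  rw [Subgroup.mem_map]
  constructor
  · rintro ⟨y, hy, rfl⟩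
    rw [Subgroup.mem_center_iff] at hy ⊢
    intro g
    have h1 := congrArg e (hy (e.symm g))
    rw [map_mul, map_mul, e.apply_symm_apply] at h1
    exact h1
  · intro hx
    refine ⟨e.symm x, ?_, e.apply_symm_apply x⟩
    rw [Subgroup.mem_center_iff] at hx ⊢
    intro g
    apply e.injective
    rw [map_mul, map_mul, e.apply_symm_apply]
    exact hx (e g)

/-- The main theorem. -/
theorem pslV {P F V : Type*} [Field P] [Field F] [Infinite F] [AddCommGroup V] [Module F V]
    (hV : 3 ≤ Module.rank F V) :
    SimpleRng (augRing P (PSLV F V)) ↔ ringChar P ≠ ringChar F := by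
  by_cases hfin : FiniteDimensional F V
  · have hn : 3 ≤ Module.finrank F V := by
      have h1 := Module.finrank_eq_rank F V
      rw [← h1] at hV
      exact_mod_cast hV
    obtain ⟨e⟩ := exists_equiv (F := F) (V := V) (by omega)
    have e' : ProjectiveSpecialLinearGroup (Fin (Module.finrank F V)) F ≃* PSLV F V :=
      QuotientGroup.congr _ _ e (map_center_eq e)
    rw [← simpleRng_congr P e']
    have : Nontrivial (Fin (Module.finrank F V)) := Fin.nontrivial_iff_two_le.2 (by omega)
    exact ⟨fun h1 h2 => psl_not_simple h2 h1,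
      fun h => psl_simple (by rw [Fintype.card_fin]; exact hn) h⟩
  · have e : PSLV F V ≃* FSL F V :=
      (QuotientGroup.quotientMulEquivOfEq (center_FSL hfin)).trans QuotientGroup.quotientBot
    rw [simpleRng_congr P e]
    have := FSL_infinite (F := F) hfin
    exact ⟨fun h1 h2 => FSL_not_simple hfin h2 h1,
      fun h => simple_of_locSL (locSL_FSL hfin h)⟩

end Pool.Agent.Helper33.Aug
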