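import Mathlib

/-!
# Quadratic characters of an infinite field of odd characteristic
-/

open Finset
open scoped Pointwise

namespace Pool.Agent.Helper33.Aug.Quad

variable {F D : Type*} [Field F] [CommRing D] [IsDomain D]

section basic

variable {lam : F → D} (h0 : lam 0 = 1) (hadd : ∀ x y, lam (x + y) = lam x * lam y)

include h0 hadd

lemma lam_neg_mul (x : F) : lam (-x) * lam x = 1 := by
  rw [← hadd, neg_add_cancel, h0]

lemma lam_ne_zero (x : F) : lam x ≠ 0 := by
  intro h
  have := lam_neg_mul h0 hadd x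
  rw [h, mul_zero] at this
  exact zero_ne_one this

lemma lam_nsmul (n : ℕ) (x : F) : lam ((n : F) * x) = lam x ^ n := by
  induction n with
  | zero => simp [h0]
  | succ n ih => rw [Nat.cast_succ, add_mul, one_mul, hadd, ih, pow_succ]

lemma lam_sum {ι : Type*} (s : Finset ι) (f : ι → F) : lam (∑ i ∈ s, f i) = ∏ i ∈ s, lam (f i) := by
  classical
  induction s using Finset.induction_on with
  | empty => simp [h0]
  | insert a s ha ih => rw [sum_insert ha, prod_insert ha, hadd, ih]

lemma lam_sub {x y : F} (h : lam x = lam y) : lam (x - y) = 1 := by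
  rw [sub_eq_add_neg, hadd, h, mul_comm, lam_neg_mul h0 hadd]

end basic

section caseA

variable {q : ℕ} (hq : q.Prime) [CharP F q] {lam : F → D} (h0 : lam 0 = 1)
  (hadd : ∀ x y, lam (x + y) = lam x * lam y)

include h0 hadd in
lemma lam_pow_q (x : F) : lam x ^ q = 1 := by
  rw [← lam_nsmul h0 hadd, CharP.cast_eq_zero, zero_mul, h0]

lemma finite_roots (D : Type*) [CommRing D] [IsDomain D] {q : ℕ} (hq : q.Prime) :
    Finite {z : D // z ^ q = 1} := by
  classical
  have h : {z : D | z ^ q = 1}.Finite := by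
    refine Set.Finite.subset (Polynomial.nthRoots q (1 : D)).toFinset.finite_toSet fun x hx => ?_
    simpa [Polynomial.mem_nthRoots hq.pos] using hx
  exact h.to_subtype

include hq h0 hadd in
/-- Finitely many characters are trivial together on an infinite set. -/
lemma pig [Infinite F] {K : Type*} [Finite K] (c : K → F) :
    {y : F | ∀ j, lam (y * c j) = 1}.Infinite := by
  have := finite_roots D hq
  let Φ : F → (K → {z : D // z ^ q = 1}) := fun y j => ⟨lam (y * c j), lam_pow_q h0 hadd _⟩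
  obtain ⟨v, hv⟩ := Finite.exists_infinite_fiber Φ
  obtain ⟨y0, hy0⟩ := (Set.infinite_coe_iff.1 hv).nonempty
  refine ((Set.infinite_coe_iff.1 hv).image (f := fun y => y - y0)
    (sub_left_injective.injOn)).mono ?_
  rintro _ ⟨y, hy, rfl⟩ j
  have h1 : Φ y = Φ y0 := by rw [show Φ y = v from hy, show Φ y0 = v from hy0]
  have h2 : lam (y * c j) = lam (y0 * c j) := congrArg Subtype.val (congrFun h1 j)
  change lam ((y - y0) * c j) = 1
  rw [sub_mul]
  exact lam_sub h0 hadd h2

variable {S : Type*} [Fintype S] (δ : S → F)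

/-- `y` is killed by all the characters `y ↦ lam (y δ_i)`. -/
def NN (lam : F → D) (δ : S → F) (y : F) : Prop := ∀ i, lam (y * δ i) = 1

include h0 hadd in
lemma NN_sum {ι : Type*} (s : Finset ι) (f : ι → F) (h : ∀ i ∈ s, NN lam δ (f i)) :
    NN lam δ (∑ i ∈ s, f i) := by
  intro j
  rw [sum_mul, lam_sum h0 hadd]
  exact prod_eq_one fun i hi => h i hi j

include h0 hadd in
lemma NN_nat (n : ℕ) {y : F} (h : NN lam δ y) : NN lam δ ((n : F) * y) := by
  intro j
  rw [mul_assoc, lam_nsmul h0 hadd, h j, one_pow]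

include hq h0 hadd in
/-- Infinitely many isotropic elements orthogonal to a finite set. -/
lemma isotropic [Infinite F] (s : Finset F) :
    {y : F | NN lam δ (y * y) ∧ ∀ x ∈ s, NN lam δ (x * y)}.Infinite := by
  classical
  have := finite_roots D hq
  obtain ⟨η, hη1, hη2⟩ := exists_seq_of_forall_finset_exists
    (fun y : F => ∀ x ∈ s, NN lam δ (x * y)) (fun y y' => y ≠ y' ∧ NN lam δ (y * y')) (by
      intro t _
      obtain ⟨y, hy, hyt⟩ := (pig hq h0 hadd
        (fun p : (s ∪ t : Finset F) × S => (p.1 : F) * δ p.2)).exists_notMem_finset t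
      have key : ∀ x ∈ s ∪ t, NN lam δ (x * y) := by
        intro x hx i
        have := hy (⟨x, hx⟩, i)
        rwa [show y * (x * δ i) = x * y * δ i by ring] at this
      refine ⟨y, fun x hx => key x (mem_union_left _ hx), fun x hx => ⟨?_, key x
        (mem_union_right _ hx)⟩⟩
      rintro rfl
      exact hyt hx)
  have hinj : ∀ m n, m ≠ n → η m ≠ η n := by
    intro m n hmn
    rcases lt_or_gt_of_ne hmn with h | h
    · exact (hη2 m n h).1
    · exact (hη2 n m h).1.symm
  have horth : ∀ m n, m ≠ n → NN lam δ (η m * η n) := by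
    intro m n hmn
    rcases lt_or_gt_of_ne hmn with h | h
    · exact (hη2 m n h).2
    · rw [mul_comm]; exact (hη2 n m h).2
  let Φ : ℕ → (S → {z : D // z ^ q = 1}) := fun n i =>
    ⟨lam (η n * η n * δ i), lam_pow_q h0 hadd _⟩
  obtain ⟨v, hv⟩ := Finite.exists_infinite_fiber Φ
  have hvI : (Φ ⁻¹' {v}).Infinite := Set.infinite_coe_iff.1 hv
  obtain ⟨T, hT, hTc⟩ := hvI.exists_subset_card_eq (q - 1)
  have hrest : ((Φ ⁻¹' {v}) \ (T : Set ℕ)).Infinite := hvI.sdiff T.finite_toSet
  refine (hrest.image (f := fun n => ∑ m ∈ T, η m + η n) ?_).mono ?_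
  · intro m _ n _ hmn
    by_contra hne
    exact hinj m n hne (add_left_cancel hmn)
  · rintro _ ⟨n, ⟨hn, hnT⟩, rfl⟩
    have hnT' : n ∉ T := hnT
    have hsum : ∑ m ∈ T, η m + η n = ∑ m ∈ insert n T, η m := by
      rw [sum_insert hnT', add_comm]
    have hval : ∀ m ∈ insert n T, ∀ i, lam (η m * η m * δ i) = v i := by
      intro m hm i
      have hm' : Φ m = v := by
        rcases mem_insert.1 hm with rfl | hm
        · exact hn
        · exact hT hm
      exact congrArg Subtype.val (congrFun hm' i)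
    have hcard : (insert n T).card = q := by
      rw [card_insert_of_notMem hnT', hTc]
      have := hq.pos
      omega
    constructor
    · intro i
      change lam ((∑ m ∈ T, η m + η n) * (∑ m ∈ T, η m + η n) * δ i) = 1
      rw [hsum, sum_mul_sum, sum_mul, lam_sum h0 hadd]
      have h1 : ∀ m ∈ insert n T, lam ((∑ m' ∈ insert n T, η m * η m') * δ i) = v i := by
        intro m hm
        rw [sum_mul, lam_sum h0 hadd, prod_eq_single_of_mem m hm]
        · exact hval m hm i
        · intro m' _ hne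
          exact horth m m' hne.symm i
      rw [prod_congr rfl h1, prod_const, hcard]
      exact (v i).2
    · intro x hx
      change NN lam δ (x * (∑ m ∈ T, η m + η n))
      rw [hsum, mul_sum]
      exact NN_sum h0 hadd δ _ _ fun m _ => hη1 m x hx

include hq h0 hadd in
/-- An infinite isotropic sequence. -/
lemma exists_isotropic [Infinite F] : ∃ ε : ℕ → F, (∀ m n, m ≠ n → ε m ≠ ε n) ∧
    ∀ m n, NN lam δ (ε m * ε n) := by
  classical
  obtain ⟨ε, h1, h2⟩ := exists_seq_of_forall_finset_exists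
    (fun y : F => NN lam δ (y * y)) (fun y y' => y ≠ y' ∧ NN lam δ (y * y')) (by
      intro t _
      obtain ⟨y, hy, hyt⟩ := (isotropic hq h0 hadd δ t).exists_notMem_finset t
      refine ⟨y, hy.1, fun x hx => ⟨?_, hy.2 x hx⟩⟩
      rintro rfl
      exact hyt hx)
  refine ⟨ε, ?_, ?_⟩
  · intro m n hmn
    rcases lt_or_gt_of_ne hmn with h | h
    · exact (h2 m n h).1
    · exact (h2 n m h).1.symm
  · intro m n
    rcases lt_trichotomy m n with h | h | h
    · exact (h2 m n h).2
    · rw [h]; exact h1 n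
    · rw [mul_comm]; exact (h2 n m h).2

include hq h0 hadd in
/-- For every infinite sequence of distinct elements, the annihilators have infinite index. -/
lemma not_finiteIndex (hF2 : (2 : F) ≠ 0) {u : F} (hu : lam u ≠ 1) {ε : ℕ → F}
    (hε : ∀ m n, m ≠ n → ε m ≠ ε n) {d : F} (hd : d ≠ 0) (H : AddSubgroup F)
    (hH : ∀ s, s ∈ H ↔ ∀ n, lam (2 * s * d * ε n) = 1) : ¬ H.FiniteIndex := by
  intro hfin
  have := finite_roots D hq
  have : Finite (F ⧸ H) := AddSubgroup.finite_quotient_of_finiteIndex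
  let Φ : ℕ → (F ⧸ H → {z : D // z ^ q = 1}) := fun n r =>
    ⟨lam (2 * r.out * d * ε n), lam_pow_q h0 hadd _⟩
  obtain ⟨m, n, hmn, hΦ⟩ := Finite.exists_ne_map_eq_of_infinite Φ
  apply hu
  have hne : 2 * d * (ε m - ε n) ≠ 0 :=
    mul_ne_zero (mul_ne_zero hF2 hd) (sub_ne_zero.2 (hε m n hmn))
  set s := u / (2 * d * (ε m - ε n)) with hs
  set r : F := (QuotientAddGroup.mk s : F ⧸ H).out with hr
  have h1 : s - r ∈ H := by
    have h2 : (QuotientAddGroup.mk r : F ⧸ H) = QuotientAddGroup.mk s := Quotient.out_eq _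
    rw [QuotientAddGroup.eq] at h2
    rwa [neg_add_eq_sub] at h2
  have h3 : lam (2 * r * d * ε m) = lam (2 * r * d * ε n) :=
    congrArg Subtype.val (congrFun hΦ (QuotientAddGroup.mk s : F ⧸ H))
  have h4 := (hH _).1 h1 m
  have h5 := (hH _).1 h1 n
  have h6 : u = (2 * (s - r) * d * ε m - 2 * (s - r) * d * ε n) +
      (2 * r * d * ε m - 2 * r * d * ε n) := by
    have : u = s * (2 * d * (ε m - ε n)) := by rw [hs, div_mul_cancel₀ _ hne]
    rw [this]; ring
  rw [h6, hadd, lam_sub h0 hadd (h4.trans h5.symm), lam_sub h0 hadd h3, one_mul]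

include h0 hadd in
/-- Expansion of a quadratic character along isotropic directions. -/
lemma lam_expand {δ : S → F} {I : Type*} [Fintype I] {e : I → F}
    (he : ∀ i j, NN lam δ (e i * e j)) (s : F) (k : I → ℕ) (j : S) :
    lam ((s + ∑ i, (k i : F) * e i) ^ 2 * δ j) =
      lam (s ^ 2 * δ j) * ∏ i, lam (2 * s * e i * δ j) ^ k i := by
  have h1 : (s + ∑ i, (k i : F) * e i) ^ 2 * δ j = s ^ 2 * δ j +
      (∑ i, (k i : F) * (2 * s * e i * δ j)) +
      (∑ i, (k i : F) * e i) * (∑ i, (k i : F) * e i) * δ j := by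
    have : (∑ i, (k i : F) * (2 * s * e i * δ j)) = 2 * s * (∑ i, (k i : F) * e i) * δ j := by
      rw [mul_sum, sum_mul]
      exact sum_congr rfl fun i _ => by ring
    rw [this]; ring
  have h2 : lam ((∑ i, (k i : F) * e i) * (∑ i, (k i : F) * e i) * δ j) = 1 := by
    rw [sum_mul_sum]
    refine NN_sum h0 hadd δ _ _ (fun a _ => NN_sum h0 hadd δ _ _ fun b _ => ?_) j
    rw [show (k a : F) * e a * ((k b : F) * e b) = (k a : F) * ((k b : F) * (e a * e b)) by ring]
    exact NN_nat h0 hadd δ _ (NN_nat h0 hadd δ _ (he a b))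
  rw [h1, hadd, hadd, h2, mul_one, lam_sum h0 hadd]
  congr 1
  exact prod_congr rfl fun i _ => lam_nsmul h0 hadd _ _

include hq h0 hadd in
/-- The independence statement in odd characteristic. -/
theorem caseA [Infinite F] (hF2 : (2 : F) ≠ 0) (hqD : (q : D) ≠ 0) [Nonempty S]
    (b : S → D) (hb : ∀ i, b i ≠ 0) (x : S → F) (hx : Function.Injective x)
    (hrel : ∀ a : F, ∑ i, b i * lam (a ^ 2 * x i) = 0) (u : F) : lam u = 1 := by
  classical
  by_contra hu
  obtain ⟨i0⟩ := ‹Nonempty S›
  set δ : S → F := fun i => x i - x i0 with hδ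
  have hδ0 : δ i0 = 0 := sub_self _
  have hδne : ∀ i, i ≠ i0 → δ i ≠ 0 := fun i hi h => hi (hx (sub_eq_zero.1 h))
  have hrel' : ∀ a : F, ∑ i, b i * lam (a ^ 2 * δ i) = 0 := by
    intro a
    have h1 : (∑ i, b i * lam (a ^ 2 * x i)) * lam (-(a ^ 2 * x i0)) = 0 := by
      rw [hrel, zero_mul]
    rw [← h1, sum_mul]
    refine sum_congr rfl fun i _ => ?_
    rw [mul_assoc, ← hadd]
    congr 2
    simp only [hδ]
    ring
  obtain ⟨ε, hε, hεN⟩ := exists_isotropic hq h0 hadd δ
  let H : S → AddSubgroup F := fun i =>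
    { carrier := {s | ∀ n, lam (2 * s * δ i * ε n) = 1}
      zero_mem' := fun n => by simp [h0]
      add_mem' := fun {a b} ha hb n => by
        have ha' := ha n
        have hb' := hb n
        rw [show 2 * (a + b) * δ i * ε n = 2 * a * δ i * ε n + 2 * b * δ i * ε n by ring, hadd,
          ha', hb', one_mul]
      neg_mem' := fun {a} ha n => by
        have ha' := ha n
        have h1 := lam_neg_mul h0 hadd (2 * a * δ i * ε n)
        rw [ha', mul_one] at h1
        rw [show 2 * -a * δ i * ε n = -(2 * a * δ i * ε n) by ring, h1] }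
  have hH : ∀ i, i ≠ i0 → ¬ (H i).FiniteIndex := fun i hi =>
    not_finiteIndex hq h0 hadd hF2 hu hε (hδne i hi) (H i) (fun s => Iff.rfl)
  obtain ⟨s0, hs0⟩ : ∃ s0 : F, ∀ i, i ≠ i0 → s0 ∉ H i := by
    by_contra hcon
    push Not at hcon
    have hcov : ⋃ i ∈ (univ.filter (fun i : S => i ≠ i0)), (0 : F) +ᵥ (H i : Set F) = Set.univ := by
      rw [Set.eq_univ_iff_forall]
      intro s
      obtain ⟨i, hi, hsi⟩ := hcon s
      simp only [Set.mem_iUnion]
      exact ⟨i, mem_filter.2 ⟨mem_univ i, hi⟩, by rw [zero_vadd]; exact hsi⟩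
    obtain ⟨i, hi, hfi⟩ := AddSubgroup.exists_finiteIndex_of_leftCoset_cover hcov
    exact hH i (mem_filter.1 hi).2 hfi
  have hn : ∀ i, ∃ n, i ≠ i0 → lam (2 * s0 * δ i * ε n) ≠ 1 := by
    intro i
    by_cases hi : i = i0
    · exact ⟨0, fun h => absurd hi h⟩
    · have := hs0 i hi
      change ¬ ∀ n, lam (2 * s0 * δ i * ε n) = 1 at this
      push Not at this
      obtain ⟨n, hn⟩ := this
      exact ⟨n, fun _ => hn⟩
  choose n hn using hn
  set e : S → F := fun i => ε (n i) with he
  have heN : ∀ i j, NN lam δ (e i * e j) := fun i j => hεN _ _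
  -- sum over the box
  have hsum : ∑ k ∈ Fintype.piFinset (fun _ : S => range q),
      ∑ j, b j * lam ((s0 + ∑ i, (k i : F) * e i) ^ 2 * δ j) = 0 :=
    sum_eq_zero fun k _ => hrel' _
  rw [sum_comm] at hsum
  have hterm : ∀ j, ∑ k ∈ Fintype.piFinset (fun _ : S => range q),
      b j * lam ((s0 + ∑ i, (k i : F) * e i) ^ 2 * δ j) =
      b j * (lam (s0 ^ 2 * δ j) * ∏ i, ∑ m ∈ range q, lam (2 * s0 * e i * δ j) ^ m) := by
    intro j
    rw [prod_univ_sum, mul_sum, mul_sum]
    refine sum_congr rfl fun k _ => ?_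
    rw [lam_expand h0 hadd heN]
  rw [sum_congr rfl fun j _ => hterm j, sum_eq_single i0] at hsum
  · have h1 : ∀ i, ∑ m ∈ range q, lam (2 * s0 * e i * δ i0) ^ m = (q : D) := by
      intro i
      rw [hδ0, mul_zero, h0]
      simp
    rw [prod_congr rfl fun i _ => h1 i, hδ0, mul_zero, h0, one_mul, prod_const] at hsum
    rcases mul_eq_zero.1 hsum with h | h
    · exact hb i0 h
    · exact hqD (pow_eq_zero_iff (by
        rw [Finset.card_univ]
        exact (Fintype.card_pos_iff.2 ⟨i0⟩).ne') |>.1 h)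
  · intro j _ hj
    have h1 : ∑ m ∈ range q, lam (2 * s0 * e j * δ j) ^ m = 0 := by
      have h2 := hn j hj
      rw [show 2 * s0 * δ j * ε (n j) = 2 * s0 * e j * δ j by simp only [he]; ring] at h2
      have h3 := geom_sum_mul (lam (2 * s0 * e j * δ j)) q
      rw [lam_pow_q h0 hadd, sub_self] at h3
      exact (mul_eq_zero.1 h3).resolve_right (sub_ne_zero.2 h2)
    rw [prod_eq_zero (mem_univ j) h1, mul_zero, mul_zero]
  · intro h
    exact absurd (mem_univ i0) h

end caseA

end Pool.Agent.Helper33.Aug.Quad
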