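import Pool.Agent.Helper33.Aug.QuadA

/-!
# Quadratic characters of a field of characteristic zero
-/

open Finset
open scoped Pointwise

namespace Pool.Agent.Helper33.Aug.Quad

variable {F D : Type*} [Field F] [CommRing D] [IsDomain D]

section torsion

variable [CharZero F] {lam : F → D} (h0 : lam 0 = 1)
  (hadd : ∀ x y, lam (x + y) = lam x * lam y) {S : Type*} [Fintype S]

include h0 hadd in
lemma lam_expand_one (s t x : F) (n : ℕ) :
    lam ((s + (n : F) * t) ^ 2 * x) =
      lam (s ^ 2 * x) * lam (2 * s * t * x) ^ n * lam (t ^ 2 * x) ^ (n ^ 2) := by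
  rw [← lam_nsmul h0 hadd, ← lam_nsmul h0 hadd, ← hadd, ← hadd]
  congr 1
  push_cast
  ring

include h0 hadd in
/-- The independence statement for torsion characters. -/
theorem caseB1 (htor : ∀ x, ∃ N : ℕ, 0 < N ∧ lam x ^ N = 1) [Nonempty S]
    (b : S → D) (hb : ∀ i, b i ≠ 0) (x : S → F) (hx : Function.Injective x)
    (hrel : ∀ a : F, ∑ i, b i * lam (a ^ 2 * x i) = 0) (u : F) : lam u = 1 := by
  classical
  by_contra hu
  choose N hN0 hN using fun i => htor (x i)
  set t : ℕ := ∏ i, N i with ht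
  have ht0 : t ≠ 0 := Finset.prod_ne_zero_iff.2 fun i _ => (hN0 i).ne'
  have htF : (t : F) ≠ 0 := Nat.cast_ne_zero.2 ht0
  have ht1 : ∀ i, lam ((t : F) ^ 2 * x i) = 1 := by
    intro i
    obtain ⟨m, hm⟩ : N i ∣ t := Finset.dvd_prod_of_mem N (mem_univ i)
    have : (t : F) ^ 2 * x i = ((N i * (m * t) : ℕ) : F) * x i := by
      rw [← mul_assoc, ← hm]; push_cast; ring
    rw [this, lam_nsmul h0 hadd, pow_mul, hN, one_pow]
  let H : S × S → AddSubgroup F := fun p =>
    { carrier := {s | lam (2 * s * t * (x p.1 - x p.2)) = 1}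
      zero_mem' := by simp [h0]
      add_mem' := fun {a b} ha hb => by
        have ha' : lam (2 * a * t * (x p.1 - x p.2)) = 1 := ha
        have hb' : lam (2 * b * t * (x p.1 - x p.2)) = 1 := hb
        change lam (2 * (a + b) * t * (x p.1 - x p.2)) = 1
        rw [show 2 * (a + b) * (t : F) * (x p.1 - x p.2) = 2 * a * t * (x p.1 - x p.2) +
          2 * b * t * (x p.1 - x p.2) by ring, hadd, ha', hb', one_mul]
      neg_mem' := fun {a} ha => by
        have ha' : lam (2 * a * t * (x p.1 - x p.2)) = 1 := ha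
        have h1 := lam_neg_mul h0 hadd (2 * a * t * (x p.1 - x p.2))
        rw [ha', mul_one] at h1
        change lam (2 * -a * t * (x p.1 - x p.2)) = 1
        rw [show 2 * -a * (t : F) * (x p.1 - x p.2) = -(2 * a * t * (x p.1 - x p.2)) by ring, h1] }
  have hH : ∀ p : S × S, p.1 ≠ p.2 → ¬ (H p).FiniteIndex := by
    intro p hp hfin
    have hd : x p.1 - x p.2 ≠ 0 := sub_ne_zero.2 fun h => hp (hx h)
    have hm : ((H p).index : F) ≠ 0 := Nat.cast_ne_zero.2 hfin.index_ne_zero
    have h2 : (2 : F) ≠ 0 := two_ne_zero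
    have h1 : (H p).index • (u / (2 * t * (x p.1 - x p.2) * (H p).index)) ∈ H p :=
      AddSubgroup.nsmul_index_mem _ _
    have h3 : lam (2 * ((H p).index • (u / (2 * t * (x p.1 - x p.2) * (H p).index))) * t *
      (x p.1 - x p.2)) = 1 := h1
    apply hu
    rw [← h3]
    congr 1
    rw [nsmul_eq_mul]
    field_simp
  obtain ⟨s0, hs0⟩ : ∃ s0 : F, ∀ p : S × S, p.1 ≠ p.2 → s0 ∉ H p := by
    by_contra hcon
    push Not at hcon
    have hcov : ⋃ p ∈ (univ.filter (fun p : S × S => p.1 ≠ p.2)), (0 : F) +ᵥ (H p : Set F) =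
        Set.univ := by
      rw [Set.eq_univ_iff_forall]
      intro s
      obtain ⟨p, hp, hsp⟩ := hcon s
      simp only [Set.mem_iUnion]
      exact ⟨p, mem_filter.2 ⟨mem_univ p, hp⟩, by rw [zero_vadd]; exact hsp⟩
    obtain ⟨p, hp, hfp⟩ := AddSubgroup.exists_finiteIndex_of_leftCoset_cover hcov
    exact hH p (mem_filter.1 hp).2 hfp
  set v : S → D := fun i => lam (2 * s0 * t * x i) with hv
  have hvinj : Function.Injective v := by
    intro i j hij
    by_contra hne
    apply hs0 (i, j) hne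
    change lam (2 * s0 * t * (x i - x j)) = 1
    rw [mul_sub]
    exact lam_sub h0 hadd hij
  have hli := (linearIndependent_monoidHom (Multiplicative ℕ) D).comp
    (fun i => powersHom D (v i)) (fun i j h => hvinj ((powersHom D).injective h))
  rw [Fintype.linearIndependent_iff] at hli
  obtain ⟨i0⟩ := ‹Nonempty S›
  have h1 := hli (fun i => b i * lam (s0 ^ 2 * x i)) (by
    funext n
    have h2 := hrel (s0 + (n.toAdd : F) * t)
    rw [Finset.sum_apply, Pi.zero_apply, ← h2]
    refine sum_congr rfl fun i _ => ?_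
    rw [lam_expand_one h0 hadd, ht1, one_pow, mul_one, ← mul_assoc]
    rfl) i0
  rcases mul_eq_zero.1 h1 with h | h
  · exact hb i0 h
  · exact lam_ne_zero h0 hadd _ h

end torsion

section val

/-- In a torsion-free group `a b^n c^(n²) = 1` has finitely many solutions, unless
`a = b = c = 1`. -/
lemma finite_bad {G : Type*} [CommGroup G] (htf : ∀ g : G, ∀ n : ℕ, n ≠ 0 → g ^ n = 1 → g = 1)
    {a b c : G} (h : ¬ (a = 1 ∧ b = 1 ∧ c = 1)) : {n : ℕ | a * b ^ n * c ^ (n ^ 2) = 1}.Finite := by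
  by_contra hinf
  have hinf' : {n : ℕ | a * b ^ n * c ^ (n ^ 2) = 1}.Infinite := hinf
  apply h
  have key : ∀ m n : ℕ, m < n → a * b ^ m * c ^ (m ^ 2) = 1 → a * b ^ n * c ^ (n ^ 2) = 1 →
      b * c ^ (m + n) = 1 := by
    intro m n hmn hm hn
    obtain ⟨k, rfl⟩ := Nat.exists_eq_add_of_lt hmn
    apply htf _ (k + 1) (by omega)
    have h1 : a * b ^ (m + k + 1) * c ^ ((m + k + 1) ^ 2) =
        (a * b ^ m * c ^ (m ^ 2)) * (b * c ^ (m + (m + k + 1))) ^ (k + 1) := by
      rw [mul_pow, ← pow_mul]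
      have e1 : b ^ (m + k + 1) = b ^ m * b ^ (k + 1) := by rw [← pow_add]; congr 1
      have e2 : c ^ ((m + k + 1) ^ 2) = c ^ (m ^ 2) * c ^ ((m + (m + k + 1)) * (k + 1)) := by
        rw [← pow_add]; congr 1; ring
      rw [e1, e2]
      simp only [mul_assoc, mul_left_comm, mul_comm]
    rw [hn, hm, one_mul] at h1
    exact h1.symm
  obtain ⟨n1, hn1⟩ := hinf'.nonempty
  obtain ⟨n2, hn2, h12⟩ := hinf'.exists_gt n1
  obtain ⟨n3, hn3, h23⟩ := hinf'.exists_gt n2
  have k1 := key n1 n2 h12 hn1 hn2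
  have k2 := key n2 n3 h23 hn2 hn3
  have hc : c = 1 := by
    apply htf c (n3 - n1) (by omega)
    have h1 : b * c ^ (n2 + n3) = (b * c ^ (n1 + n2)) * c ^ (n3 - n1) := by
      rw [mul_assoc, ← pow_add]
      congr 2
      omega
    rw [k1, k2, one_mul] at h1
    exact h1.symm
  have hb : b = 1 := by rw [hc, one_pow, mul_one] at k1; exact k1
  have ha : a = 1 := by
    have := hn1
    change a * b ^ n1 * c ^ (n1 ^ 2) = 1 at this
    rw [hb, hc, one_pow, one_pow, mul_one, mul_one] at this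
    exact this
  exact ⟨ha, hb, hc⟩

variable {G : Type*} [CommGroup G] (htf : ∀ g : G, ∀ n : ℕ, n ≠ 0 → g ^ n = 1 → g = 1)
  {ν : F → G} (hν : ∀ x y, ν (x + y) = ν x * ν y)

include hν in
lemma nu_nat (n : ℕ) (x : F) : ν ((n : F) * x) = ν x ^ n := by
  have h0 : ν 0 = 1 := by
    have := hν 0 0
    rw [add_zero] at this
    exact mul_left_cancel (a := ν 0) (by rw [mul_one]; exact this.symm)
  induction n with
  | zero => rw [Nat.cast_zero, zero_mul, pow_zero, h0]
  | succ n ih => rw [Nat.cast_succ, add_mul, one_mul, hν, ih, pow_succ]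

include hν in
lemma nu_expand (s t x : F) (n : ℕ) :
    ν ((s + (n : F) * t) ^ 2 * x) =
      ν (s ^ 2 * x) * ν (2 * s * t * x) ^ n * ν (t ^ 2 * x) ^ (n ^ 2) := by
  rw [← nu_nat hν, ← nu_nat hν, ← hν, ← hν]
  congr 1
  push_cast
  ring

include htf hν in
/-- A common non-zero of finitely many quadratic maps. -/
lemma exists_generic [CharZero F] {z : F} (hz : ν z ≠ 1) (Δ : Finset F) (hΔ : ∀ d ∈ Δ, d ≠ 0) :
    ∃ s : F, ∀ d ∈ Δ, ν (s ^ 2 * d) ≠ 1 := by
  classical
  induction Δ using Finset.induction_on with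
  | empty => exact ⟨0, by simp⟩
  | insert d Δ hd ih =>
    obtain ⟨s, hs⟩ := ih fun d' hd' => hΔ d' (mem_insert_of_mem hd')
    have hd0 : d ≠ 0 := hΔ d (mem_insert_self d Δ)
    obtain ⟨s', hs'⟩ : ∃ s' : F, ν (s' ^ 2 * d) ≠ 1 := by
      by_contra hcon
      push Not at hcon
      apply hz
      have h2 : (2 : F) ≠ 0 := two_ne_zero
      have h1 := nu_expand hν 1 (z / (2 * d)) d 1
      rw [hcon, hcon, hcon, one_mul, one_pow, mul_one, pow_one] at h1
      rw [h1]
      congr 1
      field_simp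
    have hfin : (⋃ d' ∈ insert d Δ, {n : ℕ | ν ((s + (n : F) * s') ^ 2 * d') = 1}).Finite := by
      refine Set.Finite.biUnion (Finset.finite_toSet _) fun d' hd' => ?_
      simp only [nu_expand hν]
      apply finite_bad htf
      rintro ⟨h1, h2, h3⟩
      rcases mem_insert.1 hd' with rfl | hd'
      · exact hs' h3
      · exact hs d' hd' h1
    obtain ⟨n, hn⟩ := hfin.exists_notMem
    refine ⟨s + (n : F) * s', fun d' hd' h => hn ?_⟩
    simp only [Set.mem_iUnion]
    exact ⟨d', hd', h⟩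

end val

section nontorsion

/-- An element of a field of characteristic `p` which is not a root of unity is not a unit of some
valuation ring. -/
lemma exists_valuation {K : Type*} [Field K] {p : ℕ} [Fact p.Prime] [CharP K p] {τ : K}
    (hτ0 : τ ≠ 0) (hτ : ∀ N : ℕ, 0 < N → τ ^ N ≠ 1) :
    ∃ B : ValuationSubring K, B.valuation τ ≠ 1 := by
  classical
  let A : Subring K := (Algebra.adjoin ℤ {τ}).toSubring
  have hτA : τ ∈ A := Algebra.subset_adjoin rfl
  by_cases hI : Ideal.span {(⟨τ, hτA⟩ : A)} = ⊤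
  · exfalso
    obtain ⟨a, ha⟩ := Ideal.mem_span_singleton'.1 ((Ideal.eq_top_iff_one _).1 hI)
    have ha' : (a : K) * τ = 1 := congrArg Subtype.val ha
    have haA : (a : K) ∈ Algebra.adjoin ℤ {τ} := a.2
    rw [Algebra.adjoin_singleton_eq_range_aeval] at haA
    obtain ⟨f, hf⟩ := haA
    let : Algebra (ZMod p) K := ZMod.algebra K p
    let g : Polynomial (ZMod p) := f.map (Int.castRingHom (ZMod p)) * Polynomial.X - 1
    have hg0 : g ≠ 0 := by
      intro h0
      have h1 := congrArg (Polynomial.coeff · 0) h0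
      simp [g] at h1
    have hgτ : Polynomial.aeval τ g = 0 := by
      have h1 : Polynomial.aeval τ (f.map (Int.castRingHom (ZMod p))) = (a : K) := by
        rw [← hf]
        simp only [Polynomial.aeval_def, Polynomial.eval₂_map]
        congr 1
        exact RingHom.ext_int _ _
      simp only [g, map_sub, map_mul, Polynomial.aeval_X, map_one, h1, ha', sub_self]
    have halg : IsAlgebraic (ZMod p) τ := ⟨g, hg0, hgτ⟩
    have hint : IsIntegral (ZMod p) τ := halg.isIntegral
    have hfd : FiniteDimensional (ZMod p) (IntermediateField.adjoin (ZMod p) {τ}) :=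
      IntermediateField.adjoin.finiteDimensional hint
    have hfin : Finite (IntermediateField.adjoin (ZMod p) {τ}) :=
      Module.finite_of_finite (ZMod p)
    set t : IntermediateField.adjoin (ZMod p) {τ} :=
      ⟨τ, IntermediateField.mem_adjoin_simple_self (ZMod p) τ⟩ with ht
    have ht0 : t ≠ 0 := fun h => hτ0 (congrArg Subtype.val h)
    have hord : 0 < orderOf (Units.mk0 t ht0) := orderOf_pos _
    apply hτ _ hord
    have h1 : t ^ orderOf (Units.mk0 t ht0) = 1 := by
      have h2 := congrArg Units.val (pow_orderOf_eq_one (Units.mk0 t ht0))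
      rwa [Units.val_pow_eq_pow_val, Units.val_mk0, Units.val_one] at h2
    exact congrArg Subtype.val h1
  · obtain ⟨B, _, hB⟩ := Ideal.image_subset_nonunits_valuationSubring _ hI
    refine ⟨B, ?_⟩
    have h1 : τ ∈ B.nonunits := hB ⟨⟨τ, hτA⟩, Ideal.subset_span rfl, rfl⟩
    rw [ValuationSubring.mem_nonunits_iff] at h1
    exact h1.ne

/-- A sum of terms with different values is not zero. -/
lemma sum_ne_zero_of_valuation {K Γ : Type*} [Field K] [LinearOrderedCommGroupWithZero Γ]
    (v : Valuation K Γ) {S : Type*} [Fintype S] [Nonempty S] (t : S → K) (ht : ∀ i, t i ≠ 0)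
    (hne : ∀ i j, i ≠ j → v (t i) ≠ v (t j)) : ∑ i, t i ≠ 0 := by
  classical
  obtain ⟨i, _, hi⟩ := exists_max_image (univ : Finset S) (fun i => v (t i)) univ_nonempty
  have hvi : v (t i) ≠ 0 := (Valuation.ne_zero_iff v).2 (ht i)
  have h1 : v (∑ j ∈ univ.erase i, t j) < v (t i) :=
    Valuation.map_sum_lt v hvi fun j hj =>
      lt_of_le_of_ne (hi j (mem_univ j)) (hne j i (ne_of_mem_erase hj))
  rw [← add_sum_erase univ t (mem_univ i)]
  intro h0
  have h2 : v (t i + ∑ j ∈ univ.erase i, t j) = v (t i) :=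
    Valuation.map_add_eq_of_lt_left v h1
  rw [h0, map_zero] at h2
  exact hvi h2.symm

lemma units_torsionFree {Γ : Type*} [LinearOrderedCommGroupWithZero Γ] (g : Γˣ) (n : ℕ)
    (hn : n ≠ 0) (h : g ^ n = 1) : g = 1 := by
  have h1 : (g : Γ) ^ n = 1 := by
    have := congrArg Units.val h
    simpa using this
  exact Units.ext ((pow_eq_one_iff.1 h1).resolve_right hn)

variable [CharZero F] {lam : F → D} (h0 : lam 0 = 1)
  (hadd : ∀ x y, lam (x + y) = lam x * lam y) {S : Type*} [Fintype S]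

include h0 hadd in
/-- The independence statement for characters which are not torsion. -/
theorem caseB2 {p : ℕ} [Fact p.Prime] [CharP D p] {z : F}
    (hz : ∀ N : ℕ, 0 < N → lam z ^ N ≠ 1) [Nonempty S]
    (b : S → D) (hb : ∀ i, b i ≠ 0) (x : S → F) (hx : Function.Injective x)
    (hrel : ∀ a : F, ∑ i, b i * lam (a ^ 2 * x i) = 0) : False := by
  classical
  let K := FractionRing D
  have hinj : Function.Injective (algebraMap D K) := IsFractionRing.injective D K
  have : CharP K p := charP_of_injective_algebraMap hinj p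
  have hlam0 : ∀ y, algebraMap D K (lam y) ≠ 0 := fun y h =>
    lam_ne_zero h0 hadd y (hinj (by rw [h, map_zero]))
  obtain ⟨B, hB⟩ := exists_valuation (K := K) (p := p) (τ := algebraMap D K (lam z)) (hlam0 z)
    (by
      intro N hN h
      apply hz N hN
      apply hinj
      rw [map_pow, h, map_one])
  set v := B.valuation with hv
  have hvne : ∀ y, v (algebraMap D K (lam y)) ≠ 0 := fun y => (Valuation.ne_zero_iff v).2 (hlam0 y)
  let ν : F → (B.ValueGroup)ˣ := fun y => Units.mk0 _ (hvne y)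
  have hν : ∀ y y', ν (y + y') = ν y * ν y' := by
    intro y y'
    apply Units.ext
    change v (algebraMap D K (lam (y + y'))) =
      v (algebraMap D K (lam y)) * v (algebraMap D K (lam y'))
    rw [hadd, map_mul, map_mul]
  have hνz : ν z ≠ 1 := fun h => hB (congrArg Units.val h)
  obtain ⟨s, hs⟩ := exists_generic units_torsionFree hν hνz
    ((univ.filter (fun q : S × S => q.1 ≠ q.2)).image (fun q => x q.1 - x q.2)) (by
      intro d hd
      obtain ⟨q, hq, rfl⟩ := mem_image.1 hd
      exact sub_ne_zero.2 fun h => (mem_filter.1 hq).2 (hx h))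
  have hs' : ∀ i j, i ≠ j → ν (s ^ 2 * (x i - x j)) ≠ 1 := fun i j hij =>
    hs _ (mem_image.2 ⟨(i, j), mem_filter.2 ⟨mem_univ _, hij⟩, rfl⟩)
  have hbK : ∀ i, algebraMap D K (b i) ≠ 0 := fun i h => hb i (hinj (by rw [h, map_zero]))
  have hbv : ∀ i, v (algebraMap D K (b i)) ≠ 0 := fun i => (Valuation.ne_zero_iff v).2 (hbK i)
  let β : S → (B.ValueGroup)ˣ := fun i => Units.mk0 _ (hbv i)
  have hfin : (⋃ q ∈ (univ.filter (fun q : S × S => q.1 ≠ q.2)),
      {n : ℕ | (β q.1 * (β q.2)⁻¹) * (1 : (B.ValueGroup)ˣ) ^ n *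
        ν (s ^ 2 * (x q.1 - x q.2)) ^ (n ^ 2) = 1}).Finite := by
    refine Set.Finite.biUnion (Finset.finite_toSet _) fun q hq => ?_
    apply finite_bad units_torsionFree
    rintro ⟨_, _, h3⟩
    exact hs' q.1 q.2 (mem_filter.1 hq).2 h3
  obtain ⟨n, hn⟩ := hfin.exists_notMem
  have hdist : ∀ i j, i ≠ j → v (algebraMap D K (b i * lam (((n : F) * s) ^ 2 * x i))) ≠
      v (algebraMap D K (b j * lam (((n : F) * s) ^ 2 * x j))) := by
    intro i j hij h
    apply hn
    simp only [Set.mem_iUnion]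
    refine ⟨(i, j), mem_filter.2 ⟨mem_univ _, hij⟩, ?_⟩
    have h1 : β i * ν (((n : F) * s) ^ 2 * x i) = β j * ν (((n : F) * s) ^ 2 * x j) := by
      apply Units.ext
      rw [map_mul, map_mul, map_mul, map_mul] at h
      exact h
    have h2 : ν (((n : F) * s) ^ 2 * x i) =
        ν (((n : F) * s) ^ 2 * x j) * ν (s ^ 2 * (x i - x j)) ^ (n ^ 2) := by
      rw [← nu_nat hν, ← hν]
      congr 1
      push_cast
      ring
    rw [h2, mul_comm (ν _) (ν _ ^ _), ← mul_assoc] at h1
    have h3 : β i * ν (s ^ 2 * (x i - x j)) ^ (n ^ 2) = β j := mul_right_cancel h1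
    change (β i * (β j)⁻¹) * (1 : (B.ValueGroup)ˣ) ^ n * ν (s ^ 2 * (x i - x j)) ^ (n ^ 2) = 1
    rw [one_pow, mul_one, mul_assoc, mul_comm (β j)⁻¹, ← mul_assoc, h3, mul_inv_cancel]
  have h4 := sum_ne_zero_of_valuation v
    (fun i => algebraMap D K (b i * lam (((n : F) * s) ^ 2 * x i)))
    (fun i h => by
      rw [map_mul] at h
      rcases mul_eq_zero.1 h with h | h
      · exact hbK i h
      · exact hlam0 _ h) hdist
  apply h4
  rw [← map_sum, hrel, map_zero]

end nontorsion

end Pool.Agent.Helper33.Aug.Quad
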