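import Pool.Agent.Helper33.Aug.SL2b
import Pool.Agent.Helper33.Aug.PSLV
import Pool.Agent.Helper36.Aug.Final

/-!
# `A(P[PSL(V)])` for `dim V ≥ 2`

The case `dim V = 2`, `char F ≠ 2` is `core2`; the case `dim V = 2`, `char F = 2` is due to
helper36 (`H36Aug.main`).
-/

open Matrix

namespace Pool.Agent.Helper33.Aug

variable {P F : Type*} [Field P] [Field F]

theorem psl2_ideal [Infinite F] (h2 : ringChar F ≠ 2 ∨ ∀ x : F, ∃ y, y ^ 2 = x)
    (hchar : ringChar P ≠ ringChar F)
    (J : Ideal (MonoidAlgebra P (ProjectiveSpecialLinearGroup (Fin 2) F))) [J.IsTwoSided]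
    (hJ : J ≠ ⊥) (h : ProjectiveSpecialLinearGroup (Fin 2) F) : el P h - 1 ∈ J := by
  classical
  obtain ⟨x, hxJ, hx⟩ := Submodule.exists_mem_ne_zero_of_ne_bot hJ
  let g : x.coeff.support → SpecialLinearGroup (Fin 2) F := fun i => (pr_surjective (i : _)).choose
  have hgp : ∀ i, pr (g i) = (i : ProjectiveSpecialLinearGroup (Fin 2) F) := fun i =>
    (pr_surjective (i : ProjectiveSpecialLinearGroup (Fin 2) F)).choose_spec
  have hne : Nonempty x.coeff.support := by
    rw [nonempty_subtype]
    obtain ⟨s, hs⟩ : x.coeff.support.Nonempty := by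
      rw [Finset.nonempty_iff_ne_empty, Ne, Finsupp.support_eq_empty]
      intro h0
      exact hx (by ext a; simp [h0])
    exact ⟨s, hs⟩
  have hrel : ∑ i : x.coeff.support,
      x.coeff (i : ProjectiveSpecialLinearGroup (Fin 2) F) • rhoJ J (g i) = 0 := by
    have h1 : Ideal.Quotient.mk J x = 0 := Ideal.Quotient.eq_zero_iff_mem.2 hxJ
    rw [eq_sum_el x, map_sum] at h1
    rw [← h1, ← Finset.sum_coe_sort x.coeff.support]
    refine Finset.sum_congr rfl fun i _ => ?_
    have h2 : rhoJ J (g i) =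
        Ideal.Quotient.mk J (el P (i : ProjectiveSpecialLinearGroup (Fin 2) F)) := by
      change Ideal.Quotient.mk J (el P (pr (g i))) = _
      rw [hgp]
    rw [h2]
    rfl
  obtain ⟨k, rfl⟩ := pr_surjective h
  have h3 := core2 (P := P) (rhoJ J) h2 hchar g (fun i => x.coeff i)
    (fun i => Finsupp.mem_support_iff.1 i.2)
    (fun i j hij hc => hij (by
      apply Subtype.ext
      rw [← hgp i, ← hgp j]
      exact pr_eq_iff.2 hc)) hrel k
  rw [← Ideal.Quotient.eq_zero_iff_mem, map_sub, map_one]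
  exact sub_eq_zero.2 h3

/-- The two notions of simplicity agree. -/
theorem simpleRng_of_simpleAug {H : Type*} [Group H] (h : H36Aug.SimpleAug P H) :
    SimpleRng (augRing P H) := by
  obtain ⟨⟨a, b, ha, hb, hab⟩, hI⟩ := h
  refine ⟨⟨⟨a, ha⟩, ⟨b, hb⟩, fun h0 => hab (congrArg Subtype.val h0)⟩, fun I hImul => ?_⟩
  rcases hI (I.map (augRing P H).toAddSubgroup.subtype) (by
      rintro _ ⟨y, _, rfl⟩
      exact y.2) (by
      rintro c hc _ ⟨y, hy, rfl⟩
      have h1 := hImul (⟨c, hc⟩ : augRing P H) y hy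
      exact ⟨⟨_, h1.1, rfl⟩, ⟨_, h1.2, rfl⟩⟩) with h1 | h1
  · left
    rw [AddSubgroup.eq_bot_iff_forall]
    intro y hy
    exact Subtype.ext (h1 _ ⟨y, hy, rfl⟩)
  · right
    rw [eq_top_iff]
    intro y _
    obtain ⟨z, hz, hzy⟩ := h1 y.1 y.2
    rwa [← show z = y from Subtype.ext hzy]

theorem psl2_simple [Infinite F] (hchar : ringChar P ≠ ringChar F) :
    SimpleRng (augRing P (ProjectiveSpecialLinearGroup (Fin 2) F)) := by
  by_cases h2 : ringChar F = 2
  · exact simpleRng_of_simpleAug ((H36Aug.main le_rfl F P (Or.inl (by rw [h2]; exact two_ne_zero))).2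
      hchar)
  · have := psl_infinite (F := F) (ι := Fin 2)
    exact simpleRng_of fun J hJ2 hJ h => psl2_ideal (Or.inl h2) hchar J hJ h

/-- The main theorem, `dim V ≥ 2`. -/
theorem pslV2 {P F V : Type*} [Field P] [Field F] [Infinite F] [AddCommGroup V] [Module F V]
    (hV : 2 ≤ Module.rank F V) :
    SimpleRng (augRing P (PSLV F V)) ↔ ringChar P ≠ ringChar F := by
  by_cases h3 : 3 ≤ Module.rank F V
  · exact pslV h3
  · have hfin : FiniteDimensional F V := by
      push Not at h3
      exact Module.rank_lt_aleph0_iff.1 (h3.trans (by exact_mod_cast Cardinal.natCast_lt_aleph0 (n := 3)))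
    have hr := Module.finrank_eq_rank F V
    have hn : Module.finrank F V = 2 := by
      push Not at h3
      rw [← hr] at hV h3
      have h4 : 2 ≤ Module.finrank F V := by exact_mod_cast hV
      have h5 : Module.finrank F V < 3 := by exact_mod_cast h3
      omega
    obtain ⟨e⟩ := exists_equiv (F := F) (V := V) (by omega)
    rw [hn] at e
    have e' : ProjectiveSpecialLinearGroup (Fin 2) F ≃* PSLV F V :=
      QuotientGroup.congr _ _ e (map_center_eq e)
    rw [← simpleRng_congr P e']
    exact ⟨fun h1 h2 => psl_not_simple h2 h1, fun h => psl2_simple h⟩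

end Pool.Agent.Helper33.Aug
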