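import Pool.Agent.Helper33.Aug.Step5Sq
import Pool.Agent.Helper33.Aug.Core

/-!
# The case of `SL_2(F)`
-/

open Matrix

namespace Pool.Agent.Helper33.Aug

section mulne

variable {P A : Type*} [Field P] [AddCommGroup A]

/-- A generic twist of a nonzero element has nonzero product with a given nonzero element. -/
lemma exists_mul_ne {X J : Type*} [Infinite X] [Fintype J] [Nonempty J] (χ : J → X → A)
    (hχ : ∀ i j, i ≠ j → ∀ a : A, {t | χ i t - χ j t = a}.Finite) (θ : J → P)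
    (hθ : ∀ j, θ j ≠ 0) {D : AddMonoidAlgebra P A} (hD : D ≠ 0) :
    ∃ t, D * ∑ j, θ j • ch P (χ j t) ≠ 0 := by
  classical
  obtain ⟨j0⟩ := ‹Nonempty J›
  obtain ⟨s0, hs0⟩ : ∃ s0, D.coeff s0 ≠ 0 := by
    by_contra hcon
    push Not at hcon
    exact hD (by ext s; simpa using hcon s)
  let bad : Set X := ⋃ j ∈ (Finset.univ.filter (fun j : J => j ≠ j0)),
    ⋃ s ∈ D.coeff.support, {u | χ j0 u - χ j u = s - s0}
  have hbad : bad.Finite := by
    refine Set.Finite.biUnion (Finset.finite_toSet _) fun j hj => ?_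
    refine Set.Finite.biUnion (Finset.finite_toSet _) fun s _ => ?_
    exact hχ _ _ (Finset.mem_filter.1 hj).2.symm _
  obtain ⟨u, hu⟩ := hbad.exists_notMem
  refine ⟨u, fun h => ?_⟩
  have h1 := congrArg (fun f => f.coeff (χ j0 u + s0)) h
  simp only [Finset.mul_sum, mul_smul_comm, AddMonoidAlgebra.coeff_sum, Finsupp.coe_finsetSum,
    Finset.sum_apply, AddMonoidAlgebra.coeff_zero, Finsupp.coe_zero, Pi.zero_apply,
    AddMonoidAlgebra.coeff_smul, Finsupp.coe_smul, Pi.smul_apply, smul_eq_mul] at h1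
  rw [Finset.sum_eq_single j0] at h1
  · rw [mul_comm D, ch_mul_coeff] at h1
    exact (mul_ne_zero (hθ j0) hs0) h1
  · intro j _ hj
    rw [mul_comm D, ch_mul_coeff']
    by_contra hne
    apply hu
    simp only [bad, Set.mem_iUnion]
    refine ⟨j, Finset.mem_filter.2 ⟨Finset.mem_univ j, hj⟩, χ j0 u + s0 - χ j u,
      Finsupp.mem_support_iff.2 (right_ne_zero_of_mul hne), ?_⟩
    simp only [Set.mem_ofPred_eq]
    abel
  · intro h
    exact absurd (Finset.mem_univ _) h

end mulne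

section mats

variable {F : Type*} [Field F]

/-- Upper unipotent matrices. -/
def Um (y : F) : SpecialLinearGroup (Fin 2) F := ⟨!![1, y; 0, 1], by simp⟩

/-- Lower unipotent matrices. -/
def Lm (x : F) : SpecialLinearGroup (Fin 2) F := ⟨!![1, 0; x, 1], by simp⟩

/-- Diagonal matrices. -/
def Dm (s : Fˣ) : SpecialLinearGroup (Fin 2) F := ⟨!![(s : F), 0; 0, (s : F)⁻¹], by simp⟩

lemma mt_Um (y : F) : mt (Um y) = !![1, y; 0, 1] := rfl
lemma mt_Lm (x : F) : mt (Lm x) = !![1, 0; x, 1] := rfl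
lemma mt_Dm (s : Fˣ) : mt (Dm s) = !![(s : F), 0; 0, (s : F)⁻¹] := rfl

lemma Um_zero : Um (0 : F) = 1 := by
  apply SL_ext
  rw [mt_Um, map_one, Matrix.one_fin_two]

lemma Um_add (a b : F) : Um (a + b) = Um a * Um b := by
  apply SL_ext
  rw [map_mul, mt_Um, mt_Um, mt_Um, Matrix.mul_fin_two]
  simp [add_comm]

lemma Dm_Um (s : Fˣ) (y : F) : Dm s * Um y = Um ((s : F) ^ 2 * y) * Dm s := by
  apply SL_ext
  rw [map_mul, map_mul, mt_Um, mt_Um, mt_Dm, Matrix.mul_fin_two, Matrix.mul_fin_two]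
  have hs : (s : F) ≠ 0 := s.ne_zero
  simp
  field_simp

lemma T_eq_Lm {x : Fin 2 → F} (hx : (Pi.single 0 (1 : F) : Fin 2 → F) ⬝ᵥ x = 0) :
    T x (Pi.single 0 1) = Lm (x 1) := by
  apply SL_ext
  rw [coe_T hx, mt_Lm]
  rw [single_one_dotProduct] at hx
  ext i j
  fin_cases i <;> fin_cases j <;> simp [vecMulVec_apply, hx]

lemma T_eq_Um {y : Fin 2 → F} (hy : y ⬝ᵥ (Pi.single 0 (1 : F) : Fin 2 → F) = 0) :
    T (Pi.single 0 1) y = Um (y 1) := by
  apply SL_ext
  rw [coe_T hy, mt_Um]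
  rw [dotProduct_comm, single_one_dotProduct] at hy
  ext i j
  fin_cases i <;> fin_cases j <;> simp [vecMulVec_apply, hy]

/-- A multiplicative identity: the double coset of the unipotent group of every element outside
the Borel group looks the same. -/
lemma key_mat (h : SpecialLinearGroup (Fin 2) F) (hc : mt h 1 0 ≠ 0) (s : Fˣ) :
    ∃ A B : SpecialLinearGroup (Fin 2) F, ∀ x y : F,
      Um (-((s : F) ^ 2 * x)) * h * Um (((mt h 1 0) ^ 2 * (s : F) ^ 2)⁻¹ * y) =
        A * (Lm x * Um y) * B := by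
  have hs : (s : F) ≠ 0 := s.ne_zero
  have hdet : mt h 0 0 * mt h 1 1 - mt h 0 1 * mt h 1 0 = 1 := by
    have := h.2
    rw [Matrix.det_fin_two] at this
    exact this
  set a := mt h 0 0 with ha
  set b := mt h 0 1 with hb
  set c := mt h 1 0 with hcd
  set d := mt h 1 1 with hd
  have hmt : mt h = !![a, b; c, d] := by
    rw [ha, hb, hcd, hd]; exact Matrix.eta_fin_two _
  refine ⟨⟨!![-a / (c * s), (s : F); -(s : F)⁻¹, 0], by
      simp [Matrix.det_fin_two_of, hs]⟩,
    ⟨!![-c * s, -s * d; 0, -1 / (c * s)], by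
      rw [Matrix.det_fin_two_of]; field_simp; ring⟩, fun x y => ?_⟩
  apply SL_ext
  simp only [map_mul]
  change mt (Um _) * mt h * mt (Um _) = !![-a / (c * s), (s : F); -(s : F)⁻¹, 0] *
    (mt (Lm x) * mt (Um y)) * !![-c * s, -s * d; 0, -1 / (c * s)]
  rw [hmt, mt_Um, mt_Um, mt_Lm, mt_Um]
  simp only [Matrix.mul_fin_two]
  have hb' : b = (a * d - 1) / c := by
    field_simp
    linear_combination -hdet
  rw [hb']
  ext i j
  fin_cases i <;> fin_cases j <;> simp <;> field_simp <;> ring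

end mats

end Pool.Agent.Helper33.Aug
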