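import Pool.Agent.Helper33.Aug.SL2

/-!
# The case of `SL_2(F)`: relations
-/

open Matrix

namespace Pool.Agent.Helper33.Aug

variable {F P R : Type*} [Field F] [Field P] [Ring R] [Algebra P R]
  (ρ : SpecialLinearGroup (Fin 2) F →* R)

lemma eq_sum_ch {A : Type*} [AddCommGroup A] (θ : AddMonoidAlgebra P A) :
    θ = ∑ a ∈ θ.coeff.support, θ.coeff a • ch P a := by
  apply AddMonoidAlgebra.ext
  conv_lhs => rw [← Finsupp.sum_single θ.coeff]
  simp [Finsupp.sum, ch]

/-- The action `[x, y] N = ρ (Um x) N ρ (Um y)`. -/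
noncomputable def actU (P : Type*) {R : Type*} [Field P] [Ring R] [Algebra P R]
    (ρ : SpecialLinearGroup (Fin 2) F →* R) : AddMonoidAlgebra P (F × F) →ₐ[P] Module.End P R :=
  biAct (fun x => ρ (Um x)) (fun y => ρ (Um y)) (by rw [Um_zero, map_one])
    (fun a b => by rw [Um_add, map_mul]) (by rw [Um_zero, map_one])
    (fun a b => by rw [Um_add, map_mul])

lemma actU_ch (a : F × F) (N : R) : actU P ρ (ch P a) N = ρ (Um a.1) * N * ρ (Um a.2) := by
  rw [actU, biAct_ch]

/-- The algebra map `[z] ↦ ρ (Um z)`. -/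
noncomputable def uAct (P : Type*) {R : Type*} [Field P] [Ring R] [Algebra P R]
    (ρ : SpecialLinearGroup (Fin 2) F →* R) : AddMonoidAlgebra P F →ₐ[P] R :=
  lAct (fun z => ρ (Um z)) (by rw [Um_zero, map_one]) (fun a b => by rw [Um_add, map_mul])

lemma uAct_ch (z : F) : uAct P ρ (ch P z) = ρ (Um z) := by
  rw [uAct, lAct_ch]

/-- The map `[x, y] ↦ [x + y]`. -/
noncomputable def addMap (P F : Type*) [Field P] [Field F] :
    AddMonoidAlgebra P (F × F) →ₐ[P] AddMonoidAlgebra P F :=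
  lAct (fun a => ch P (a.1 + a.2)) (by simp [ch_zero])
    (fun a b => by rw [← ch_add]; congr 1; simp only [Prod.fst_add, Prod.snd_add]; ring)

lemma addMap_ch (a : F × F) : addMap P F (ch P a) = ch P (a.1 + a.2) := by
  rw [addMap, lAct_ch]

lemma actU_one (Ξ : AddMonoidAlgebra P (F × F)) : actU P ρ Ξ 1 = uAct P ρ (addMap P F Ξ) := by
  rw [eq_sum_ch Ξ]
  simp only [map_sum, map_smul, LinearMap.sum_apply, LinearMap.smul_apply, addMap_ch, uAct_ch,
    actU_ch, mul_one, Um_add, map_mul]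

section rel

variable {S : Type*} [Fintype S] (θ : S → P) (X Y : S → F)

/-- The element of `P[F × F]` which kills `ρ h`. -/
noncomputable def Th (h : SpecialLinearGroup (Fin 2) F) (s : Fˣ) : AddMonoidAlgebra P (F × F) :=
  ∑ i, θ i • ch P (-((s : F) ^ 2 * X i), ((mt h 1 0) ^ 2 * (s : F) ^ 2)⁻¹ * Y i)

lemma Th_kills (hrel : ∑ i, θ i • (ρ (Lm (X i)) * ρ (Um (Y i))) = 0)
    {h : SpecialLinearGroup (Fin 2) F} (hc : mt h 1 0 ≠ 0) (s : Fˣ) :
    actU P ρ (Th θ X Y h s) (ρ h) = 0 := by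
  obtain ⟨A, B, hAB⟩ := key_mat h hc s
  have h1 : actU P ρ (Th θ X Y h s) (ρ h) =
      ρ A * (∑ i, θ i • (ρ (Lm (X i)) * ρ (Um (Y i)))) * ρ B := by
    rw [Th, map_sum, LinearMap.sum_apply, Finset.mul_sum, Finset.sum_mul]
    refine Finset.sum_congr rfl fun i _ => ?_
    rw [map_smul, LinearMap.smul_apply, actU_ch, mul_smul_comm, smul_mul_assoc]
    congr 1
    have h2 := congrArg ρ (hAB (X i) (Y i))
    simp only [map_mul] at h2
    exact h2
  rw [h1, hrel, mul_zero, zero_mul]

lemma finite_char [Infinite F] {x y κ : F} (hxy : x ≠ 0 ∨ y ≠ 0) (hκ : κ ≠ 0) (a : F) :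
    {s : Fˣ | -((s : F) ^ 2 * x) + (κ * (s : F) ^ 2)⁻¹ * y = a}.Finite := by
  classical
  let p : Polynomial F := Polynomial.C (κ * x) * Polynomial.X ^ 4 +
    Polynomial.C (κ * a) * Polynomial.X ^ 2 - Polynomial.C y
  have hp : p ≠ 0 := by
    intro h0
    rcases hxy with h | h
    · have h1 := congrArg (fun q => Polynomial.coeff q 4) h0
      simp only [p, Polynomial.coeff_sub, Polynomial.coeff_add, Polynomial.coeff_C_mul,
        Polynomial.coeff_X_pow, Polynomial.coeff_C, Polynomial.coeff_zero] at h1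
      norm_num at h1
      rcases h1 with h1 | h1
      · exact hκ h1
      · exact h h1
    · have h1 := congrArg (fun q => Polynomial.coeff q 0) h0
      simp [p] at h1
      exact h h1
  have h : {s : F | p.eval s = 0}.Finite := by
    refine Set.Finite.subset p.roots.toFinset.finite_toSet fun s hs => ?_
    simpa [hp] using hs
  refine (Set.Finite.preimage (f := fun s : Fˣ => (s : F)) (Units.val_injective.injOn) h).subset ?_
  intro s hs
  have hs' : -((s : F) ^ 2 * x) + (κ * (s : F) ^ 2)⁻¹ * y = a := hs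
  have hs0 : (s : F) ≠ 0 := s.ne_zero
  change p.eval (s : F) = 0
  simp only [p, Polynomial.eval_sub, Polynomial.eval_add, Polynomial.eval_mul, Polynomial.eval_C,
    Polynomial.eval_pow, Polynomial.eval_X]
  rw [← hs']
  field_simp
  ring

theorem sl2_upper [Infinite F] [Nonempty S] (hθ : ∀ i, θ i ≠ 0)
    (hXY : ∀ i j, i ≠ j → X i - X j ≠ 0 ∨ Y i - Y j ≠ 0)
    (hrel : ∑ i, θ i • (ρ (Lm (X i)) * ρ (Um (Y i))) = 0)
    {J : Type*} [Fintype J] (g : J → SpecialLinearGroup (Fin 2) F) (a : J → P) (j0 : J)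
    (hg0 : g j0 = 1) (ha0 : a j0 ≠ 0) (hc : ∀ j, j ≠ j0 → mt (g j) 1 0 ≠ 0)
    (hrel2 : ∑ j, a j • ρ (g j) = 0) :
    ∃ β : AddMonoidAlgebra P F, β ≠ 0 ∧ uAct P ρ β = 0 := by
  classical
  have := infinite_units F
  have key : ∀ T : Finset J, j0 ∉ T → ∃ Ξ : AddMonoidAlgebra P (F × F), addMap P F Ξ ≠ 0 ∧
      ∀ j ∈ T, actU P ρ Ξ (ρ (g j)) = 0 := by
    intro T
    induction T using Finset.induction_on with
    | empty =>
      intro _
      exact ⟨1, by rw [map_one]; exact one_ne_zero, by simp⟩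
    | insert j T hj ih =>
      intro hj0
      obtain ⟨Ξ, hΞ, hkill⟩ := ih (fun h => hj0 (Finset.mem_insert_of_mem h))
      have hjj0 : j ≠ j0 := fun h => hj0 (h ▸ Finset.mem_insert_self j T)
      have hcj := hc j hjj0
      obtain ⟨s, hs⟩ := exists_mul_ne (X := Fˣ) (P := P)
        (fun (i : S) (s : Fˣ) =>
          -((s : F) ^ 2 * X i) + ((mt (g j) 1 0) ^ 2 * (s : F) ^ 2)⁻¹ * Y i)
        (by
          intro i i' hii' b
          have h1 := finite_char (hXY i i' hii') (pow_ne_zero 2 hcj) b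
          refine h1.subset fun t ht => ?_
          have ht' : -((t : F) ^ 2 * X i) + ((mt (g j) 1 0) ^ 2 * (t : F) ^ 2)⁻¹ * Y i -
            (-((t : F) ^ 2 * X i') + ((mt (g j) 1 0) ^ 2 * (t : F) ^ 2)⁻¹ * Y i') = b := ht
          change -((t : F) ^ 2 * (X i - X i')) +
            ((mt (g j) 1 0) ^ 2 * (t : F) ^ 2)⁻¹ * (Y i - Y i') = b
          rw [← ht']
          ring) θ hθ hΞ
      refine ⟨Ξ * Th θ X Y (g j) s, ?_, ?_⟩
      · rw [map_mul]
        have h1 : addMap P F (Th θ X Y (g j) s) = ∑ i, θ i •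
            ch P (-((s : F) ^ 2 * X i) + ((mt (g j) 1 0) ^ 2 * (s : F) ^ 2)⁻¹ * Y i) := by
          rw [Th, map_sum]
          refine Finset.sum_congr rfl fun i _ => ?_
          rw [map_smul, addMap_ch]
        rw [h1]
        exact hs
      · intro i hi
        rcases Finset.mem_insert.1 hi with rfl | hi
        · rw [map_mul, Module.End.mul_apply, Th_kills ρ θ X Y hrel hcj, map_zero]
        · rw [mul_comm, map_mul, Module.End.mul_apply, hkill i hi, map_zero]
  obtain ⟨Ξ, hΞ, hkill⟩ := key (Finset.univ.erase j0) (Finset.notMem_erase j0 _)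
  refine ⟨addMap P F Ξ, hΞ, ?_⟩
  have h1 : actU P ρ Ξ (∑ j, a j • ρ (g j)) = 0 := by rw [hrel2, map_zero]
  rw [← Finset.add_sum_erase _ _ (Finset.mem_univ j0), map_add, map_sum,
    Finset.sum_eq_zero (fun j hj => by rw [map_smul, hkill j hj, smul_zero]), add_zero, map_smul,
    hg0, map_one, actU_one] at h1
  exact (smul_eq_zero.1 h1).resolve_left ha0

end rel

/-- The core theorem for `SL_2`. -/
theorem core2 [Infinite F] (h2 : ringChar F ≠ 2 ∨ ∀ x : F, ∃ y, y ^ 2 = x)
    (hchar : ringChar P ≠ ringChar F) {J : Type*} [Fintype J] [Nonempty J]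
    (g : J → SpecialLinearGroup (Fin 2) F) (a : J → P) (ha : ∀ j, a j ≠ 0)
    (hg : ∀ i j, i ≠ j → (g i)⁻¹ * g j ∉ Subgroup.center (SpecialLinearGroup (Fin 2) F))
    (hrel : ∑ j, a j • ρ (g j) = 0) (x : SpecialLinearGroup (Fin 2) F) : ρ x = 1 := by
  classical
  obtain ⟨j0⟩ := ‹Nonempty J›
  obtain ⟨w, hw0, hw⟩ := choose_w (fun j => g j * (g j0)⁻¹) (by
    intro i j hij hc
    apply hg i j hij
    have h1 : (g i * (g j0)⁻¹)⁻¹ * (g j * (g j0)⁻¹) = g j0 * ((g i)⁻¹ * g j) * (g j0)⁻¹ := by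
      group
    rw [h1] at hc
    have h2 := (inferInstance :
      (Subgroup.center (SpecialLinearGroup (Fin 2) F)).Normal).conj_mem _ hc (g j0)⁻¹
    simpa [mul_assoc] using h2)
  obtain ⟨f, hwf, hf⟩ := choose_f (fun j => g j * (g j0)⁻¹) hw0
  -- the base change
  have hdet : w 0 * f 0 + f 1 * w 1 = 1 := by
    rw [dotProduct, Fin.sum_univ_two] at hwf
    linear_combination hwf
  let k : SpecialLinearGroup (Fin 2) F := ⟨!![w 0, -f 1; w 1, f 0], by
    rw [Matrix.det_fin_two_of]; linear_combination hdet⟩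
  have hmk : mt k = !![w 0, -f 1; w 1, f 0] := rfl
  set E : Fin 2 → F := Pi.single 0 1 with hE
  have hkE : mt k *ᵥ E = w := by
    rw [hmk, hE]
    ext i
    fin_cases i <;> simp [Matrix.mulVec, dotProduct]
  have hfk : f ᵥ* mt k = E := by
    rw [hmk, hE]
    ext i
    fin_cases i
    · simp [Matrix.vecMul, dotProduct]; linear_combination hdet
    · simp [Matrix.vecMul, dotProduct]; ring
  let g' : J → SpecialLinearGroup (Fin 2) F := fun j => k⁻¹ * (g j * (g j0)⁻¹) * k
  have hg0 : g' j0 = 1 := by simp [g']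
  have hrel' : ∑ j, a j • ρ (g' j) = 0 := by
    have h1 : ρ k⁻¹ * (∑ j, a j • ρ (g j)) * ρ ((g j0)⁻¹ * k) = 0 := by
      rw [hrel, mul_zero, zero_mul]
    rw [Finset.mul_sum, Finset.sum_mul] at h1
    rw [← h1]
    refine Finset.sum_congr rfl fun j _ => ?_
    rw [mul_smul_comm, smul_mul_assoc, ← map_mul, ← map_mul]
    congr 2
    simp only [g', mul_assoc]
  have hEE : E ⬝ᵥ E = 1 := by rw [hE, single_one_dotProduct, Pi.single_eq_same]
  have hg'E : ∀ j, mt (g' j) *ᵥ E = mt k⁻¹ *ᵥ (mt (g j * (g j0)⁻¹) *ᵥ w) := by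
    intro j
    simp only [g', map_mul, ← mulVec_mulVec, hkE]
  have hkk : ∀ v, mt k *ᵥ (mt k⁻¹ *ᵥ v) = v := by
    intro v
    rw [mulVec_mulVec, ← map_mul, mul_inv_cancel, map_one, one_mulVec]
  have hfE : ∀ v, E ⬝ᵥ (mt k⁻¹ *ᵥ v) = f ⬝ᵥ v := by
    intro v
    rw [← hfk, ← dotProduct_mulVec, hkk]
  have hf' : ∀ j, E ⬝ᵥ (mt (g' j) *ᵥ E) ≠ 0 := by
    intro j
    rw [hg'E, hfE]
    exact hf j
  have hprop : ∀ i j, i ≠ j → ∀ c : F, mt (g' i) *ᵥ E ≠ c • (mt (g' j) *ᵥ E) := by
    intro i j hij c hc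
    rw [hg'E, hg'E, ← mulVec_smul] at hc
    have h1 := congrArg (fun v => mt k *ᵥ v) hc
    simp only [hkk] at h1
    exact hw i j hij c h1
  have hc : ∀ j, j ≠ j0 → mt (g' j) 1 0 ≠ 0 := by
    intro j hj h0
    apply hprop j j0 hj (mt (g' j) 0 0)
    rw [hg0, map_one, one_mulVec, hE]
    ext i
    fin_cases i
    · simp
    · simp [h0]
  obtain ⟨θ, hθ, hθ1⟩ := step3 (P := P) ρ g' a hEE j0 hg0 (ha j0) hf' hprop hrel'
  have hne : Nonempty θ.coeff.support := by
    rw [nonempty_subtype]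
    obtain ⟨s, hs⟩ : θ.coeff.support.Nonempty := by
      rw [Finset.nonempty_iff_ne_empty, Ne, Finsupp.support_eq_empty]
      intro h0
      exact hθ (by ext a; simp [h0])
    exact ⟨s, hs⟩
  have hTL : ∀ v : Fin 2 → F, E ⬝ᵥ v = 0 → T v E = Lm (v 1) := fun v h => T_eq_Lm h
  have hTU : ∀ v : Fin 2 → F, v ⬝ᵥ E = 0 → T E v = Um (v 1) := fun v h => T_eq_Um h
  have hθ2 : ∑ i : θ.coeff.support, θ.coeff i •
      (ρ (Lm (((i : perp E × perp E).1 : Fin 2 → F) 1)) *
        ρ (Um (((i : perp E × perp E).2 : Fin 2 → F) 1))) = 0 := by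
    rw [act1, biAct_apply, sum_support] at hθ1
    rw [← hθ1]
    refine Finset.sum_congr rfl fun i _ => ?_
    rw [mul_one, hTL _ (perp_left _), hTU _ (perp_right _)]
  obtain ⟨β, hβ, hβ0⟩ := sl2_upper ρ (fun i : θ.coeff.support => θ.coeff i)
    (fun i => ((i : perp E × perp E).1 : Fin 2 → F) 1)
    (fun i => ((i : perp E × perp E).2 : Fin 2 → F) 1)
    (fun i => Finsupp.mem_support_iff.1 i.2) (by
      intro i j hij
      by_contra hcon
      push Not at hcon
      apply hij
      apply Subtype.ext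
      have hz : ∀ v : perp E, (v : Fin 2 → F) 0 = 0 := by
        intro v
        have h : (Pi.single 0 (1 : F) : Fin 2 → F) ⬝ᵥ (v : Fin 2 → F) = 0 := perp_left v
        rwa [single_one_dotProduct] at h
      apply Prod.ext
      · apply Subtype.ext
        ext r
        fin_cases r
        · exact (hz _).trans (hz _).symm
        · exact sub_eq_zero.1 hcon.1
      · apply Subtype.ext
        ext r
        fin_cases r
        · exact (hz _).trans (hz _).symm
        · exact sub_eq_zero.1 hcon.2) hθ2 g' a j0 hg0 (ha j0) hc hrel'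
  have hU : ∀ z : F, ρ (Um z) = 1 := by
    intro z
    have h1 : ch P z - 1 ∈ RingHom.ker (uAct P ρ) := by
      apply step5_sq h2 hchar
      · intro hbot
        have : β ∈ RingHom.ker (uAct P ρ) := hβ0
        rw [hbot] at this
        exact hβ this
      · intro s hs θ' hθ'
        have h3 : uAct P ρ θ' = 0 := hθ'
        have h4 : ρ (Dm (Units.mk0 s hs)) * uAct P ρ θ' =
            uAct P ρ (scale P (s ^ 2) θ') * ρ (Dm (Units.mk0 s hs)) := by
          rw [eq_sum_ch θ']
          simp only [map_sum, map_smul, scale_ch, uAct_ch, Finset.mul_sum, Finset.sum_mul]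
          refine Finset.sum_congr rfl fun i _ => ?_
          rw [mul_smul_comm, smul_mul_assoc, ← map_mul, ← map_mul, Dm_Um]
          rfl
        rw [h3, mul_zero] at h4
        exact cancel_right ρ h4.symm
    have h5 : uAct P ρ (ch P z - 1) = 0 := h1
    rw [map_sub, map_one, uAct_ch] at h5
    exact sub_eq_zero.1 h5
  let W : SpecialLinearGroup (Fin 2) F := ⟨!![0, -1; 1, 0], by simp [Matrix.det_fin_two_of]⟩
  have hLU : ∀ z : F, W * Um (-z) = Lm z * W := by
    intro z
    apply SL_ext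
    change !![0, -1; 1, 0] * !![1, -z; 0, 1] = !![1, 0; z, 1] * !![0, -1; 1, 0]
    rw [Matrix.mul_fin_two, Matrix.mul_fin_two]
    simp
  have hL : ∀ z : F, ρ (Lm z) = 1 := by
    intro z
    have h1 := congrArg ρ (hLU z)
    rw [map_mul, map_mul, hU, mul_one] at h1
    have h3 : (ρ (Lm z) - 1) * ρ W = 0 := by rw [sub_mul, one_mul, ← h1, sub_self]
    exact sub_eq_zero.1 (cancel_right ρ h3)
  refine SL2.transvection_induction (fun g => ρ g = 1) ?_ ?_ x
  · intro i j hij c
    fin_cases i <;> fin_cases j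
    · exact absurd rfl hij
    · have : SpecialLinearGroup.transvection hij c = Um c := by
        apply SL_ext
        change Matrix.transvection 0 1 c = _
        rw [mt_Um]
        ext i j
        fin_cases i <;> fin_cases j <;> simp [Matrix.transvection]
      rw [this]; exact hU c
    · have : SpecialLinearGroup.transvection hij c = Lm c := by
        apply SL_ext
        change Matrix.transvection 1 0 c = _
        rw [mt_Lm]
        ext i j
        fin_cases i <;> fin_cases j <;> simp [Matrix.transvection]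
      rw [this]; exact hL c
    · exact absurd rfl hij
  · intro A B hA hB
    rw [map_mul, hA, hB, mul_one]

end Pool.Agent.Helper33.Aug
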