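import Mathlib

/-!
# Transvections `1 + x ⊗ f` in `SL_n(F)`
-/

open Matrix

namespace Pool.Agent.Helper33.Aug

variable {F ι : Type*} [Field F] [Fintype ι] [DecidableEq ι]

/-- The underlying matrix. -/
def mt : SpecialLinearGroup ι F →* Matrix ι ι F := SpecialLinearGroup.coeMonoidHom

lemma SL_ext {A B : SpecialLinearGroup ι F} (h : mt A = mt B) : A = B :=
  Subtype.ext h

lemma det_one_add_vmv (x f : ι → F) : (1 + vecMulVec x f).det = 1 + f ⬝ᵥ x := by
  rw [vecMulVec_eq (ι := Unit)]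
  exact det_one_add_replicateCol_mul_replicateRow x f

open Classical in
/-- The transvection `v ↦ v + (f v) x` (it is `1` if `f x ≠ 0`). -/
noncomputable def T (x f : ι → F) : SpecialLinearGroup ι F :=
  if h : f ⬝ᵥ x = 0 then ⟨1 + vecMulVec x f, by rw [det_one_add_vmv, h, add_zero]⟩ else 1

lemma coe_T {x f : ι → F} (h : f ⬝ᵥ x = 0) :
    mt (T x f) = 1 + vecMulVec x f := by
  rw [T, dif_pos h]
  rfl

lemma T_zero_left (f : ι → F) : T (0 : ι → F) f = 1 := by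
  apply SL_ext
  rw [coe_T (by simp)]
  simp

lemma T_zero_right (x : ι → F) : T x (0 : ι → F) = 1 := by
  apply SL_ext
  rw [coe_T (by simp)]
  simp

lemma T_add_left {x x' f : ι → F} (h : f ⬝ᵥ x = 0) (h' : f ⬝ᵥ x' = 0) :
    T (x + x') f = T x f * T x' f := by
  apply SL_ext
  rw [map_mul, coe_T h, coe_T h', coe_T (by rw [dotProduct_add, h, h', add_zero])]
  rw [add_mul, mul_add, mul_add, one_mul, one_mul, mul_one, vecMulVec_mul_vecMulVec, h',
    add_vecMulVec, zero_smul, vecMulVec_zero, add_zero]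
  abel

lemma T_add_right {x f f' : ι → F} (h : f ⬝ᵥ x = 0) (h' : f' ⬝ᵥ x = 0) :
    T x (f + f') = T x f * T x f' := by
  apply SL_ext
  rw [map_mul, coe_T h, coe_T h', coe_T (by rw [add_dotProduct, h, h', add_zero])]
  rw [add_mul, mul_add, mul_add, one_mul, one_mul, mul_one, vecMulVec_mul_vecMulVec, h,
    vecMulVec_add, zero_smul, vecMulVec_zero, add_zero]
  abel

lemma T_smul {x f : ι → F} (h : f ⬝ᵥ x = 0) (c : F) : T (c • x) f = T x (c • f) := by
  apply SL_ext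
  rw [coe_T (by rw [dotProduct_smul, h, smul_zero]), coe_T (by rw [smul_dotProduct, h, smul_zero]),
    smul_vecMulVec, vecMulVec_smul]

/-- The intertwining rule. -/
lemma mul_T {x f x' f' : ι → F} (g : SpecialLinearGroup ι F) (h : f ⬝ᵥ x = 0)
    (h' : f' ⬝ᵥ x' = 0)
    (H : vecMulVec (mt g *ᵥ x) f = vecMulVec x' (f' ᵥ* mt g)) :
    g * T x f = T x' f' * g := by
  apply SL_ext
  rw [map_mul, map_mul, coe_T h, coe_T h', mul_add, add_mul,
    mul_one, one_mul, mul_vecMulVec, vecMulVec_mul, H]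

lemma T_mulVec {x f : ι → F} (h : f ⬝ᵥ x = 0) (v : ι → F) :
    mt (T x f) *ᵥ v = v + (f ⬝ᵥ v) • x := by
  rw [coe_T h, add_mulVec, one_mulVec, vecMulVec_mulVec, op_smul_eq_smul]

lemma vecMul_T {x f : ι → F} (h : f ⬝ᵥ x = 0) (v : ι → F) :
    v ᵥ* mt (T x f) = v + (v ⬝ᵥ x) • f := by
  rw [coe_T h, vecMul_add, vecMul_one, vecMul_vecMulVec]

lemma T_mul_T_neg {x f : ι → F} (h : f ⬝ᵥ x = 0) : T x f * T (-x) f = 1 := by
  rw [← T_add_left h (by rw [dotProduct_neg, h, neg_zero]), add_neg_cancel, T_zero_left]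

lemma T_neg_mul_T {x f : ι → F} (h : f ⬝ᵥ x = 0) : T (-x) f * T x f = 1 := by
  rw [← T_add_left (by rw [dotProduct_neg, h, neg_zero]) h, neg_add_cancel, T_zero_left]

/-- Two transvections with the same functional commute. -/
lemma T_comm_left {x x' f : ι → F} (h : f ⬝ᵥ x = 0) (h' : f ⬝ᵥ x' = 0) :
    T x f * T x' f = T x' f * T x f := by
  rw [← T_add_left h h', ← T_add_left h' h, add_comm]

lemma T_comm_right {x f f' : ι → F} (h : f ⬝ᵥ x = 0) (h' : f' ⬝ᵥ x = 0) :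
    T x f * T x f' = T x f' * T x f := by
  rw [← T_add_right h h', ← T_add_right h' h, add_comm]

open Classical in
/-- The element `s⁻¹ (1 + (s ^ n - 1) w ⊗ f)`, for `f w = 1`. -/
noncomputable def zz (w f : ι → F) (s : Fˣ) : SpecialLinearGroup ι F :=
  if h : f ⬝ᵥ w = 1 then
    ⟨(s : F)⁻¹ • (1 + ((s : F) ^ Fintype.card ι - 1) • vecMulVec w f), by
      rw [det_smul, ← smul_vecMulVec, det_one_add_vmv, dotProduct_smul, h, smul_eq_mul, mul_one,
        add_sub_cancel, ← mul_pow, inv_mul_cancel₀ s.ne_zero, one_pow]⟩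
  else 1

lemma coe_zz {w f : ι → F} (h : f ⬝ᵥ w = 1) (s : Fˣ) : mt (zz w f s) =
    (s : F)⁻¹ • (1 + ((s : F) ^ Fintype.card ι - 1) • vecMulVec w f) := by
  rw [zz, dif_pos h]
  rfl

lemma zz_mulVec {w f : ι → F} (h : f ⬝ᵥ w = 1) (s : Fˣ) (v : ι → F) :
    mt (zz w f s) *ᵥ v =
      (s : F)⁻¹ • (v + (((s : F) ^ Fintype.card ι - 1) * (f ⬝ᵥ v)) • w) := by
  rw [coe_zz h, smul_mulVec, add_mulVec, one_mulVec, smul_mulVec, vecMulVec_mulVec]
  simp [smul_smul]

lemma vecMul_zz {w f : ι → F} (h : f ⬝ᵥ w = 1) (s : Fˣ) (v : ι → F) :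
    v ᵥ* mt (zz w f s) =
      (s : F)⁻¹ • (v + (((s : F) ^ Fintype.card ι - 1) * (v ⬝ᵥ w)) • f) := by
  rw [coe_zz h, vecMul_smul, vecMul_add, vecMul_one, vecMul_smul, vecMul_vecMulVec]
  simp [smul_smul]

lemma zz_comm {w f : ι → F} (h : f ⬝ᵥ w = 1) (s : Fˣ) {l : SpecialLinearGroup ι F} {a : F}
    (h1 : mt l *ᵥ w = a • w) (h2 : f ᵥ* mt l = a • f) :
    zz w f s * l = l * zz w f s := by
  apply SL_ext
  rw [map_mul, map_mul, coe_zz h]
  rw [smul_mul_assoc, mul_smul_comm, add_mul, mul_add, one_mul, mul_one, smul_mul_assoc,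
    mul_smul_comm, vecMulVec_mul, mul_vecMulVec, h1, h2, smul_vecMulVec, vecMulVec_smul]

lemma zz_T_left {w f x : ι → F} (h : f ⬝ᵥ w = 1) (hx : f ⬝ᵥ x = 0) (s : Fˣ) :
    zz w f s * T x f = T (((s : F) ^ Fintype.card ι)⁻¹ • x) f * zz w f s := by
  apply mul_T _ hx (by rw [dotProduct_smul, hx, smul_zero])
  rw [zz_mulVec h, vecMul_zz h, hx, h]
  have hs : (s : F) ≠ 0 := s.ne_zero
  have e : f + (((s : F) ^ Fintype.card ι - 1) * 1) • f = ((s : F) ^ Fintype.card ι) • f := by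
    rw [mul_one, sub_smul, one_smul]; abel
  rw [e, mul_zero, zero_smul, add_zero, smul_vecMulVec, vecMulVec_smul, vecMulVec_smul,
    smul_vecMulVec, smul_smul, smul_smul]
  congr 1
  field_simp

lemma zz_T_right {w f y : ι → F} (h : f ⬝ᵥ w = 1) (hy : y ⬝ᵥ w = 0) (s : Fˣ) :
    zz w f s * T w y = T w (((s : F) ^ Fintype.card ι) • y) * zz w f s := by
  apply mul_T _ hy (by rw [smul_dotProduct, hy, smul_zero])
  rw [zz_mulVec h, smul_vecMul, vecMul_zz h, hy, h]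
  have hs : (s : F) ≠ 0 := s.ne_zero
  have e : w + (((s : F) ^ Fintype.card ι - 1) * 1) • w = ((s : F) ^ Fintype.card ι) • w := by
    rw [mul_one, sub_smul, one_smul]; abel
  rw [e, mul_zero, zero_smul, add_zero, smul_vecMulVec, smul_vecMulVec, vecMulVec_smul,
    vecMulVec_smul, smul_smul, smul_smul]
  congr 1
  ring

attribute [irreducible] T zz

end Pool.Agent.Helper33.Aug
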