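import Pool.Agent.Helper33.Aug.Act
import Pool.Agent.Helper33.Aug.Trans

/-!
# Step 3: from an arbitrary relation to a relation in `T (x, f) T (w, y)`
-/

open Matrix

namespace Pool.Agent.Helper33.Aug

variable {F ι : Type*} [Field F] [Fintype ι] [DecidableEq ι]

/-- The vectors killed by `f`. -/
def perp (f : ι → F) : Submodule F (ι → F) where
  carrier := {x | f ⬝ᵥ x = 0}
  add_mem' := by
    intro a b ha hb
    have ha' : f ⬝ᵥ a = 0 := ha
    have hb' : f ⬝ᵥ b = 0 := hb
    change f ⬝ᵥ (a + b) = 0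
    rw [dotProduct_add, ha', hb', add_zero]
  zero_mem' := by
    change f ⬝ᵥ 0 = 0
    exact dotProduct_zero f
  smul_mem' := by
    intro c a ha
    have ha' : f ⬝ᵥ a = 0 := ha
    change f ⬝ᵥ (c • a) = 0
    rw [dotProduct_smul, ha', smul_zero]

omit [DecidableEq ι] in
lemma mem_perp {f x : ι → F} : x ∈ perp f ↔ f ⬝ᵥ x = 0 := Iff.rfl

omit [DecidableEq ι] in
lemma perp_left {f : ι → F} (x : perp f) : f ⬝ᵥ (x : ι → F) = 0 := x.2

omit [DecidableEq ι] in
lemma perp_right {w : ι → F} (y : perp w) : (y : ι → F) ⬝ᵥ w = 0 := by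
  rw [dotProduct_comm]; exact y.2

variable {P R : Type*} [Field P] [Ring R] [Algebra P R] (ρ : SpecialLinearGroup ι F →* R)

/-- The action of `P[ker f × ker w]` on `R`, `[x, y] N = ρ (T x f) N ρ (T w y)`. -/
noncomputable def act1 (P : Type*) {R : Type*} [Field P] [Ring R] [Algebra P R]
    (ρ : SpecialLinearGroup ι F →* R) (w f : ι → F) :
    AddMonoidAlgebra P (perp f × perp w) →ₐ[P] Module.End P R :=
  biAct (fun x : perp f => ρ (T (x : ι → F) f)) (fun y : perp w => ρ (T w (y : ι → F)))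
    (by simp [T_zero_left])
    (fun a b => by
      rw [← map_mul, ← T_add_left (perp_left a) (perp_left b)]; rfl)
    (by simp [T_zero_right])
    (fun a b => by
      rw [← map_mul, ← T_add_right (perp_right a) (perp_right b)]; rfl)

lemma finite_pow_eq (n : ℕ) (hn : 0 < n) (b : F) : {s : Fˣ | ((s : F) ^ n) = b}.Finite := by
  classical
  have h : {x : F | x ^ n = b}.Finite := by
    refine Set.Finite.subset (Polynomial.nthRoots n b).toFinset.finite_toSet fun x hx => ?_
    simpa [Polynomial.mem_nthRoots hn] using hx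
  exact Set.Finite.preimage (f := fun s : Fˣ => (s : F)) (Units.val_injective.injOn) h

lemma infinite_units (F : Type*) [Field F] [Infinite F] : Infinite Fˣ := by
  by_contra h
  rw [not_infinite_iff_finite] at h
  have h1 : (Set.univ : Set F) ⊆ insert 0 (Set.range (fun s : Fˣ => (s : F))) := by
    intro x _
    by_cases hx : x = 0
    · exact Or.inl hx
    · exact Or.inr ⟨Units.mk0 x hx, rfl⟩
  exact Set.infinite_univ (((Set.finite_range _).insert 0).subset h1)

theorem step3 [Infinite F] {J : Type*} [Fintype J] (g : J → SpecialLinearGroup ι F) (a : J → P)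
    {w f : ι → F} (hwf : f ⬝ᵥ w = 1) (j0 : J) (hg0 : g j0 = 1) (ha0 : a j0 ≠ 0)
    (hgw : ∀ j, f ⬝ᵥ (mt (g j) *ᵥ w) ≠ 0)
    (hprop : ∀ i j, i ≠ j → ∀ c : F, mt (g i) *ᵥ w ≠ c • (mt (g j) *ᵥ w))
    (hrel : ∑ j, a j • ρ (g j) = 0) :
    ∃ θ : AddMonoidAlgebra P (perp f × perp w), θ ≠ 0 ∧ act1 P ρ w f θ 1 = 0 := by
  classical
  have := infinite_units F
  have hn : 0 < Fintype.card ι := by
    rw [Fintype.card_pos_iff]
    by_contra h
    rw [not_nonempty_iff] at h
    rw [Matrix.dotProduct_of_isEmpty] at hwf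
    exact zero_ne_one hwf
  set n := Fintype.card ι with hnd
  set b : J → F := fun j => f ⬝ᵥ (mt (g j) *ᵥ w) with hb
  let xv : J → ι → F := fun j => (b j)⁻¹ • (mt (g j) *ᵥ w) - w
  let yv : J → ι → F := fun j => (b j)⁻¹ • (f ᵥ* mt (g j)) - f
  have hx : ∀ j, f ⬝ᵥ xv j = 0 := by
    intro j
    simp only [xv]
    rw [dotProduct_sub, dotProduct_smul, hwf, smul_eq_mul, inv_mul_cancel₀ (hgw j), sub_self]
  have hy : ∀ j, yv j ⬝ᵥ w = 0 := by
    intro j
    simp only [yv]
    rw [sub_dotProduct, smul_dotProduct, hwf, smul_eq_mul, ← dotProduct_mulVec,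
      inv_mul_cancel₀ (hgw j), sub_self]
  have hx' : ∀ j, f ⬝ᵥ (-xv j) = 0 := fun j => by rw [dotProduct_neg, hx, neg_zero]
  have hy' : ∀ j, (-yv j) ⬝ᵥ w = 0 := fun j => by rw [neg_dotProduct, hy, neg_zero]
  let x : J → perp f := fun j => ⟨xv j, hx j⟩
  let y : J → perp w := fun j => ⟨yv j, by rw [mem_perp, dotProduct_comm]; exact hy j⟩
  let l : J → SpecialLinearGroup ι F := fun j => T (-xv j) f * g j * T w (-yv j)
  have hl1 : ∀ j, mt (l j) *ᵥ w = b j • w := by
    intro j
    simp only [l, map_mul]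
    rw [← mulVec_mulVec, ← mulVec_mulVec, T_mulVec (hy' j), hy' j, zero_smul, add_zero,
      T_mulVec (hx' j)]
    change _ + b j • _ = _
    simp only [xv]
    rw [smul_neg, smul_sub, smul_smul, mul_inv_cancel₀ (hgw j), one_smul]
    abel
  have hl2 : ∀ j, f ᵥ* mt (l j) = b j • f := by
    intro j
    simp only [l, map_mul]
    rw [← vecMul_vecMul, ← vecMul_vecMul, vecMul_T (hx' j), hx' j, zero_smul, add_zero,
      vecMul_T (hy' j), ← dotProduct_mulVec]
    change _ + b j • _ = _
    simp only [yv]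
    rw [smul_neg, smul_sub, smul_smul, mul_inv_cancel₀ (hgw j), one_smul]
    abel
  have hgl : ∀ j, g j = T (xv j) f * l j * T w (yv j) := by
    intro j
    have e1 := T_mul_T_neg (hx j)
    have e2 : T w (-yv j) * T w (yv j) = 1 := by
      rw [← T_add_right (hy' j) (hy j), neg_add_cancel, T_zero_right]
    simp only [l]
    calc g j = (T (xv j) f * T (-xv j) f) * g j * (T w (-yv j) * T w (yv j)) := by
          rw [e1, e2, one_mul, mul_one]
      _ = _ := by simp only [mul_assoc]
  -- the twisted relation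
  let χ : J → Fˣ → perp f × perp w := fun j s =>
    ((((s : F) ^ n)⁻¹) • x j, ((s : F) ^ n) • y j)
  have hχ : ∀ i j, i ≠ j → ∀ c : perp f × perp w, {s | χ i s - χ j s = c}.Finite := by
    intro i j hij c
    have hne : xv i - xv j ≠ 0 := by
      intro h
      apply hprop i j hij (b i * (b j)⁻¹)
      have h1 : (b i)⁻¹ • (mt (g i) *ᵥ w) = (b j)⁻¹ • (mt (g j) *ᵥ w) := by
        have := sub_eq_zero.1 h
        simpa [xv] using this
      rw [mul_smul, ← h1, smul_smul, mul_inv_cancel₀ (hgw i), one_smul]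
    obtain ⟨k, hk⟩ := Function.ne_iff.1 hne
    refine (finite_pow_eq n hn (((xv i - xv j) k) * ((c.1 : ι → F) k)⁻¹)).subset fun s hs => ?_
    have hs' : χ i s - χ j s = c := hs
    have h1 : ((χ i s).1 : ι → F) - ((χ j s).1 : ι → F) = (c.1 : ι → F) := by
      have := congrArg (fun z : perp f × perp w => (z.1 : ι → F)) hs'
      simpa using this
    have h2 := congrFun h1 k
    have h3 : ((s : F) ^ n)⁻¹ * (xv i - xv j) k = (c.1 : ι → F) k := by
      rw [← h2]
      simp [χ, x, mul_sub]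
    change (s : F) ^ n = _
    rw [← h3, mul_inv, inv_inv]
    have hk' : (xv i - xv j) k ≠ 0 := hk
    field_simp
  have hrel' : ∀ s : Fˣ, ∑ j, act1 P ρ w f (ch P (χ j s)) (a j • ρ (l j)) = 0 := by
    intro s
    have key : ∀ j, zz w f s * g j =
        (T ((((s : F) ^ n)⁻¹) • xv j) f * l j * T w (((s : F) ^ n) • yv j)) * zz w f s := by
      intro j
      conv_lhs => rw [hgl j]
      rw [mul_assoc (T (xv j) f), ← mul_assoc, zz_T_left hwf (hx j), mul_assoc, ← mul_assoc (zz w f s),
        zz_comm hwf s (hl1 j) (hl2 j), mul_assoc (l j), zz_T_right hwf (hy j)]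
      simp only [mul_assoc]
      rfl
    have h1 : ρ (zz w f s) * ∑ j, a j • ρ (g j) = 0 := by rw [hrel, mul_zero]
    have h2 : ρ (zz w f s) * ∑ j, a j • ρ (g j) =
        (∑ j, act1 P ρ w f (ch P (χ j s)) (a j • ρ (l j))) * ρ (zz w f s) := by
      rw [Finset.mul_sum, Finset.sum_mul]
      refine Finset.sum_congr rfl fun j _ => ?_
      rw [mul_smul_comm, ← map_mul, key j, map_smul, smul_mul_assoc, act1, biAct_ch, map_mul,
        map_mul, map_mul]
      rfl
    rw [h2] at h1
    have h3 := congrArg (fun z => z * ρ (zz w f s)⁻¹) h1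
    simpa [mul_assoc, ← map_mul] using h3
  obtain ⟨θ, hθ, hθ'⟩ := elim (T := Fˣ) (act1 P ρ w f) χ hχ (fun j => a j • ρ (l j)) hrel'
  refine ⟨θ, hθ, ?_⟩
  have h0 := hθ' j0
  have hb0 : b j0 = 1 := by
    simp only [hb, hg0, map_one, one_mulVec, hwf]
  have hl0 : l j0 = 1 := by
    have e1 : xv j0 = 0 := by
      simp only [xv, hb0, hg0, map_one, one_mulVec, inv_one, one_smul, sub_self]
    have e2 : yv j0 = 0 := by
      simp only [yv, hb0, hg0, map_one, vecMul_one, inv_one, one_smul, sub_self]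
    simp only [l, e1, e2, neg_zero, T_zero_left, T_zero_right, hg0, mul_one]
  simp only [hl0, map_one, map_smul] at h0
  exact (smul_eq_zero.1 h0).resolve_left ha0

end Pool.Agent.Helper33.Aug
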