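import Pool.Agent.Helper33.Aug.Step3
import Pool.Agent.Helper33.Aug.Generic

/-!
# Step 4: down to a relation on a root subgroup
-/

open Matrix

namespace Pool.Agent.Helper33.Aug

variable {F ι : Type*} [Field F] [Fintype ι] [DecidableEq ι]

/-- The action of `P[F × F]`: `[c, d] N = ρ (T (c e) f) N ρ (T w (d φ))`. -/
noncomputable def act2 (P : Type*) {R : Type*} [Field P] [Ring R] [Algebra P R]
    (ρ : SpecialLinearGroup ι F →* R) {w f e φ : ι → F} (he : f ⬝ᵥ e = 0) (hφw : φ ⬝ᵥ w = 0) :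
    AddMonoidAlgebra P (F × F) →ₐ[P] Module.End P R :=
  biAct (fun c : F => ρ (T (c • e) f)) (fun d : F => ρ (T w (d • φ)))
    (by simp [T_zero_left])
    (fun a b => by
      rw [← map_mul, ← T_add_left (by rw [dotProduct_smul, he, smul_zero])
        (by rw [dotProduct_smul, he, smul_zero]), add_smul])
    (by simp [T_zero_right])
    (fun a b => by
      rw [← map_mul, ← T_add_right (by rw [smul_dotProduct, hφw, smul_zero])
        (by rw [smul_dotProduct, hφw, smul_zero]), add_smul])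

/-- The algebra map `P[F] → R`, `[z] ↦ ρ (T e (z φ))`. -/
noncomputable def zAct (P : Type*) {R : Type*} [Field P] [Ring R] [Algebra P R]
    (ρ : SpecialLinearGroup ι F →* R) {e φ : ι → F} (hφe : φ ⬝ᵥ e = 0) :
    AddMonoidAlgebra P F →ₐ[P] R :=
  lAct (fun z : F => ρ (T e (z • φ)))
    (by simp [T_zero_right])
    (fun a b => by
      rw [← map_mul, ← T_add_right (by rw [smul_dotProduct, hφe, smul_zero])
        (by rw [smul_dotProduct, hφe, smul_zero]), add_smul])

variable {P R : Type*} [Field P] [Ring R] [Algebra P R] (ρ : SpecialLinearGroup ι F →* R)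

lemma rho_mul_inv (g : SpecialLinearGroup ι F) : ρ g * ρ g⁻¹ = 1 := by
  rw [← map_mul, mul_inv_cancel, map_one]

lemma rho_inv_mul (g : SpecialLinearGroup ι F) : ρ g⁻¹ * ρ g = 1 := by
  rw [← map_mul, inv_mul_cancel, map_one]

lemma cancel_right {g : SpecialLinearGroup ι F} {N : R} (h : N * ρ g = 0) : N = 0 := by
  have h3 := congrArg (fun z => z * ρ g⁻¹) h
  simpa [mul_assoc, rho_mul_inv] using h3

lemma cancel_left {g : SpecialLinearGroup ι F} {N : R} (h : ρ g * N = 0) : N = 0 := by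
  have h3 := congrArg (fun z => ρ g⁻¹ * z) h
  simpa [← mul_assoc, rho_inv_mul] using h3

theorem step4a [Infinite F] {w f e φ : ι → F} (he : f ⬝ᵥ e = 0)
    (hφw : φ ⬝ᵥ w = 0) (hφe : φ ⬝ᵥ e = 0) (θ : AddMonoidAlgebra P (perp f × perp w)) (hθ : θ ≠ 0)
    (h : act1 P ρ w f θ 1 = 0)
    (hgen : ∀ a ∈ θ.coeff.support, ∀ b ∈ θ.coeff.support, a ≠ b →
      φ ⬝ᵥ ((a.1 : ι → F) - (b.1 : ι → F)) ≠ 0 ∨ ((a.2 : ι → F) - (b.2 : ι → F)) ⬝ᵥ e ≠ 0) :
    ∃ θ₁ : AddMonoidAlgebra P (F × F), θ₁ ≠ 0 ∧ act2 P ρ he hφw θ₁ 1 = 0 := by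
  classical
  let x : θ.coeff.support → R := fun a =>
    θ.coeff a • (ρ (T ((a : perp f × perp w).1 : ι → F) f) *
      ρ (T w ((a : perp f × perp w).2 : ι → F)))
  have hx : ∑ a, x a = 0 := by
    rw [act1, biAct_apply, sum_support] at h
    simpa [x] using h
  let χ : θ.coeff.support → F → F × F := fun a t =>
    (t * (φ ⬝ᵥ ((a : perp f × perp w).1 : ι → F)), -(t * (((a : perp f × perp w).2 : ι → F) ⬝ᵥ e)))
  have hχ : ∀ i j, i ≠ j → ∀ c : F × F, {t | χ i t - χ j t = c}.Finite := by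
    intro i j hij c
    have hne : ((i : perp f × perp w)) ≠ (j : perp f × perp w) := fun h => hij (Subtype.ext h)
    rcases hgen _ i.2 _ j.2 hne with h1 | h1
    · refine (Set.finite_singleton
        (c.1 * (φ ⬝ᵥ (((i : perp f × perp w).1 : ι → F) - ((j : perp f × perp w).1 : ι → F)))⁻¹)).subset
        fun t ht => ?_
      have ht' : χ i t - χ j t = c := ht
      have h2 : t * (φ ⬝ᵥ (((i : perp f × perp w).1 : ι → F) -
          ((j : perp f × perp w).1 : ι → F))) = c.1 := by
        rw [← ht', dotProduct_sub, mul_sub]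
        rfl
      rw [Set.mem_singleton_iff, ← h2, mul_assoc, mul_inv_cancel₀ h1, mul_one]
    · refine (Set.finite_singleton
        (-c.2 * ((((i : perp f × perp w).2 : ι → F) - ((j : perp f × perp w).2 : ι → F)) ⬝ᵥ e)⁻¹)).subset
        fun t ht => ?_
      have ht' : χ i t - χ j t = c := ht
      have h2 : t * ((((i : perp f × perp w).2 : ι → F) -
          ((j : perp f × perp w).2 : ι → F)) ⬝ᵥ e) = -c.2 := by
        rw [← ht', sub_dotProduct, mul_sub]
        change _ = -(-(t * _) - -(t * _))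
        ring
      rw [Set.mem_singleton_iff, ← h2, mul_assoc, mul_inv_cancel₀ h1, mul_one]
  have hrel : ∀ t : F, ∑ j, act2 P ρ he hφw (ch P (χ j t)) (x j) = 0 := by
    intro t
    have htφe : (t • φ) ⬝ᵥ e = 0 := by rw [smul_dotProduct, hφe, smul_zero]
    have h1 : ρ (T e (t • φ)) * ∑ a, x a = 0 := by rw [hx, mul_zero]
    have h2 : ρ (T e (t • φ)) * ∑ a, x a =
        (∑ j, act2 P ρ he hφw (ch P (χ j t)) (x j)) * ρ (T e (t • φ)) := by
      rw [Finset.mul_sum, Finset.sum_mul]
      refine Finset.sum_congr rfl fun j _ => ?_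
      set u : ι → F := ((j : perp f × perp w).1 : ι → F) with hu
      set v : ι → F := ((j : perp f × perp w).2 : ι → F) with hv
      have hfu : f ⬝ᵥ u = 0 := perp_left _
      have hvw : v ⬝ᵥ w = 0 := perp_right _
      have hfe' : ∀ c : F, f ⬝ᵥ (c • e) = 0 := fun c => by rw [dotProduct_smul, he, smul_zero]
      have hφw' : ∀ c : F, (c • φ) ⬝ᵥ w = 0 := fun c => by rw [smul_dotProduct, hφw, smul_zero]
      have k1 : T e (t • φ) * T u f = T ((t * (φ ⬝ᵥ u)) • e) f * T u f * T e (t • φ) := by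
        rw [← T_add_left (hfe' _) hfu]
        apply mul_T _ hfu (by rw [dotProduct_add, hfe', hfu, add_zero])
        rw [T_mulVec htφe, vecMul_T htφe, he, zero_smul, add_zero, smul_dotProduct, smul_eq_mul,
          add_comm]
      have k2 : T e (t • φ) * T w v = T w v * T w ((-(t * (v ⬝ᵥ e))) • φ) * T e (t • φ) := by
        rw [← T_add_right hvw (hφw' _)]
        apply mul_T _ hvw (by rw [add_dotProduct, hφw', hvw, add_zero])
        rw [T_mulVec htφe, vecMul_T htφe, hφw', zero_smul, add_zero, add_dotProduct,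
          smul_dotProduct, hφe, smul_zero, add_zero, add_assoc, smul_smul, ← add_smul]
        congr 1
        ring_nf
        simp
      have e1 : x j = θ.coeff j • (ρ (T u f) * ρ (T w v)) := rfl
      have e2 : χ j t = (t * (φ ⬝ᵥ u), -(t * (v ⬝ᵥ e))) := rfl
      rw [e1, e2, map_smul, mul_smul_comm, smul_mul_assoc, act2, biAct_ch]
      congr 1
      simp only [← map_mul]
      congr 1
      rw [← mul_assoc, k1, mul_assoc, k2]
      simp only [mul_assoc]
    rw [h2] at h1
    exact cancel_right ρ h1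
  obtain ⟨θ₁, hθ₁, h₁⟩ := elim (T := F) (act2 P ρ he hφw) χ hχ x hrel
  refine ⟨θ₁, hθ₁, ?_⟩
  obtain ⟨j, hj⟩ : θ.coeff.support.Nonempty := by
    rw [Finset.nonempty_iff_ne_empty, Ne, Finsupp.support_eq_empty]
    intro h0
    exact hθ (by ext a; simp [h0])
  have h2 := h₁ ⟨j, hj⟩
  have hjne : θ.coeff j ≠ 0 := Finsupp.mem_support_iff.1 hj
  simp only [x, map_smul] at h2
  have h3 := (smul_eq_zero.1 h2).resolve_left hjne
  rw [act2, biAct_mul] at h3
  · exact cancel_left ρ (cancel_right ρ h3)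
  · intro c
    rw [← map_mul, ← map_mul, T_comm_left (by rw [dotProduct_smul, he, smul_zero]) (perp_left _)]
  · intro c
    rw [← map_mul, ← map_mul, T_comm_right (perp_right _) (by rw [smul_dotProduct, hφw, smul_zero])]

end Pool.Agent.Helper33.Aug
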