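import Pool.Agent.Helper33.Aug.Step4

/-!
# Step 4b: a relation in the root subgroup `z ↦ T e (z φ)`
-/

open Matrix

namespace Pool.Agent.Helper33.Aug

lemma heis_aux {G : Type*} [Group G] {Xa Xc Yb Yd Z1 Z2 : G} (h1 : Xa * Xc = Xc * Xa)
    (h2 : Yb * Yd = Yd * Yb) (h3 : Xa * Yd = Z1 * (Yd * Xa)) (h4 : Yb * Xc = Z2 * (Xc * Yb))
    (h5 : Xa * Z2 = Z2 * Xa) (h6 : Xc * Z1 = Z1 * Xc) :
    (Xa * Yb) * (Xc * Yd) = (Z1 * Z2) * (Xc * Yd) * (Xa * Yb) ∨
    (Xa * Yb) * (Xc * Yd) = (Z2 * Z1) * (Xc * Yd) * (Xa * Yb) := by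
  right
  calc (Xa * Yb) * (Xc * Yd) = Xa * (Yb * Xc) * Yd := by simp only [mul_assoc]
    _ = Xa * (Z2 * (Xc * Yb)) * Yd := by rw [h4]
    _ = (Xa * Z2) * Xc * (Yb * Yd) := by simp only [mul_assoc]
    _ = (Z2 * Xa) * Xc * (Yd * Yb) := by rw [h5, h2]
    _ = Z2 * (Xa * Xc) * Yd * Yb := by simp only [mul_assoc]
    _ = Z2 * (Xc * Xa) * Yd * Yb := by rw [h1]
    _ = Z2 * Xc * (Xa * Yd) * Yb := by simp only [mul_assoc]
    _ = Z2 * Xc * (Z1 * (Yd * Xa)) * Yb := by rw [h3]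
    _ = Z2 * (Xc * Z1) * Yd * (Xa * Yb) := by simp only [mul_assoc]
    _ = Z2 * (Z1 * Xc) * Yd * (Xa * Yb) := by rw [h6]
    _ = (Z2 * Z1) * (Xc * Yd) * (Xa * Yb) := by simp only [mul_assoc]

variable {F ι : Type*} [Field F] [Fintype ι] [DecidableEq ι]

section heis

variable {w f e φ : ι → F} (hwf : f ⬝ᵥ w = 1) (he : f ⬝ᵥ e = 0) (hφw : φ ⬝ᵥ w = 0)
  (hφe : φ ⬝ᵥ e = 0)

omit [DecidableEq ι] in
include he in
lemma fe (c : F) : f ⬝ᵥ (c • e) = 0 := by rw [dotProduct_smul, he, smul_zero]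

omit [DecidableEq ι] in
include hφw in
lemma pw (c : F) : (c • φ) ⬝ᵥ w = 0 := by rw [smul_dotProduct, hφw, smul_zero]

include hwf he hφw hφe in
lemma XY (a d : F) : T (a • e) f * T w (d • φ) =
    T e ((a * d) • φ) * (T w (d • φ) * T (a • e) f) := by
  have h1 : T (a • e) f * T w (d • φ) = T (w + a • e) (d • φ) * T (a • e) f := by
    apply mul_T _ (pw hφw d)
    · rw [dotProduct_add, pw hφw, zero_add, smul_dotProduct, dotProduct_smul, hφe, smul_zero,
        smul_zero]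
    · rw [T_mulVec (fe he a), vecMul_T (fe he a), hwf, one_smul, smul_dotProduct, dotProduct_smul,
        hφe, smul_zero, smul_zero, zero_smul, add_zero]
  have h2 : T (w + a • e) (d • φ) = T (a • e) (d • φ) * T w (d • φ) := by
    rw [add_comm w, T_add_left _ (pw hφw d)]
    rw [smul_dotProduct, dotProduct_smul, hφe, smul_zero, smul_zero]
  have h3 : T (a • e) (d • φ) = T e ((a * d) • φ) := by
    rw [T_smul (by rw [smul_dotProduct, hφe, smul_zero]), smul_smul]
  rw [h1, h2, h3, mul_assoc]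

include he hφe in
lemma XZ (a z : F) : T (a • e) f * T e (z • φ) = T e (z • φ) * T (a • e) f := by
  symm
  apply mul_T _ (fe he a) (fe he a)
  rw [T_mulVec (by rw [smul_dotProduct, hφe, smul_zero]),
    vecMul_T (by rw [smul_dotProduct, hφe, smul_zero]), he, zero_smul, add_zero, dotProduct_smul,
    smul_dotProduct, hφe, smul_zero, smul_zero, zero_smul, add_zero]

include hφw hφe in
lemma YZ (d z : F) : T w (d • φ) * T e (z • φ) = T e (z • φ) * T w (d • φ) := by
  symm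
  apply mul_T _ (pw hφw d) (pw hφw d)
  rw [T_mulVec (by rw [smul_dotProduct, hφe, smul_zero]),
    vecMul_T (by rw [smul_dotProduct, hφe, smul_zero]), pw hφw, zero_smul, add_zero,
    smul_dotProduct, hφe, smul_zero, zero_smul, add_zero]

include hφe in
lemma Z_add (a b : F) : T e ((a + b) • φ) = T e (a • φ) * T e (b • φ) := by
  rw [add_smul, T_add_right (by rw [smul_dotProduct, hφe, smul_zero])
    (by rw [smul_dotProduct, hφe, smul_zero])]

include hwf he hφw hφe in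
lemma YX (b c : F) : T w (b • φ) * T (c • e) f =
    T e ((-(b * c)) • φ) * (T (c • e) f * T w (b • φ)) := by
  rw [XY hwf he hφw hφe, ← mul_assoc, ← Z_add hφe]
  rw [show -(b * c) + c * b = 0 by ring, zero_smul, T_zero_right, one_mul]

include hwf he hφw hφe in
lemma heis (a b c d : F) : (T (a • e) f * T w (b • φ)) * (T (c • e) f * T w (d • φ)) =
    T e ((a * d - b * c) • φ) * (T (c • e) f * T w (d • φ)) * (T (a • e) f * T w (b • φ)) := by
  have key := heis_aux (Xa := T (a • e) f) (Xc := T (c • e) f) (Yb := T w (b • φ))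
    (Yd := T w (d • φ)) (Z1 := T e ((a * d) • φ)) (Z2 := T e ((-(b * c)) • φ))
    (T_comm_left (fe he a) (fe he c)) (T_comm_right (pw hφw b) (pw hφw d))
    (XY hwf he hφw hφe a d) (YX hwf he hφw hφe b c) (XZ he hφe _ _) (XZ he hφe _ _)
  have e1 : T e ((a * d) • φ) * T e ((-(b * c)) • φ) = T e ((a * d - b * c) • φ) := by
    rw [← Z_add hφe, sub_eq_add_neg]
  have e2 : T e ((-(b * c)) • φ) * T e ((a * d) • φ) = T e ((a * d - b * c) • φ) := by
    rw [← Z_add hφe, add_comm, sub_eq_add_neg]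
  rw [e1, e2] at key
  rcases key with h | h <;> exact h

end heis

variable {P R : Type*} [Field P] [Ring R] [Algebra P R] (ρ : SpecialLinearGroup ι F →* R)

/-- The left multiplication by `zAct`. -/
noncomputable def zEnd (P : Type*) {R : Type*} [Field P] [Ring R] [Algebra P R]
    (ρ : SpecialLinearGroup ι F →* R) {e φ : ι → F} (hφe : φ ⬝ᵥ e = 0) :
    AddMonoidAlgebra P F →ₐ[P] Module.End P R := (Algebra.lmul P R).comp (zAct P ρ hφe)

lemma zEnd_apply {e φ : ι → F} (hφe : φ ⬝ᵥ e = 0) (θ : AddMonoidAlgebra P F) (N : R) :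
    zEnd P ρ hφe θ N = zAct P ρ hφe θ * N := rfl

lemma zEnd_ch {e φ : ι → F} (hφe : φ ⬝ᵥ e = 0) (z : F) (N : R) :
    zEnd P ρ hφe (ch P z) N = ρ (T e (z • φ)) * N := by
  rw [zEnd_apply, zAct, lAct_ch]

theorem step4b [Infinite F] {w f e φ : ι → F} (hwf : f ⬝ᵥ w = 1) (he : f ⬝ᵥ e = 0)
    (hφw : φ ⬝ᵥ w = 0) (hφe : φ ⬝ᵥ e = 0) (θ : AddMonoidAlgebra P (F × F)) (hθ : θ ≠ 0)
    (h : act2 P ρ he hφw θ 1 = 0) :
    ∃ θ₁ : AddMonoidAlgebra P F, θ₁ ≠ 0 ∧ zAct P ρ hφe θ₁ = 0 := by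
  classical
  -- generic (α, β)
  obtain ⟨ab, hab⟩ : ∃ ab : F × F, ∀ p : {p : θ.coeff.support × θ.coeff.support // p.1 ≠ p.2},
      ab.1 * ((p.1.1 : F × F).2 - (p.1.2 : F × F).2) -
        ab.2 * ((p.1.1 : F × F).1 - (p.1.2 : F × F).1) ≠ 0 := by
    apply generic' (V := F × F)
    · rintro ⟨⟨i, j⟩, hij⟩
      refine LP.sub (LP.mul (LP.linear (LinearMap.fst F F F)) ?_)
        (LP.mul (LP.linear (LinearMap.snd F F F)) ?_)
      · intro u v
        exact ⟨Polynomial.C _, fun t => by rw [Polynomial.eval_C]⟩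
      · intro u v
        exact ⟨Polynomial.C _, fun t => by rw [Polynomial.eval_C]⟩
    · rintro ⟨⟨i, j⟩, hij⟩
      by_cases h2 : (i : F × F).2 - (j : F × F).2 = 0
      · refine ⟨(0, 1), ?_⟩
        intro h3
        apply hij
        apply Subtype.ext
        apply Prod.ext
        · simpa [sub_eq_zero, eq_comm] using h3
        · exact sub_eq_zero.1 h2
      · exact ⟨(1, 0), by simpa using h2⟩
  let x : θ.coeff.support → R := fun a =>
    θ.coeff a • (ρ (T ((a : F × F).1 • e) f) * ρ (T w ((a : F × F).2 • φ)))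
  have hx : ∑ a, x a = 0 := by
    rw [act2, biAct_apply, sum_support] at h
    simpa [x] using h
  let χ : θ.coeff.support → F → F := fun a t =>
    (t * ab.1) * (a : F × F).2 - (t * ab.2) * (a : F × F).1
  have hχ : ∀ i j, i ≠ j → ∀ c : F, {t | χ i t - χ j t = c}.Finite := by
    intro i j hij c
    have hne := hab ⟨(i, j), hij⟩
    refine (Set.finite_singleton (c * (ab.1 * ((i : F × F).2 - (j : F × F).2) -
        ab.2 * ((i : F × F).1 - (j : F × F).1))⁻¹)).subset fun t ht => ?_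
    have ht' : χ i t - χ j t = c := ht
    have h2 : t * (ab.1 * ((i : F × F).2 - (j : F × F).2) -
        ab.2 * ((i : F × F).1 - (j : F × F).1)) = c := by
      rw [← ht']
      simp only [χ]
      ring
    rw [Set.mem_singleton_iff, ← h2, mul_assoc, mul_inv_cancel₀ hne, mul_one]
  have hrel : ∀ t : F, ∑ j, zEnd P ρ hφe (ch P (χ j t)) (x j) = 0 := by
    intro t
    set g := T ((t * ab.1) • e) f * T w ((t * ab.2) • φ) with hg
    have h1 : ρ g * ∑ a, x a = 0 := by rw [hx, mul_zero]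
    have h2 : ρ g * ∑ a, x a =
        (∑ j, zEnd P ρ hφe (ch P (χ j t)) (x j)) * ρ g := by
      rw [Finset.mul_sum, Finset.sum_mul]
      refine Finset.sum_congr rfl fun j _ => ?_
      have k1 := congrArg ρ
        (heis hwf he hφw hφe (t * ab.1) (t * ab.2) (j : F × F).1 (j : F × F).2)
      simp only [map_mul] at k1
      have e1 : zEnd P ρ hφe (ch P (χ j t)) (x j) =
          ρ (T e (χ j t • φ)) * x j := zEnd_ch ρ hφe _ _
      rw [e1]
      have e2 : x j = θ.coeff j • (ρ (T ((j : F × F).1 • e) f) * ρ (T w ((j : F × F).2 • φ))) := rfl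
      have e3 : χ j t = t * ab.1 * (j : F × F).2 - t * ab.2 * (j : F × F).1 := rfl
      rw [e2, e3, mul_smul_comm, mul_smul_comm, smul_mul_assoc, hg, map_mul, k1]
    rw [h2] at h1
    exact cancel_right ρ h1
  obtain ⟨θ₁, hθ₁, h₁⟩ := elim (T := F) (zEnd P ρ hφe) χ hχ x hrel
  refine ⟨θ₁, hθ₁, ?_⟩
  obtain ⟨j, hj⟩ : θ.coeff.support.Nonempty := by
    rw [Finset.nonempty_iff_ne_empty, Ne, Finsupp.support_eq_empty]
    intro h0
    exact hθ (by ext a; simp [h0])
  have hjne : θ.coeff j ≠ 0 := Finsupp.mem_support_iff.1 hj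
  have h2 := h₁ ⟨j, hj⟩
  rw [zEnd_apply] at h2
  change zAct P ρ hφe θ₁ * (θ.coeff j • (ρ (T (j.1 • e) f) * ρ (T w (j.2 • φ)))) = 0 at h2
  rw [mul_smul_comm] at h2
  have h3 := (smul_eq_zero.1 h2).resolve_left hjne
  rw [← mul_assoc] at h3
  exact cancel_right ρ (cancel_right ρ h3)

end Pool.Agent.Helper33.Aug
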