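import Pool.Agent.Helper33.Aug.Act

/-!
# Step 5: scaling invariant ideals of `P[F]`
-/

namespace Pool.Agent.Helper33.Aug

section basic

variable {P A : Type*} [Field P] [AddCommGroup A]

lemma ch_zero : ch P (0 : A) = 1 := rfl

lemma ch_add (a b : A) : ch P (a + b) = ch P a * ch P b := by
  simp [ch]

lemma ch_nsmul (a : A) (n : ℕ) : ch P (n • a) = ch P a ^ n := by
  simp [ch]

lemma exists_ch_sub_one_mul [Infinite A] {β : AddMonoidAlgebra P A} (hβ : β ≠ 0) :
    ∃ x : A, (ch P x - 1) * β ≠ 0 := by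
  obtain ⟨s0, hs0⟩ : ∃ s0, β.coeff s0 ≠ 0 := by
    by_contra hcon
    push Not at hcon
    exact hβ (by ext s; simpa using hcon s)
  have hfin : {x : A | x + s0 ∈ β.coeff.support}.Finite :=
    Set.Finite.preimage (f := fun x : A => x + s0) (add_left_injective s0).injOn
      (Finset.finite_toSet _)
  obtain ⟨x, hx⟩ := hfin.exists_notMem
  refine ⟨x, fun h => hx ?_⟩
  have h1 : ch P x * β = β := by
    rw [sub_mul, one_mul] at h
    exact sub_eq_zero.1 h
  have h2 := ch_mul_coeff x β s0
  rw [h1] at h2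
  exact Finsupp.mem_support_iff.2 (by rw [h2]; exact hs0)

end basic

variable {P F : Type*} [Field P] [Field F]

/-- The scaling `[x] ↦ [a x]`. -/
noncomputable def scale (P : Type*) {F : Type*} [Field P] [Field F] (a : F) :
    AddMonoidAlgebra P F →ₐ[P] AddMonoidAlgebra P F :=
  lAct (fun x => ch P (a * x)) (by rw [mul_zero, ch_zero]) (fun x y => by rw [mul_add, ch_add])

lemma scale_ch (a x : F) : scale P a (ch P x) = ch P (a * x) := by
  rw [scale, lAct_ch]

lemma scale_apply (a : F) (θ : AddMonoidAlgebra P F) :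
    scale P a θ = ∑ x : θ.coeff.support, θ.coeff x • ch P (a * x) := by
  rw [scale, lAct_apply, sum_support]

theorem prime_mem [Infinite F] (J : Ideal (AddMonoidAlgebra P F)) (hJ : J ≠ ⊥)
    (hs : ∀ a : F, a ≠ 0 → ∀ θ ∈ J, scale P a θ ∈ J) (Q : Ideal (AddMonoidAlgebra P F))
    [hQ : Q.IsPrime] (hJQ : J ≤ Q) (u : F) : ch P u - 1 ∈ Q := by
  classical
  obtain ⟨θ, hθJ, hθ⟩ := Submodule.exists_mem_ne_zero_of_ne_bot hJ
  obtain ⟨x0, hx0⟩ := exists_ch_sub_one_mul hθ
  set β := (ch P x0 - 1) * θ with hβ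
  have hβJ : β ∈ J := J.mul_mem_left _ hθJ
  have hβs : ∀ a : F, scale P a β ∈ J := by
    intro a
    by_cases ha : a = 0
    · rw [hβ, map_mul, map_sub, scale_ch, ha, zero_mul, ch_zero, map_one, sub_self, zero_mul]
      exact J.zero_mem
    · exact hs a ha β hβJ
  by_contra hu
  let D := AddMonoidAlgebra P F ⧸ Q
  let mk : AddMonoidAlgebra P F →+* D := Ideal.Quotient.mk Q
  let L : β.coeff.support → (Multiplicative F →* D) := fun i =>
    { toFun := fun a => mk (ch P (a.toAdd * (i : F)))
      map_one' := by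
        change mk (ch P (0 * (i : F))) = 1
        rw [zero_mul, ch_zero, map_one]
      map_mul' := fun a b => by
        change mk (ch P ((a.toAdd + b.toAdd) * (i : F))) = _
        rw [add_mul, ch_add, map_mul] }
  have hL : Function.Injective L := by
    intro i j hij
    by_contra hne
    have hne' : (i : F) - (j : F) ≠ 0 := fun h => hne (Subtype.ext (sub_eq_zero.1 h))
    apply hu
    have h1 : mk (ch P (u / ((i : F) - j) * (i : F))) = mk (ch P (u / ((i : F) - j) * (j : F))) :=
      DFunLike.congr_fun hij (Multiplicative.ofAdd (u / ((i : F) - j)))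
    have h2 : ch P u = ch P (u / ((i : F) - j) * (i : F)) * ch P (-(u / ((i : F) - j) * (j : F))) := by
      rw [← ch_add]
      congr 1
      field_simp
      ring
    have h3 : mk (ch P u) = 1 := by
      rw [h2, map_mul, h1, ← map_mul, ← ch_add, add_neg_cancel, ch_zero, map_one]
    rw [← Ideal.Quotient.eq_zero_iff_mem, map_sub, map_one]
    exact sub_eq_zero.2 h3
  have hli := (linearIndependent_monoidHom (Multiplicative F) D).comp L hL
  rw [Fintype.linearIndependent_iff] at hli
  have hsum : ∑ i : β.coeff.support, mk (algebraMap P _ (β.coeff i)) •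
      ((fun f : Multiplicative F →* D => (f : Multiplicative F → D)) ∘ L) i = 0 := by
    funext a
    have h1 : mk (scale P a.toAdd β) = 0 := Ideal.Quotient.eq_zero_iff_mem.2 (hJQ (hβs _))
    rw [scale_apply, map_sum] at h1
    rw [Finset.sum_apply, Pi.zero_apply, ← h1]
    refine Finset.sum_congr rfl fun i _ => ?_
    rw [Algebra.smul_def, map_mul]
    rfl
  have h4 := hli _ hsum
  obtain ⟨s, hsm⟩ : β.coeff.support.Nonempty := by
    rw [Finset.nonempty_iff_ne_empty, Ne, Finsupp.support_eq_empty]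
    intro h0
    exact hx0 (by ext a; simp [h0])
  have h5 := h4 ⟨s, hsm⟩
  have h6 : Function.Injective (mk.comp (algebraMap P (AddMonoidAlgebra P F))) :=
    RingHom.injective _
  have h7 : β.coeff s = 0 := h6 (by rw [map_zero]; exact h5)
  exact Finsupp.mem_support_iff.1 hsm h7

/-- In characteristic zero a nilpotent `[x] - 1` modulo `J` is already in `J`. -/
theorem nil_char_zero (hp : ringChar P = 0) (hchar : ringChar P ≠ ringChar F)
    (J : Ideal (AddMonoidAlgebra P F)) {x : F} {N : ℕ} (hN : (ch P x - 1) ^ N ∈ J) :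
    ch P x - 1 ∈ J := by
  have hP0 : CharZero P := by
    have := ringChar.charP P
    rw [hp] at this
    exact CharP.charP_to_charZero P
  set q := ringChar F with hq
  have hq0 : q ≠ 0 := fun h => hchar (hp.trans h.symm)
  have hqF : (q : F) = 0 := by rw [hq, ringChar.Nat.cast_ringChar]
  set v := ch P x - 1 with hv
  have hu : (1 + v) ^ q = 1 := by
    rw [hv, add_sub_cancel, ← ch_nsmul, nsmul_eq_mul, hqF, zero_mul, ch_zero]
  obtain ⟨k, hk⟩ := Polynomial.powAddExpansion (1 : AddMonoidAlgebra P F) v q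
  rw [hu, one_pow, one_pow, mul_one] at hk
  have h1 : (q : AddMonoidAlgebra P F) * v = -(k * v ^ 2) := by
    have : (0 : AddMonoidAlgebra P F) = (q : AddMonoidAlgebra P F) * v + k * v ^ 2 := by
      have h := hk
      rw [add_assoc] at h
      exact (left_eq_add.1 h).symm
    rw [eq_neg_iff_add_eq_zero]
    exact this.symm
  have hqP : (q : P) ≠ 0 := Nat.cast_ne_zero.2 hq0
  have h2 : algebraMap P (AddMonoidAlgebra P F) ((q : P)⁻¹) * (q : AddMonoidAlgebra P F) = 1 := by
    rw [← map_natCast (algebraMap P (AddMonoidAlgebra P F)), ← map_mul, inv_mul_cancel₀ hqP,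
      map_one]
  have h3 : v = (-(algebraMap P (AddMonoidAlgebra P F) ((q : P)⁻¹) * k)) * v ^ 2 := by
    calc v = (algebraMap P (AddMonoidAlgebra P F) ((q : P)⁻¹) * (q : AddMonoidAlgebra P F)) * v := by
          rw [h2, one_mul]
      _ = algebraMap P (AddMonoidAlgebra P F) ((q : P)⁻¹) * ((q : AddMonoidAlgebra P F) * v) := by
          rw [mul_assoc]
      _ = _ := by rw [h1]; ring
  set c := -(algebraMap P (AddMonoidAlgebra P F) ((q : P)⁻¹) * k) with hc
  have h4 : ∀ m : ℕ, v = c ^ m * v ^ (m + 1) := by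
    intro m
    induction m with
    | zero => simp
    | succ m ih =>
      calc v = c ^ m * v ^ (m + 1) := ih
        _ = c ^ m * (v ^ m * v) := by rw [pow_succ]
        _ = c ^ m * (v ^ m * (c * v ^ 2)) := by rw [← h3]
        _ = _ := by ring
  rw [h4 N, pow_succ]
  exact J.mul_mem_left _ (J.mul_mem_right _ hN)

theorem step5 [Infinite F] (hchar : ringChar P ≠ ringChar F)
    (J : Ideal (AddMonoidAlgebra P F)) (hJ : J ≠ ⊥)
    (hs : ∀ a : F, a ≠ 0 → ∀ θ ∈ J, scale P a θ ∈ J) (x : F) : ch P x - 1 ∈ J := by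
  have hrad : ∀ y : F, ∃ N : ℕ, (ch P y - 1) ^ N ∈ J := by
    intro y
    have h1 : ch P y - 1 ∈ J.radical := by
      rw [Ideal.radical_eq_sInf, Ideal.mem_sInf]
      rintro Q ⟨hJQ, hQ⟩
      exact prime_mem J hJ hs Q hJQ y
    exact Ideal.mem_radical_iff.1 h1
  by_cases hp : ringChar P = 0
  · obtain ⟨N, hN⟩ := hrad x
    exact nil_char_zero hp hchar J hN
  · -- positive characteristic coefficients
    set p := ringChar P with hpd
    have hcp : CharP P p := ringChar.charP P
    have hprime : p.Prime := (CharP.char_is_prime_or_zero P p).resolve_right hp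
    have : Fact p.Prime := ⟨hprime⟩
    have hpF : (p : F) ≠ 0 := by
      intro h0
      have h1 : ringChar F ∣ p := ringChar.dvd h0
      rcases (Nat.dvd_prime hprime).1 h1 with h2 | h2
      · have h3 : ((1 : ℕ) : F) = 0 := by
          rw [← h2]; exact ringChar.Nat.cast_ringChar
        simp at h3
      · exact hchar h2.symm
    have hcR : CharP (AddMonoidAlgebra P F) p :=
      charP_of_injective_algebraMap (algebraMap P (AddMonoidAlgebra P F)).injective p
    obtain ⟨N, hN⟩ := hrad 1
    have hN2 : (ch P (1 : F) - 1) ^ (p ^ N) ∈ J := by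
      obtain ⟨m, hm⟩ := Nat.exists_eq_add_of_le (Nat.lt_pow_self hprime.one_lt (n := N)).le
      rw [hm, pow_add]
      exact J.mul_mem_right _ hN
    rw [sub_pow_char_pow, one_pow, ← ch_nsmul] at hN2
    by_cases hx : x = 0
    · rw [hx, ch_zero, sub_self]
      exact J.zero_mem
    have hpN : (p : F) ^ N ≠ 0 := pow_ne_zero _ hpF
    have h1 := hs (x / (p : F) ^ N) (div_ne_zero hx hpN) _ hN2
    rw [map_sub, map_one, scale_ch, nsmul_eq_mul, mul_one] at h1
    push_cast at h1
    rwa [div_mul_cancel₀ _ hpN] at h1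

end Pool.Agent.Helper33.Aug
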