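import Pool.Agent.Helper33.Aug.Step5
import Pool.Agent.Helper33.Aug.QuadB

/-!
# Ideals of `P[F]` which are invariant under multiplication by squares
-/

namespace Pool.Agent.Helper33.Aug

variable {P F : Type*} [Field P] [Field F]

/-- The independence statement in all characteristics different from two. -/
theorem quad_trivial {D S : Type*} [CommRing D] [IsDomain D] [Fintype S] [Nonempty S] [Infinite F]
    (hF2 : (2 : F) ≠ 0) (hchar : ringChar D ≠ ringChar F) {lam : F → D} (h0 : lam 0 = 1)
    (hadd : ∀ x y, lam (x + y) = lam x * lam y) (b : S → D) (hb : ∀ i, b i ≠ 0) (x : S → F)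
    (hx : Function.Injective x) (hrel : ∀ a : F, ∑ i, b i * lam (a ^ 2 * x i) = 0) (u : F) :
    lam u = 1 := by
  by_cases hF : ringChar F = 0
  · have : CharZero F := by
      have := ringChar.charP F
      rw [hF] at this
      exact CharP.charP_to_charZero F
    by_cases htor : ∀ x, ∃ N : ℕ, 0 < N ∧ lam x ^ N = 1
    · exact Quad.caseB1 h0 hadd htor b hb x hx hrel u
    · exfalso
      push Not at htor
      obtain ⟨z, hz⟩ := htor
      have hcp : CharP D (ringChar D) := ringChar.charP D
      have hp : (ringChar D).Prime :=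
        (CharP.char_is_prime_or_zero D _).resolve_right (fun h => hchar (h.trans hF.symm))
      have : Fact (ringChar D).Prime := ⟨hp⟩
      exact Quad.caseB2 (p := ringChar D) h0 hadd hz b hb x hx hrel
  · have hcp : CharP F (ringChar F) := ringChar.charP F
    have hq : (ringChar F).Prime := (CharP.char_is_prime_or_zero F _).resolve_right hF
    refine Quad.caseA hq h0 hadd hF2 ?_ b hb x hx hrel u
    intro h
    have h1 : ringChar D ∣ ringChar F := ringChar.dvd h
    rcases (Nat.dvd_prime hq).1 h1 with h2 | h2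
    · have h3 : ((1 : ℕ) : D) = 0 := by
        rw [← h2]; exact ringChar.Nat.cast_ringChar
      simp at h3
    · exact hchar h2

theorem prime_mem_sq [Infinite F] (hF2 : (2 : F) ≠ 0) (hchar : ringChar P ≠ ringChar F)
    (J : Ideal (AddMonoidAlgebra P F)) (hJ : J ≠ ⊥)
    (hs : ∀ a : F, a ≠ 0 → ∀ θ ∈ J, scale P (a ^ 2) θ ∈ J) (Q : Ideal (AddMonoidAlgebra P F))
    [hQ : Q.IsPrime] (hJQ : J ≤ Q) (u : F) : ch P u - 1 ∈ Q := by
  classical
  obtain ⟨θ, hθJ, hθ⟩ := Submodule.exists_mem_ne_zero_of_ne_bot hJ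
  obtain ⟨x0, hx0⟩ := exists_ch_sub_one_mul hθ
  set β := (ch P x0 - 1) * θ with hβ
  have hβJ : β ∈ J := J.mul_mem_left _ hθJ
  have hβs : ∀ a : F, scale P (a ^ 2) β ∈ J := by
    intro a
    by_cases ha : a = 0
    · rw [hβ, map_mul, map_sub, scale_ch, ha, zero_pow two_ne_zero, zero_mul, ch_zero, map_one,
        sub_self, zero_mul]
      exact J.zero_mem
    · exact hs a ha β hβJ
  let D := AddMonoidAlgebra P F ⧸ Q
  let mk : AddMonoidAlgebra P F →+* D := Ideal.Quotient.mk Q
  have hinj : Function.Injective (mk.comp (algebraMap P (AddMonoidAlgebra P F))) :=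
    RingHom.injective _
  have hcD : CharP D (ringChar P) := by
    have : CharP P (ringChar P) := ringChar.charP P
    exact (charP_of_injective_ringHom hinj (ringChar P))
  have hrD : ringChar D = ringChar P := ringChar.eq D (ringChar P)
  obtain ⟨s, hsm⟩ : β.coeff.support.Nonempty := by
    rw [Finset.nonempty_iff_ne_empty, Ne, Finsupp.support_eq_empty]
    intro h0
    exact hx0 (by ext a; simp [h0])
  have hne : Nonempty β.coeff.support := ⟨⟨s, hsm⟩⟩
  have h1 := quad_trivial (D := D) (S := β.coeff.support) hF2 (by rw [hrD]; exact hchar)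
    (lam := fun y => mk (ch P y)) (by rw [ch_zero, map_one])
    (fun y y' => by rw [ch_add, map_mul]) (fun i => mk (algebraMap P _ (β.coeff i)))
    (fun i h => Finsupp.mem_support_iff.1 i.2 (hinj (by rw [map_zero]; exact h)))
    (fun i => (i : F)) Subtype.val_injective (fun a => by
      have h2 : mk (scale P (a ^ 2) β) = 0 := Ideal.Quotient.eq_zero_iff_mem.2 (hJQ (hβs a))
      rw [scale_apply, map_sum] at h2
      rw [← h2]
      refine Finset.sum_congr rfl fun i _ => ?_
      rw [Algebra.smul_def, map_mul]) u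
  rw [← Ideal.Quotient.eq_zero_iff_mem, map_sub, map_one]
  exact sub_eq_zero.2 h1

theorem step5_sq [Infinite F] (h2 : ringChar F ≠ 2 ∨ ∀ x : F, ∃ y, y ^ 2 = x)
    (hchar : ringChar P ≠ ringChar F)
    (J : Ideal (AddMonoidAlgebra P F)) (hJ : J ≠ ⊥)
    (hs : ∀ a : F, a ≠ 0 → ∀ θ ∈ J, scale P (a ^ 2) θ ∈ J) (x : F) : ch P x - 1 ∈ J := by
  rcases h2 with h2 | h2
  · have hF2 : (2 : F) ≠ 0 := by
      intro h
      have h3 : ((2 : ℕ) : F) = 0 := by exact_mod_cast h
      have h4 : ringChar F ∣ 2 := ringChar.dvd h3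
      rcases (Nat.dvd_prime Nat.prime_two).1 h4 with h5 | h5
      · have h6 : ((1 : ℕ) : F) = 0 := by
          rw [← h5]; exact ringChar.Nat.cast_ringChar
        simp at h6
      · exact h2 h5
    have hrad : ∀ y : F, ∃ N : ℕ, (ch P y - 1) ^ N ∈ J := by
      intro y
      have h1 : ch P y - 1 ∈ J.radical := by
        rw [Ideal.radical_eq_sInf, Ideal.mem_sInf]
        rintro Q ⟨hJQ, hQ⟩
        exact prime_mem_sq hF2 hchar J hJ hs Q hJQ y
      exact Ideal.mem_radical_iff.1 h1
    by_cases hp : ringChar P = 0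
    · exact nil_char_zero hp hchar J (hrad x).choose_spec
    · set p := ringChar P with hpd
      have hcp : CharP P p := ringChar.charP P
      have hprime : p.Prime := (CharP.char_is_prime_or_zero P p).resolve_right hp
      have : Fact p.Prime := ⟨hprime⟩
      have hpF : (p : F) ≠ 0 := by
        intro h0
        have h1 : ringChar F ∣ p := ringChar.dvd h0
        rcases (Nat.dvd_prime hprime).1 h1 with h2 | h2
        · have h3 : ((1 : ℕ) : F) = 0 := by
            rw [← h2]; exact ringChar.Nat.cast_ringChar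
          simp at h3
        · exact hchar h2.symm
      have hcR : CharP (AddMonoidAlgebra P F) p :=
        charP_of_injective_algebraMap (algebraMap P (AddMonoidAlgebra P F)).injective p
      obtain ⟨N, hN⟩ := hrad x
      have hN2 : (ch P x - 1) ^ (p ^ N) ∈ J := by
        obtain ⟨m, hm⟩ := Nat.exists_eq_add_of_le (Nat.lt_pow_self hprime.one_lt (n := N)).le
        rw [hm, pow_add]
        exact J.mul_mem_right _ hN
      rw [sub_pow_char_pow, one_pow, ← ch_nsmul] at hN2
      have hpN : (p : F) ^ N ≠ 0 := pow_ne_zero _ hpF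
      have h1 := hs ((p : F) ^ N)⁻¹ (inv_ne_zero hpN) _ hN2
      rw [map_sub, map_one, scale_ch, nsmul_eq_mul] at h1
      push_cast at h1
      rw [show (((p : F) ^ N)⁻¹) ^ 2 * ((p : F) ^ N * x) = ((p : F) ^ N)⁻¹ * x by
        field_simp] at h1
      have h3 : ch P x = ch P (((p : F) ^ N)⁻¹ * x) ^ (p ^ N) := by
        rw [← ch_nsmul, nsmul_eq_mul]
        push_cast
        rw [mul_inv_cancel_left₀ hpN]
      obtain ⟨c, hc⟩ := sub_one_dvd_pow_sub_one (ch P (((p : F) ^ N)⁻¹ * x)) (p ^ N)
      rw [h3, hc]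
      exact J.mul_mem_right _ h1
  · apply step5 hchar J hJ
    intro a ha θ hθ
    obtain ⟨y, rfl⟩ := h2 a
    exact hs y (fun h => ha (by rw [h, zero_pow two_ne_zero])) θ hθ

end Pool.Agent.Helper33.Aug
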