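import Pool.Agent.Helper33.Aug.Step4b
import Pool.Agent.Helper33.Aug.Step5

/-!
# Step 6: normal generation
-/

open Matrix

namespace Pool.Agent.Helper33.Aug

variable {F ι : Type*} [Field F] [Fintype ι] [DecidableEq ι]

/-- An element of determinant one with `g e = a e` and `φ g = φ`. -/
lemma exists_scaling {w f e e' φ : ι → F} (hwf : f ⬝ᵥ w = 1) (he : f ⬝ᵥ e = 0)
    (hφw : φ ⬝ᵥ w = 0) (hφe : φ ⬝ᵥ e = 0) (hee' : e' ⬝ᵥ e = 1) {a : F} (ha : a ≠ 0) :
    ∃ g : SpecialLinearGroup ι F, mt g *ᵥ e = a • e ∧ φ ᵥ* mt g = φ := by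
  have hdet : ((1 + vecMulVec ((a - 1) • e) e') * (1 + vecMulVec ((a⁻¹ - 1) • w) f)).det = 1 := by
    rw [det_mul, det_one_add_vmv, det_one_add_vmv, dotProduct_smul, dotProduct_smul, hee', hwf,
      smul_eq_mul, smul_eq_mul, mul_one, mul_one, add_sub_cancel, add_sub_cancel,
      mul_inv_cancel₀ ha]
  refine ⟨⟨(1 + vecMulVec ((a - 1) • e) e') * (1 + vecMulVec ((a⁻¹ - 1) • w) f), hdet⟩, ?_, ?_⟩
  · change ((1 + vecMulVec ((a - 1) • e) e') * (1 + vecMulVec ((a⁻¹ - 1) • w) f)) *ᵥ e = a • e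
    rw [← mulVec_mulVec, add_mulVec 1 (vecMulVec ((a⁻¹ - 1) • w) f), one_mulVec, vecMulVec_mulVec,
      he, MulOpposite.op_zero, zero_smul, add_zero, add_mulVec, one_mulVec, vecMulVec_mulVec, hee',
      MulOpposite.op_one, one_smul, sub_smul, one_smul]
    abel
  · change φ ᵥ* ((1 + vecMulVec ((a - 1) • e) e') * (1 + vecMulVec ((a⁻¹ - 1) • w) f)) = φ
    rw [← vecMul_vecMul, vecMul_add 1 (vecMulVec ((a - 1) • e) e'), vecMul_one, vecMul_vecMulVec,
      dotProduct_smul, hφe, smul_zero, zero_smul, add_zero, vecMul_add, vecMul_one,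
      vecMul_vecMulVec, dotProduct_smul, hφw, smul_zero, zero_smul, add_zero]

variable {P R : Type*} [Field P] [Ring R] [Algebra P R] (ρ : SpecialLinearGroup ι F →* R)

lemma zAct_apply {e φ : ι → F} (hφe : φ ⬝ᵥ e = 0) (θ : AddMonoidAlgebra P F) :
    zAct P ρ hφe θ = ∑ z : θ.coeff.support, θ.coeff z • ρ (T e ((z : F) • φ)) := by
  rw [zAct, lAct_apply, sum_support]

lemma zAct_ch {e φ : ι → F} (hφe : φ ⬝ᵥ e = 0) (z : F) :
    zAct P ρ hφe (ch P z) = ρ (T e (z • φ)) := by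
  rw [zAct, lAct_ch]

lemma zAct_scale {e φ : ι → F} (hφe : φ ⬝ᵥ e = 0) {g : SpecialLinearGroup ι F} {a : F}
    (h1 : mt g *ᵥ e = a • e) (h2 : φ ᵥ* mt g = φ) (θ : AddMonoidAlgebra P F) :
    ρ g * zAct P ρ hφe θ = zAct P ρ hφe (scale P a θ) * ρ g := by
  rw [scale_apply, map_sum, zAct_apply, Finset.mul_sum, Finset.sum_mul]
  refine Finset.sum_congr rfl fun z _ => ?_
  rw [map_smul, zAct_ch, mul_smul_comm, smul_mul_assoc, ← map_mul, ← map_mul]
  congr 2
  apply mul_T _ (by rw [smul_dotProduct, hφe, smul_zero]) (by rw [smul_dotProduct, hφe, smul_zero])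
  rw [h1, smul_vecMul, h2, smul_vecMulVec, vecMulVec_smul, vecMulVec_smul, smul_smul]

/-- All the elements of the root subgroup act trivially. -/
theorem root_trivial [Infinite F] (hchar : ringChar P ≠ ringChar F)
    {w f e e' φ : ι → F} (hwf : f ⬝ᵥ w = 1) (he : f ⬝ᵥ e = 0)
    (hφw : φ ⬝ᵥ w = 0) (hφe : φ ⬝ᵥ e = 0) (hee' : e' ⬝ᵥ e = 1)
    {θ : AddMonoidAlgebra P F} (hθ : θ ≠ 0) (h : zAct P ρ hφe θ = 0) (z : F) :
    ρ (T e (z • φ)) = 1 := by
  have h1 : ch P z - 1 ∈ RingHom.ker (zAct P ρ hφe) := by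
    apply step5 hchar
    · intro hbot
      have : θ ∈ RingHom.ker (zAct P ρ hφe) := h
      rw [hbot] at this
      exact hθ this
    · intro a ha θ' hθ'
      obtain ⟨g, hg1, hg2⟩ := exists_scaling hwf he hφw hφe hee' ha
      have h2 := zAct_scale ρ hφe hg1 hg2 θ'
      have h3 : zAct P ρ hφe θ' = 0 := hθ'
      rw [h3, mul_zero] at h2
      exact cancel_right ρ h2.symm
  have h2 : zAct P ρ hφe (ch P z - 1) = 0 := h1
  rw [map_sub, map_one, zAct_ch] at h2
  exact sub_eq_zero.1 h2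

omit [DecidableEq ι] in
lemma exists_dual [DecidableEq ι] {x x' : ι → F} (hx : x ≠ 0) (h : ∀ c : F, x' ≠ c • x) :
    ∃ φ : ι → F, φ ⬝ᵥ x = 1 ∧ φ ⬝ᵥ x' = 0 := by
  obtain ⟨k, hk⟩ := Function.ne_iff.1 hx
  have hk' : x k ≠ 0 := hk
  obtain ⟨i, hi⟩ := Function.ne_iff.1 (h (x' k / x k))
  have hD : x' i * x k - x' k * x i ≠ 0 := by
    intro h0
    apply hi
    simp only [Pi.smul_apply, smul_eq_mul]
    field_simp
    linear_combination h0
  refine ⟨(x' i * x k - x' k * x i)⁻¹ • (x' i • Pi.single k 1 - x' k • Pi.single i 1), ?_, ?_⟩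
  · rw [smul_dotProduct, sub_dotProduct, smul_dotProduct, smul_dotProduct, single_one_dotProduct,
      single_one_dotProduct]
    simp only [smul_eq_mul]
    exact inv_mul_cancel₀ hD
  · rw [smul_dotProduct, sub_dotProduct, smul_dotProduct, smul_dotProduct, single_one_dotProduct,
      single_one_dotProduct]
    simp only [smul_eq_mul]
    rw [mul_comm (x' i) (x' k), sub_self, mul_zero]

lemma move_x {x x' ψ : ι → F} (hx : x ≠ 0) (h : ψ ⬝ᵥ x = 0) (h' : ψ ⬝ᵥ x' = 0)
    (H : ∀ z : F, ρ (T x (z • ψ)) = 1) (z : F) : ρ (T x' (z • ψ)) = 1 := by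
  by_cases hc : ∃ c : F, x' = c • x
  · obtain ⟨c, rfl⟩ := hc
    rw [T_smul (by rw [smul_dotProduct, h, smul_zero]), smul_smul]
    exact H _
  · push Not at hc
    obtain ⟨φ, h1, h2⟩ := exists_dual hx hc
    have hz : (z • ψ) ⬝ᵥ x = 0 := by rw [smul_dotProduct, h, smul_zero]
    have hz' : (z • ψ) ⬝ᵥ x' = 0 := by rw [smul_dotProduct, h', smul_zero]
    have key : T x' φ * T x (z • ψ) = T (x + x') (z • ψ) * T x' φ := by
      apply mul_T _ hz (by rw [dotProduct_add, hz, hz', add_zero])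
      rw [T_mulVec h2, vecMul_T h2, h1, one_smul, hz', zero_smul, add_zero]
    rw [T_add_left hz hz'] at key
    have h3 := congrArg ρ key
    rw [map_mul, map_mul, map_mul, H, mul_one, one_mul] at h3
    have h4 : (ρ (T x' (z • ψ)) - 1) * ρ (T x' φ) = 0 := by
      rw [sub_mul, one_mul, ← h3, sub_self]
    exact sub_eq_zero.1 (cancel_right ρ h4)

lemma move_psi {x ψ ψ' : ι → F} (hψ : ψ ≠ 0) (h : ψ ⬝ᵥ x = 0) (h' : ψ' ⬝ᵥ x = 0)
    (H : ∀ z : F, ρ (T x (z • ψ)) = 1) (z : F) : ρ (T x (z • ψ')) = 1 := by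
  by_cases hc : ∃ c : F, ψ' = c • ψ
  · obtain ⟨c, rfl⟩ := hc
    rw [smul_smul]
    exact H _
  · push Not at hc
    obtain ⟨u, h1, h2⟩ := exists_dual hψ hc
    rw [dotProduct_comm] at h1 h2
    have hu : (-z • ψ') ⬝ᵥ u = 0 := by rw [smul_dotProduct, h2, smul_zero]
    have hx : (-z • ψ') ⬝ᵥ x = 0 := by rw [smul_dotProduct, h', smul_zero]
    have hz : (z • ψ') ⬝ᵥ x = 0 := by rw [smul_dotProduct, h', smul_zero]
    have key : T u (-z • ψ') * T x ψ = T x (ψ + z • ψ') * T u (-z • ψ') := by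
      apply mul_T _ h (by rw [add_dotProduct, h, hz, add_zero])
      rw [T_mulVec hu, vecMul_T hu, hx, zero_smul, add_zero, add_dotProduct, smul_dotProduct, h2,
        smul_zero, add_zero, h1, one_smul, neg_smul, add_neg_cancel_right]
    rw [T_add_right h hz] at key
    have h3 := congrArg ρ key
    have h5 := H 1
    rw [one_smul] at h5
    rw [map_mul, map_mul, map_mul, h5, mul_one, one_mul] at h3
    have h4 : (ρ (T x (z • ψ')) - 1) * ρ (T u (-z • ψ')) = 0 := by
      rw [sub_mul, one_mul, ← h3, sub_self]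
    exact sub_eq_zero.1 (cancel_right ρ h4)

omit [DecidableEq ι] in
lemma exists_perp2 (hn : 3 ≤ Fintype.card ι) (φ ψ : ι → F) :
    ∃ x : ι → F, x ≠ 0 ∧ φ ⬝ᵥ x = 0 ∧ ψ ⬝ᵥ x = 0 := by
  let L : (ι → F) →ₗ[F] F × F :=
    { toFun := fun x => (φ ⬝ᵥ x, ψ ⬝ᵥ x)
      map_add' := fun x y => by
        rw [dotProduct_add, dotProduct_add]; rfl
      map_smul' := fun c x => by
        rw [dotProduct_smul, dotProduct_smul]; rfl }
  have h1 : LinearMap.ker L ≠ ⊥ := by
    apply LinearMap.ker_ne_bot_of_finrank_lt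
    rw [Module.finrank_prod, Module.finrank_self, Module.finrank_fintype_fun_eq_card]
    omega
  obtain ⟨x, hx, hx0⟩ := Submodule.exists_mem_ne_zero_of_ne_bot h1
  have h2 : L x = 0 := hx
  exact ⟨x, hx0, congrArg Prod.fst h2, congrArg Prod.snd h2⟩

theorem all_T (hn : 3 ≤ Fintype.card ι) {e φ : ι → F} (he : e ≠ 0) (hφ : φ ≠ 0)
    (hφe : φ ⬝ᵥ e = 0) (H : ∀ z : F, ρ (T e (z • φ)) = 1) {x ψ : ι → F} (h : ψ ⬝ᵥ x = 0) :
    ρ (T x ψ) = 1 := by
  obtain ⟨x', hx', h1, h2⟩ := exists_perp2 hn φ ψ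
  have k1 := move_x ρ he hφe h1 H
  have k2 := move_psi ρ hφ h1 h2 k1
  have k3 := move_x ρ hx' h2 h k2 1
  rwa [one_smul] at k3

lemma elem_orth {i j : ι} (hij : i ≠ j) (a : F) :
    (Pi.single j (1 : F) : ι → F) ⬝ᵥ (Pi.single i a : ι → F) = 0 := by
  rw [single_one_dotProduct, Pi.single_eq_of_ne hij.symm]

lemma transvection_eq {i j : ι} (hij : i ≠ j) (a : F) :
    SpecialLinearGroup.transvection hij a = T (Pi.single i a) (Pi.single j 1) := by
  apply SL_ext
  rw [coe_T (elem_orth hij a)]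
  change Matrix.transvection i j a = _
  rw [Matrix.transvection]
  congr 1
  ext k l
  simp only [vecMulVec_apply, Pi.single_apply, Matrix.single_apply]
  by_cases hk : k = i
  · by_cases hl : l = j
    · rw [if_pos ⟨hk.symm, hl.symm⟩, if_pos hk, if_pos hl, mul_one]
    · rw [if_neg (fun h => hl h.2.symm), if_neg hl, mul_zero]
  · rw [if_neg (fun h => hk h.1.symm), if_neg hk, zero_mul]

lemma elem_mulVec {i j : ι} (hij : i ≠ j) (a : F) (v : ι → F) :
    mt (SpecialLinearGroup.transvection hij a) *ᵥ v = v + Pi.single i (a * v j) := by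
  rw [transvection_eq, T_mulVec (elem_orth hij a), single_one_dotProduct]
  congr 1
  ext k
  simp only [Pi.smul_apply, Pi.single_apply, smul_eq_mul]
  split_ifs
  · ring
  · ring

lemma SL_ext_mulVec {A B : SpecialLinearGroup ι F} (h : ∀ v, mt A *ᵥ v = mt B *ᵥ v) : A = B := by
  apply SL_ext
  ext i j
  have := congrFun (h (Pi.single j 1)) i
  simpa using this

lemma diag2n_mulVec {i j : ι} (hij : i ≠ j) (c : F) (hc : c ≠ 0) (v : ι → F) :
    mt (SpecialLinearGroup.diag2n hij c hc) *ᵥ v =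
      fun k => (if k = i then c else if k = j then c⁻¹ else 1) * v k := by
  ext k
  change (Matrix.diagonal (fun k ↦ if k = i then c else if k = j then c⁻¹ else 1) *ᵥ v) k = _
  rw [Matrix.mulVec_diagonal]

lemma diag2n_eq {i j : ι} (hij : i ≠ j) (c : F) (hc : c ≠ 0) :
    SpecialLinearGroup.diag2n hij c hc =
      SpecialLinearGroup.transvection hij c * SpecialLinearGroup.transvection hij.symm (-c⁻¹) *
      SpecialLinearGroup.transvection hij c * SpecialLinearGroup.transvection hij (-1) *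
      SpecialLinearGroup.transvection hij.symm 1 * SpecialLinearGroup.transvection hij (-1) := by
  apply SL_ext_mulVec
  intro v
  simp only [map_mul, ← mulVec_mulVec, elem_mulVec, diag2n_mulVec]
  ext k
  simp only [Pi.add_apply, Pi.single_apply]
  by_cases hki : k = i
  · subst hki
    simp only [if_true, if_neg hij, if_neg hij.symm]
    field_simp
    ring
  · by_cases hkj : k = j
    · subst hkj
      simp only [if_true, if_neg hij, if_neg hij.symm]
      field_simp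
      ring
    · simp only [if_neg hki, if_neg hkj]
      ring

/-- If a root subgroup acts trivially then so does everything. -/
theorem all_trivial (hn : 3 ≤ Fintype.card ι) {e φ : ι → F} (he : e ≠ 0) (hφ : φ ≠ 0)
    (hφe : φ ⬝ᵥ e = 0) (H : ∀ z : F, ρ (T e (z • φ)) = 1) (g : SpecialLinearGroup ι F) :
    ρ g = 1 := by
  have : Nontrivial ι := by
    rw [← Fintype.one_lt_card_iff_nontrivial]; omega
  have ht : ∀ (i j : ι) (hij : i ≠ j) (a : F),
      ρ (SpecialLinearGroup.transvection hij a) = 1 := by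
    intro i j hij a
    rw [transvection_eq]
    exact all_T ρ hn he hφ hφe H (elem_orth hij a)
  refine SpecialLinearGroup.diagonal_transvection_induction' (fun g => ρ g = 1) g ?_ ?_ ?_
  · intro i j hij c hc
    rw [diag2n_eq]
    simp only [map_mul, ht, mul_one]
  · intro i j hij a
    exact ht i j hij a
  · intro A B hA hB
    have hA' : ρ A = 1 := hA
    have hB' : ρ B = 1 := hB
    rw [map_mul, hA', hB', mul_one]

end Pool.Agent.Helper33.Aug
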